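/-
helper43: finite cubic multigraphs inside ambient types, cuts, even subgraphs, perfect matchings.
-/
import Mathlib

set_option autoImplicit false
set_option linter.unusedSectionVars false

namespace Pool.Agent.H43.F5

/-- a finite multigraph with vertex set `vs`, edge set `es` and ends `a e`, `b e` -/
structure Gr (V E : Type) where
  vs : Finset V
  es : Finset E
  a : E → V
  b : E → V

variable {V E : Type} [DecidableEq V] [DecidableEq E]

/-- the edges of `A` at the vertex `v` -/
def star (G : Gr V E) (A : Finset E) (v : V) : Finset E :=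
  A.filter (fun e => G.a e = v ∨ G.b e = v)

/-- the edge `e` crosses `X` -/
def Cr (G : Gr V E) (X : Finset V) (e : E) : Prop := ¬ (G.a e ∈ X ↔ G.b e ∈ X)

instance (G : Gr V E) (X : Finset V) (e : E) : Decidable (Cr G X e) := by
  unfold Cr; infer_instance

/-- the edges of `A` crossing `X` -/
def cut (G : Gr V E) (A : Finset E) (X : Finset V) : Finset E := A.filter (Cr G X)

/-- a finite loopless cubic multigraph without bridges -/
structure Ok (G : Gr V E) : Prop where
  ha : ∀ e ∈ G.es, G.a e ∈ G.vs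
  hb : ∀ e ∈ G.es, G.b e ∈ G.vs
  ne : ∀ e ∈ G.es, G.a e ≠ G.b e
  deg : ∀ v ∈ G.vs, (star G G.es v).card = 3
  br : ∀ X ⊆ G.vs, (cut G G.es X).card ≠ 1

/-- `F` is an even subgraph -/
structure Ev (G : Gr V E) (F : Finset E) : Prop where
  sub : F ⊆ G.es
  deg : ∀ v ∈ G.vs, (star G F v).card = 0 ∨ (star G F v).card = 2

/-- at most `k` odd components of `(vs, F)`, by representatives -/
def TN (G : Gr V E) (F : Finset E) (k : ℕ) : Prop :=
  ∃ R ⊆ G.vs, R.card ≤ k ∧ ∀ X ⊆ G.vs, (∀ e ∈ F, ¬ Cr G X e) → Disjoint X R → Even X.card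

/-- `N` is a perfect matching -/
structure PM (G : Gr V E) (N : Finset E) : Prop where
  sub : N ⊆ G.es
  deg : ∀ v ∈ G.vs, (star G N v).card = 1

/-- no odd set whose boundary lies in `N` outside `F` -/
def Good (G : Gr V E) (F N : Finset E) : Prop :=
  ∀ X ⊆ G.vs, (∀ e ∈ G.es, Cr G X e → e ∈ N ∧ e ∉ F) → Even X.card

/-- the rooted statement -/
def Root (G : Gr V E) (F : Finset E) : Prop :=
  ∀ e ∈ G.es, ∃ N, PM G N ∧ e ∈ N ∧ Good G F N

theorem mem_star {G : Gr V E} {A : Finset E} {v : V} {e : E} :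
    e ∈ star G A v ↔ e ∈ A ∧ (G.a e = v ∨ G.b e = v) := by
  simp [star]

theorem mem_cut {G : Gr V E} {A : Finset E} {X : Finset V} {e : E} :
    e ∈ cut G A X ↔ e ∈ A ∧ Cr G X e := by
  simp [cut]

/-- handshake -/
theorem handshake (G : Gr V E) (A : Finset E) (hA : ∀ e ∈ A, G.a e ≠ G.b e) (X : Finset V) :
    (∑ v ∈ X, (star G A v).card) % 2 = (cut G A X).card % 2 := by
  have h1 : ∀ v, (star G A v).card = ∑ e ∈ A, ((if G.a e = v then 1 else 0) +
      (if G.b e = v then 1 else 0)) := by
    intro v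
    rw [star, Finset.card_filter]
    apply Finset.sum_congr rfl
    intro e he
    have := hA e he
    by_cases h : G.a e = v
    · have h' : ¬ G.b e = v := fun h2 => this (h.trans h2.symm)
      simp [h, h']
    · simp [h]
  have h2 : ∑ v ∈ X, (star G A v).card =
      ∑ e ∈ A, ((if G.a e ∈ X then 1 else 0) + (if G.b e ∈ X then 1 else 0)) := by
    rw [Finset.sum_congr rfl (fun v _ => h1 v), Finset.sum_comm]
    apply Finset.sum_congr rfl
    intro e _
    rw [Finset.sum_add_distrib]
    congr 1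
    · simp
    · simp
  rw [h2, cut, Finset.card_filter]
  have h3 : ∀ e ∈ A, ((if G.a e ∈ X then 1 else 0) + (if G.b e ∈ X then 1 else 0)) % 2 =
      (if Cr G X e then 1 else 0) % 2 := by
    intro e _
    unfold Cr
    by_cases h : G.a e ∈ X <;> by_cases h' : G.b e ∈ X <;> simp [h, h']
  rw [Finset.sum_nat_mod, Finset.sum_congr rfl h3, ← Finset.sum_nat_mod]

theorem cut_parity {G : Gr V E} (hG : Ok G) {X : Finset V} (hX : X ⊆ G.vs) :
    (cut G G.es X).card % 2 = X.card % 2 := by
  rw [← handshake G G.es hG.ne X, Finset.sum_congr rfl (fun v hv => hG.deg v (hX hv)),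
    Finset.sum_const, smul_eq_mul]
  omega

theorem cutN_parity {G : Gr V E} (hG : Ok G) {N : Finset E} (hN : PM G N) {X : Finset V}
    (hX : X ⊆ G.vs) : (cut G N X).card % 2 = X.card % 2 := by
  rw [← handshake G N (fun e he => hG.ne e (hN.sub he)) X,
    Finset.sum_congr rfl (fun v hv => hN.deg v (hX hv)), Finset.sum_const, smul_eq_mul, mul_one]

theorem cutF_even {G : Gr V E} (hG : Ok G) {F : Finset E} (hF : Ev G F) {X : Finset V}
    (hX : X ⊆ G.vs) : (cut G F X).card % 2 = 0 := by
  rw [← handshake G F (fun e he => hG.ne e (hF.sub he)) X, Finset.sum_nat_mod]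
  rw [Finset.sum_congr rfl (g := fun _ => 0)]
  · simp
  · intro v hv
    rcases hF.deg v (hX hv) with h | h <;> simp [h]

theorem cut_mono {G : Gr V E} {A B : Finset E} (h : A ⊆ B) (X : Finset V) :
    cut G A X ⊆ cut G B X := Finset.filter_subset_filter _ h

/-- if at most one crossing edge is not in `N` then none -/
theorem all_in_N {G : Gr V E} (hG : Ok G) {N : Finset E} (hN : PM G N) {X : Finset V}
    (hX : X ⊆ G.vs) (f : E) (h : ∀ e ∈ G.es, Cr G X e → e ≠ f → e ∈ N) :
    ∀ e ∈ G.es, Cr G X e → e ∈ N := by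
  by_contra hcon
  push Not at hcon
  obtain ⟨e, he, hcr, heN⟩ := hcon
  have hef : e = f := by
    by_contra hne
    exact heN (h e he hcr hne)
  subst hef
  have h1 : cut G G.es X = insert e (cut G N X) := by
    ext x
    simp only [mem_cut, Finset.mem_insert]
    constructor
    · rintro ⟨h1, h2⟩
      by_cases hx : x = e
      · exact Or.inl hx
      · exact Or.inr ⟨h x h1 h2 hx, h2⟩
    · rintro (rfl | ⟨h1, h2⟩)
      · exact ⟨he, hcr⟩
      · exact ⟨hN.sub h1, h2⟩
  have h2 : e ∉ cut G N X := by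
    rw [mem_cut]; exact fun h => heN h.1
  have h3 := cut_parity hG hX
  have h4 := cutN_parity hG hN hX
  rw [h1, Finset.card_insert_of_notMem h2] at h3
  omega

/-- if at most one edge of `F` crosses then none -/
theorem none_in_F {G : Gr V E} (hG : Ok G) {F : Finset E} (hF : Ev G F) {X : Finset V}
    (hX : X ⊆ G.vs) (f : E) (h : ∀ e ∈ F, Cr G X e → e = f) :
    ∀ e ∈ F, ¬ Cr G X e := by
  intro e he hcr
  have hef := h e he hcr
  subst hef
  have h1 : cut G F X = {e} := by
    ext x
    simp only [mem_cut, Finset.mem_singleton]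
    constructor
    · rintro ⟨h1, h2⟩; exact h x h1 h2
    · rintro rfl; exact ⟨he, hcr⟩
  have h3 := cutF_even hG hF hX
  rw [h1] at h3
  simp at h3

theorem vs_even {G : Gr V E} (hG : Ok G) : Even G.vs.card := by
  have h := cut_parity hG (le_refl G.vs)
  have h1 : cut G G.es G.vs = ∅ := by
    ext x
    simp only [mem_cut, Cr, Finset.notMem_empty, iff_false, not_and, not_not]
    intro hx
    simp [hG.ha x hx, hG.hb x hx]
  rw [h1] at h
  rw [Nat.even_iff]
  simpa using h.symm

theorem Cr_compl {G : Gr V E} (hG : Ok G) {X : Finset V} {e : E} (he : e ∈ G.es) :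
    Cr G (G.vs \ X) e ↔ Cr G X e := by
  unfold Cr
  simp only [Finset.mem_sdiff, hG.ha e he, hG.hb e he, true_and]
  tauto

theorem cut_compl {G : Gr V E} (hG : Ok G) {A : Finset E} (hA : A ⊆ G.es) {X : Finset V} :
    cut G A (G.vs \ X) = cut G A X := by
  ext e
  simp only [mem_cut]
  constructor
  · rintro ⟨h1, h2⟩; exact ⟨h1, (Cr_compl hG (hA h1)).1 h2⟩
  · rintro ⟨h1, h2⟩; exact ⟨h1, (Cr_compl hG (hA h1)).2 h2⟩

theorem card_compl_even {G : Gr V E} (hG : Ok G) {X : Finset V} (hX : X ⊆ G.vs)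
    (h : Even (G.vs \ X).card) : Even X.card := by
  have h1 := Finset.card_sdiff_add_card_eq_card hX
  have h2 := vs_even hG
  rw [Nat.even_iff] at *
  omega

end Pool.Agent.H43.F5
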