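/-
helper43: representatives of the odd components.
-/
import Pool.Agent.H43.F5.Defs

set_option autoImplicit false
set_option linter.unusedSectionVars false

namespace Pool.Agent.H43.F5

variable {V E : Type} [Fintype V] [DecidableEq V] [Fintype E] [DecidableEq E]

theorem TN_of_comp (h t : E → V) (F : Finset E) (k : ℕ)
    (hk : {c : (SimpleGraph.fromRel (fun u v : V => ∃ e ∈ F, h e = u ∧ t e = v)).ConnectedComponent
      | Odd c.supp.ncard}.ncard ≤ k) :
    TN (⟨Finset.univ, Finset.univ, h, t⟩ : Gr V E) F k := by
  classical
  set H := SimpleGraph.fromRel (fun u v : V => ∃ e ∈ F, h e = u ∧ t e = v) with hH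
  haveI : Finite H.ConnectedComponent := Finite.of_surjective H.connectedComponentMk
    (fun c => c.ind (fun v => ⟨v, rfl⟩))
  haveI : Fintype H.ConnectedComponent := Fintype.ofFinite _
  let rep : H.ConnectedComponent → V := fun c => c.out
  have hrep : ∀ c, H.connectedComponentMk (rep c) = c := fun c => Quot.out_eq c
  let O : Finset H.ConnectedComponent := Finset.univ.filter (fun c => Odd c.supp.ncard)
  have hO : O.card ≤ k := by
    refine le_trans (le_of_eq ?_) hk
    rw [← Set.ncard_coe_finset]
    congr 1
    ext c
    simp [O]
  refine ⟨O.image rep, Finset.subset_univ _, Finset.card_image_le.trans hO, ?_⟩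
  intro X _ hcl hdis
  -- X is closed under reachability
  have hadj : ∀ u v, H.Adj u v → (u ∈ X → v ∈ X) := by
    intro u v huv hu
    rw [hH, SimpleGraph.fromRel_adj] at huv
    obtain ⟨_, ⟨e, he, h1, h2⟩ | ⟨e, he, h1, h2⟩⟩ := huv
    · have := hcl e he
      simp only [Cr, not_not] at this
      rw [h1, h2] at this
      exact this.1 hu
    · have := hcl e he
      simp only [Cr, not_not] at this
      rw [h1, h2] at this
      exact this.2 hu
  have hreach : ∀ u v, H.Reachable u v → u ∈ X → v ∈ X := by
    intro u v huv
    obtain ⟨p⟩ := huv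
    induction p with
    | nil => exact fun h => h
    | cons hh _ ih => exact fun hu => ih (hadj _ _ hh hu)
  have hsum : X.card = ∑ c : H.ConnectedComponent,
      (X.filter (fun v => H.connectedComponentMk v = c)).card :=
    Finset.card_eq_sum_card_fiberwise (fun v _ => Finset.mem_univ _)
  rw [hsum]
  apply Finset.even_sum
  intro c _
  by_cases hne : (X.filter (fun v => H.connectedComponentMk v = c)).Nonempty
  · obtain ⟨w, hw⟩ := hne
    rw [Finset.mem_filter] at hw
    have hfull : ((X.filter (fun v => H.connectedComponentMk v = c) : Finset V) : Set V)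
        = c.supp := by
      ext v
      simp only [Finset.coe_filter, Set.mem_setOf_eq, SimpleGraph.ConnectedComponent.mem_supp_iff]
      constructor
      · exact fun h => h.2
      · intro hv
        refine ⟨?_, hv⟩
        apply hreach w v _ hw.1
        rw [← SimpleGraph.ConnectedComponent.eq, hw.2, hv]
    rw [← Set.ncard_coe_finset, hfull]
    by_contra hodd
    rw [Nat.not_even_iff_odd] at hodd
    have hcO : c ∈ O := by simp [O, hodd]
    have hrX : rep c ∈ X := by
      apply hreach w (rep c) _ hw.1
      rw [← SimpleGraph.ConnectedComponent.eq, hw.2, hrep]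
    exact Finset.disjoint_left.1 hdis hrX (Finset.mem_image_of_mem rep hcO)
  · rw [Finset.not_nonempty_iff_eq_empty] at hne
    rw [hne]
    simp

end Pool.Agent.H43.F5
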