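/-
helper43: from good perfect matchings to flows.
-/
import Pool.Agent.H43.F5.Defs

set_option autoImplicit false
set_option linter.unusedSectionVars false

namespace Pool.Agent.H43.F5

variable {V E : Type} [Fintype V] [DecidableEq V] [Fintype E] [DecidableEq E]

/-- existence of joins avoiding `J` with prescribed parities -/
theorem join_exists (h t : E → V) (hne : ∀ e, h e ≠ t e) (J : Finset E) (b : V → ZMod 2)
    (hb : ∀ X : Finset V, (∀ e, ¬ (h e ∈ X ↔ t e ∈ X) → e ∈ J) → ∑ v ∈ X, b v = 0) :
    ∃ x : E → ZMod 2, (∀ e ∈ J, x e = 0) ∧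
      ∀ v, ∑ e ∈ Finset.univ.filter (fun e => h e = v ∨ t e = v), x e = b v := by
  classical
  -- the incidence map
  let col : E → (V → ZMod 2) := fun e v => if e ∈ J then 0 else if h e = v ∨ t e = v then 1 else 0
  by_cases hmem : b ∈ Submodule.span (ZMod 2) (Set.range col)
  · rw [Submodule.mem_span_range_iff_exists_fun] at hmem
    obtain ⟨c, hc⟩ := hmem
    refine ⟨fun e => if e ∈ J then 0 else c e, fun e he => by simp [he], ?_⟩
    intro v
    rw [← hc, Finset.sum_apply, Finset.sum_filter]
    apply Finset.sum_congr rfl
    intro e _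
    simp only [Pi.smul_apply, smul_eq_mul, col]
    by_cases h1 : e ∈ J <;> by_cases h2 : h e = v ∨ t e = v <;> simp [h1, h2]
  · exfalso
    obtain ⟨φ, hφb, hφ⟩ := Submodule.exists_le_ker_of_notMem hmem
    apply hφb
    have hφsum : ∀ w : V → ZMod 2, φ w = ∑ v, w v * φ (Pi.single v 1) := by
      intro w
      conv_lhs => rw [← Finset.univ_sum_single w]
      rw [map_sum]
      apply Finset.sum_congr rfl
      intro v _
      have : (Pi.single v (w v) : V → ZMod 2) = w v • Pi.single v 1 := by
        rw [← Pi.single_smul, smul_eq_mul, mul_one]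
      rw [this, map_smul, smul_eq_mul]
    let X : Finset V := Finset.univ.filter (fun v => φ (Pi.single v 1) = 1)
    have hz : ∀ a : ZMod 2, a ≠ 1 → a = 0 := by decide
    have hXv : ∀ v, φ (Pi.single v 1) = if v ∈ X then 1 else 0 := by
      intro v
      by_cases hv : φ (Pi.single v 1) = 1
      · simp [X, hv]
      · rw [if_neg (by simpa [X] using hv)]
        exact hz _ hv
    have hX := hb X (by
      intro e hcr
      by_contra heJ
      have h1 : φ (col e) = 0 := hφ (Submodule.subset_span ⟨e, rfl⟩)
      have h2 : col e = Pi.single (h e) 1 + Pi.single (t e) 1 := by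
        ext v
        simp only [col, heJ, if_false, Pi.add_apply, Pi.single_apply]
        have := hne e
        by_cases h3 : h e = v
        · have h4 : ¬ v = t e := fun h5 => this (h3.trans h5)
          simp [h3, h4]
        · have h3' : ¬ v = h e := fun h5 => h3 h5.symm
          by_cases h4 : t e = v
          · simp [h3', h4]
          · have h4' : ¬ v = t e := fun h5 => h4 h5.symm
            simp [h3, h4, h3', h4']
      rw [h2, map_add, hXv, hXv] at h1
      apply hcr
      by_cases h3 : h e ∈ X <;> by_cases h4 : t e ∈ X <;> simp [h3, h4] at h1 ⊢)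
    rw [hφsum]
    rw [← hX]
    rw [Finset.sum_congr rfl (fun v _ => by rw [hXv v])]
    simp only [mul_ite, mul_one, mul_zero]
    rw [Finset.sum_ite_mem, Finset.univ_inter]

/-- the five lines -/
def lineOf : Option (ZMod 2 × ZMod 2) → Finset (Fin 3 → ZMod 2)
  | none => {![0, 0, 1], ![1, 1, 1], ![1, 1, 0]}
  | some (x, y) => {![0, 1, x], ![1, 0, y], ![1, 1, x + y]}

/-- flows from good perfect matchings -/
theorem flow_of_good (h t : E → V) (F N : Finset E)
    (hG : Ok (⟨Finset.univ, Finset.univ, h, t⟩ : Gr V E))
    (hF : ∀ v, (star (⟨Finset.univ, Finset.univ, h, t⟩ : Gr V E) F v).card = 2)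
    (hN : PM (⟨Finset.univ, Finset.univ, h, t⟩ : Gr V E) N)
    (hg : Good (⟨Finset.univ, Finset.univ, h, t⟩ : Gr V E) F N) :
    ∃ f : E → (Fin 3 → ZMod 2),
        (∀ e, f e ≠ 0) ∧
        (∀ v, (∑ e ∈ Finset.univ.filter (fun e => h e = v), f e)
              + (∑ e ∈ Finset.univ.filter (fun e => t e = v), f e) = 0) ∧
        (Finset.univ.image
          (fun v => (Finset.univ.filter (fun e => h e = v ∨ t e = v)).image f)).card ≤ 5 := by
  classical
  set G : Gr V E := ⟨Finset.univ, Finset.univ, h, t⟩ with hGdef
  have hGvs : G.vs = Finset.univ := rfl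
  have hGes : G.es = Finset.univ := rfl
  have hne : ∀ e, h e ≠ t e := fun e => hG.ne e (Finset.mem_univ e)
  have hstar : ∀ v, star G Finset.univ v = Finset.univ.filter (fun e => h e = v ∨ t e = v) :=
    fun v => rfl
  have hdeg3 : ∀ v, (Finset.univ.filter (fun e => h e = v ∨ t e = v)).card = 3 := fun v =>
    hG.deg v (Finset.mem_univ v)
  have two : (2 : ZMod 2) = 0 := by decide
  -- sums over a star of indicator functions
  have hind : ∀ (A : Finset E) (v : V), ∑ e ∈ Finset.univ.filter (fun e => h e = v ∨ t e = v),
      (if e ∈ A then (1 : ZMod 2) else 0) = ((star G A v).card : ZMod 2) := by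
    intro A v
    rw [Finset.sum_ite_mem, Finset.sum_const, nsmul_eq_mul, mul_one]
    congr 2
    ext e
    simp only [Finset.mem_inter, Finset.mem_filter, Finset.mem_univ, true_and, mem_star]
    exact and_comm
  set J : Finset E := N \ F with hJ
  -- the join
  obtain ⟨x, hx0, hxs⟩ := join_exists h t hne J (fun v => ((star G J v).card : ZMod 2)) (by
    intro X hX
    have h1 : Even X.card := hg X (Finset.subset_univ X) (by
      intro e _ hc
      have := hX e hc
      rw [hJ, Finset.mem_sdiff] at this
      exact this)
    have h2 := handshake G J (fun e _ => hne e) X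
    have h3 : cut G J X = cut G G.es X := by
      ext e
      rw [mem_cut, mem_cut]
      constructor
      · rintro ⟨_, h5⟩; exact ⟨Finset.mem_univ e, h5⟩
      · rintro ⟨_, h5⟩; exact ⟨hX e h5, h5⟩
    have h4 := cut_parity hG (Finset.subset_univ X)
    rw [h3, h4, Nat.even_iff.1 h1] at h2
    rw [← Nat.cast_sum]
    exact (ZMod.natCast_eq_zero_iff_even).2 (Nat.even_iff.2 h2))
  -- K is the union of J and the support of x
  set y : E → ZMod 2 := fun e => if e ∈ J then 1 else x e with hy
  have hysum : ∀ v, ∑ e ∈ Finset.univ.filter (fun e => h e = v ∨ t e = v), y e = 0 := by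
    intro v
    have h1 : ∀ e, y e = (if e ∈ J then (1 : ZMod 2) else 0) + x e := by
      intro e
      simp only [hy]
      by_cases he : e ∈ J
      · simp [he, hx0 e he]
      · simp [he]
    rw [Finset.sum_congr rfl (fun e _ => h1 e), Finset.sum_add_distrib, hind, hxs]
    have : ∀ a : ZMod 2, a + a = 0 := by decide
    exact this _
  set m : E → ZMod 2 := fun e => if e ∈ F then 1 else 0 with hm
  set n : E → ZMod 2 := fun e => if e ∈ N then 0 else 1 with hn
  have hmsum : ∀ v, ∑ e ∈ Finset.univ.filter (fun e => h e = v ∨ t e = v), m e = 0 := by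
    intro v
    simp only [hm]
    rw [hind, hF v]
    decide
  have hnsum : ∀ v, ∑ e ∈ Finset.univ.filter (fun e => h e = v ∨ t e = v), n e = 0 := by
    intro v
    have h1 : ∀ e, n e = (if e ∈ N then (1 : ZMod 2) else 0) + 1 := by
      intro e
      simp only [hn]
      by_cases he : e ∈ N
      · rw [if_pos he, if_pos he]; decide
      · simp [he]
    rw [Finset.sum_congr rfl (fun e _ => h1 e), Finset.sum_add_distrib, hind,
      hN.deg v (Finset.mem_univ v), Finset.sum_const, hdeg3]
    decide
  set f : E → (Fin 3 → ZMod 2) := fun e => ![m e, n e, y e] with hf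
  have hfsum : ∀ v, ∑ e ∈ Finset.univ.filter (fun e => h e = v ∨ t e = v), f e = 0 := by
    intro v
    ext i
    rw [Finset.sum_apply]
    fin_cases i
    · exact hmsum v
    · exact hnsum v
    · exact hysum v
  refine ⟨f, ?_, ?_, ?_⟩
  · intro e he
    have h0 : m e = 0 := congrFun he 0
    have h1 : n e = 0 := congrFun he 1
    have h2 : y e = 0 := congrFun he 2
    have h3 : e ∉ F := by
      intro hh; simp [hm, hh] at h0
    have h4 : e ∈ N := by
      by_contra hh; simp [hn, hh] at h1
    have h5 : e ∈ J := Finset.mem_sdiff.2 ⟨h4, h3⟩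
    simp [hy, h5] at h2
  · intro v
    rw [← hfsum v, Finset.filter_or, Finset.sum_union]
    rw [Finset.disjoint_left]
    intro e h1 h2
    simp only [Finset.mem_filter, Finset.mem_univ, true_and] at h1 h2
    exact hne e (h1.trans h2.symm)
  · have hsub : Finset.univ.image
          (fun v => (Finset.univ.filter (fun e => h e = v ∨ t e = v)).image f) ⊆
          Finset.univ.image lineOf := by
      intro L hL
      rw [Finset.mem_image] at hL
      obtain ⟨v, _, rfl⟩ := hL
      rw [Finset.mem_image]
      -- the edge outside F and the edge of N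
      set S := Finset.univ.filter (fun e => h e = v ∨ t e = v) with hS
      have hSc : S.card = 3 := hdeg3 v
      have hSF : (S ∩ F).card = 2 := by
        rw [← hF v]
        congr 1
        ext e
        simp only [hS, Finset.mem_inter, Finset.mem_filter, Finset.mem_univ, true_and, mem_star]
        exact and_comm
      have hSN : (S ∩ N).card = 1 := by
        rw [← hN.deg v (Finset.mem_univ v)]
        congr 1
        ext e
        simp only [hS, Finset.mem_inter, Finset.mem_filter, Finset.mem_univ, true_and, mem_star]
        exact and_comm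
      have hSF' : (S \ F).card = 1 := by
        have := Finset.card_sdiff_add_card_inter S F
        omega
      rw [Finset.card_eq_one] at hSN hSF'
      obtain ⟨p, hp⟩ := hSF'
      obtain ⟨q, hq⟩ := hSN
      have hp1 : p ∈ S \ F := by rw [hp]; simp
      have hq1 : q ∈ S ∩ N := by rw [hq]; simp
      rw [Finset.mem_sdiff] at hp1
      rw [Finset.mem_inter] at hq1
      have mF : ∀ e ∈ S, e ≠ p → e ∈ F := by
        intro e he hne'
        by_contra hh
        have : e ∈ S \ F := Finset.mem_sdiff.2 ⟨he, hh⟩
        rw [hp, Finset.mem_singleton] at this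
        exact hne' this
      have mN : ∀ e ∈ S, e ≠ q → e ∉ N := by
        intro e he hne' hh
        have : e ∈ S ∩ N := Finset.mem_inter.2 ⟨he, hh⟩
        rw [hq, Finset.mem_singleton] at this
        exact hne' this
      by_cases hpq : p = q
      · subst hpq
        refine ⟨none, Finset.mem_univ _, ?_⟩
        -- the two other edges
        have h1 : (S.erase p).card = 2 := by rw [Finset.card_erase_of_mem hp1.1, hSc]
        rw [Finset.card_eq_two] at h1
        obtain ⟨c, d, hcd, hset⟩ := h1
        have hc : c ∈ S.erase p := by rw [hset]; simp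
        have hd : d ∈ S.erase p := by rw [hset]; simp
        rw [Finset.mem_erase] at hc hd
        have hSeq : S = {p, c, d} := by
          rw [← Finset.insert_erase hp1.1, hset]
        have hpJ : p ∈ J := Finset.mem_sdiff.2 ⟨hq1.2, hp1.2⟩
        have fp : f p = ![0, 0, 1] := by
          simp only [hf, hm, hn, hy]
          rw [if_neg hp1.2, if_pos hq1.2, if_pos hpJ]
        have fc : f c = ![1, 1, y c] := by
          simp only [hf, hm, hn]
          rw [if_pos (mF c hc.2 hc.1), if_neg (mN c hc.2 hc.1)]
        have fd : f d = ![1, 1, y d] := by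
          simp only [hf, hm, hn]
          rw [if_pos (mF d hd.2 hd.1), if_neg (mN d hd.2 hd.1)]
        have hs := hysum v
        rw [← hS, hSeq, Finset.sum_insert (by simp [hc.1.symm, hd.1.symm]),
          Finset.sum_pair hcd] at hs
        have hyp : y p = 1 := by simp [hy, hpJ]
        rw [hyp] at hs
        rw [hSeq, Finset.image_insert, Finset.image_insert, Finset.image_singleton, fp, fc, fd]
        have key : ∀ a b : ZMod 2, 1 + (a + b) = 0 →
            lineOf none = {![0, 0, 1], ![1, 1, a], ![1, 1, b]} := by decide
        exact key _ _ hs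
      · refine ⟨some (y p, y q), Finset.mem_univ _, ?_⟩
        have h1 : ((S.erase p).erase q).card = 1 := by
          rw [Finset.card_erase_of_mem, Finset.card_erase_of_mem hp1.1, hSc]
          exact Finset.mem_erase.2 ⟨Ne.symm hpq, hq1.1⟩
        rw [Finset.card_eq_one] at h1
        obtain ⟨c, hc0⟩ := h1
        have hc : c ∈ (S.erase p).erase q := by rw [hc0]; simp
        rw [Finset.mem_erase, Finset.mem_erase] at hc
        have hSeq : S = {p, q, c} := by
          rw [← Finset.insert_erase hp1.1,
            ← Finset.insert_erase (Finset.mem_erase.2 ⟨Ne.symm hpq, hq1.1⟩ : q ∈ S.erase p), hc0]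
        have fp : f p = ![0, 1, y p] := by
          simp only [hf, hm, hn]
          rw [if_neg hp1.2, if_neg (mN p hp1.1 hpq)]
        have fq : f q = ![1, 0, y q] := by
          simp only [hf, hm, hn]
          rw [if_pos (mF q hq1.1 (Ne.symm hpq)), if_pos hq1.2]
        have fc : f c = ![1, 1, y c] := by
          simp only [hf, hm, hn]
          rw [if_pos (mF c hc.2.2 hc.2.1), if_neg (mN c hc.2.2 hc.1)]
        have hs := hysum v
        rw [← hS, hSeq, Finset.sum_insert (by simp [hpq, hc.2.1.symm]),
          Finset.sum_pair (Ne.symm hc.1)] at hs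
        rw [hSeq, Finset.image_insert, Finset.image_insert, Finset.image_singleton, fp, fq, fc]
        have key : ∀ a b c : ZMod 2, a + (b + c) = 0 → c = a + b := by decide
        rw [key _ _ _ hs]
        rfl
    refine (Finset.card_le_card hsub).trans (Finset.card_image_le.trans ?_)
    rw [Finset.card_univ]
    simp [Fintype.card_option]

end Pool.Agent.H43.F5
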