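/-
helper43: the reduction at an edge of the even subgraph.
-/
import Pool.Agent.H43.F5.Defs

set_option autoImplicit false
set_option linter.unusedSectionVars false

namespace Pool.Agent.H43.F5

variable {V E : Type} [DecidableEq V] [DecidableEq E]

theorem split5 (A : Finset E) (P : E → Prop) [DecidablePred P] {k k1 k2 l1 l2 : E}
    (h : ({k, k1, k2, l1, l2} : Finset E).card = 5) :
    (A.filter P).card = ((A \ {k, k1, k2, l1, l2}).filter P).card +
      ((if k ∈ A ∧ P k then 1 else 0) + (if k1 ∈ A ∧ P k1 then 1 else 0) +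
      (if k2 ∈ A ∧ P k2 then 1 else 0) + (if l1 ∈ A ∧ P l1 then 1 else 0) +
      (if l2 ∈ A ∧ P l2 then 1 else 0)) := by
  have h1 := Finset.card_sdiff_add_card_inter (A.filter P) {k, k1, k2, l1, l2}
  have h2 : (A.filter P) \ {k, k1, k2, l1, l2} = (A \ {k, k1, k2, l1, l2}).filter P := by
    ext e; simp only [Finset.mem_sdiff, Finset.mem_filter]; tauto
  have h3 : (A.filter P) ∩ {k, k1, k2, l1, l2} =
      ({k, k1, k2, l1, l2} : Finset E).filter (fun e => e ∈ A ∧ P e) := by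
    ext e; simp only [Finset.mem_inter, Finset.mem_filter]; tauto
  rw [← h1, h2, h3]
  congr 1
  have hd : k ∉ ({k1, k2, l1, l2} : Finset E) ∧ k1 ∉ ({k2, l1, l2} : Finset E) ∧
      k2 ∉ ({l1, l2} : Finset E) ∧ l1 ∉ ({l2} : Finset E) := by
    have a1 := Finset.card_insert_le k {k1, k2, l1, l2}
    have a2 := Finset.card_insert_le k1 {k2, l1, l2}
    have a3 := Finset.card_insert_le k2 {l1, l2}
    have a4 := Finset.card_insert_le l1 {l2}
    have a5 := Finset.card_singleton l2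
    refine ⟨?_, ?_, ?_, ?_⟩
    · intro hm
      rw [Finset.insert_eq_of_mem hm] at h; omega
    · intro hm
      rw [Finset.insert_eq_of_mem hm] at a1 h
      omega
    · intro hm
      rw [Finset.insert_eq_of_mem hm] at a1 a2 h
      omega
    · intro hm
      rw [Finset.insert_eq_of_mem hm] at a1 a2 a3 h
      omega
  rw [Finset.card_filter, Finset.sum_insert hd.1, Finset.sum_insert hd.2.1,
    Finset.sum_insert hd.2.2.1, Finset.sum_insert hd.2.2.2, Finset.sum_singleton]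
  ring

/-- `e` joins `u` and `v` -/
def Jn (G : Gr V E) (e : E) (u v : V) : Prop :=
  (G.a e = u ∧ G.b e = v) ∨ (G.a e = v ∧ G.b e = u)

/-- the configuration for the reduction -/
structure SC (G : Gr V E) (F : Finset E) (x y x1 y1 x2 y2 : V) (k k1 k2 l1 l2 : E) : Prop where
  ok : Ok G
  ev : Ev G F
  hk : k ∈ F
  hk1 : k1 ∈ G.es
  hk1' : k1 ∉ F
  hk2 : k2 ∈ F
  hl1 : l1 ∈ G.es
  hl1' : l1 ∉ F
  hl2 : l2 ∈ F
  jk : Jn G k x y
  jk1 : Jn G k1 x x1
  jk2 : Jn G k2 x x2
  jl1 : Jn G l1 y y1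
  jl2 : Jn G l2 y y2
  card5 : ({k, k1, k2, l1, l2} : Finset E).card = 5
  x1x : x1 ≠ x
  x1y : x1 ≠ y
  x2x : x2 ≠ x
  x2y : x2 ≠ y
  y1x : y1 ≠ x
  y1y : y1 ≠ y
  y2x : y2 ≠ x
  y2y : y2 ≠ y
  xy : x ≠ y
  x1y1 : x1 ≠ y1
  x2y2 : x2 ≠ y2
  /-- no nontrivial cuts with three edges -/
  c4 : ∀ X ⊆ G.vs, (cut G G.es X).card = 3 → X.card ≤ 1 ∨ (G.vs \ X).card ≤ 1

/-- the reduced graph -/
def red (G : Gr V E) (x y x1 y1 x2 y2 : V) (k k1 k2 l1 l2 : E) : Gr V E where
  vs := G.vs \ {x, y}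
  es := G.es \ {k, l1, l2}
  a := fun e => if e = k1 then x1 else if e = k2 then x2 else G.a e
  b := fun e => if e = k1 then y1 else if e = k2 then y2 else G.b e

namespace SC

variable {G : Gr V E} {F : Finset E} {x y x1 y1 x2 y2 : V} {k k1 k2 l1 l2 : E}

theorem dist (h : ({k, k1, k2, l1, l2} : Finset E).card = 5) :
    k ≠ k1 ∧ k ≠ k2 ∧ k ≠ l1 ∧ k ≠ l2 ∧ k1 ≠ k2 ∧ k1 ≠ l1 ∧ k1 ≠ l2 ∧ k2 ≠ l1 ∧ k2 ≠ l2 ∧
      l1 ≠ l2 := by
  have key : ∀ (S : Finset E), S.card ≤ 4 → ({k, k1, k2, l1, l2} : Finset E) ⊆ S → False := by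
    intro S h1 h2
    have := Finset.card_le_card h2
    omega
  have c4 : ∀ p q r s : E, ({p, q, r, s} : Finset E).card ≤ 4 := fun p q r s =>
    Finset.card_le_four
  refine ⟨?_, ?_, ?_, ?_, ?_, ?_, ?_, ?_, ?_, ?_⟩ <;> rintro rfl
  · exact key {k, k2, l1, l2} (c4 _ _ _ _) (by intro e; simp)
  · exact key {k, k1, l1, l2} (c4 _ _ _ _) (by intro e; simp; tauto)
  · exact key {k, k1, k2, l2} (c4 _ _ _ _) (by intro e; simp; tauto)
  · exact key {k, k1, k2, l1} (c4 _ _ _ _) (by intro e; simp; tauto)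
  · exact key {k, k1, l1, l2} (c4 _ _ _ _) (by intro e; simp)
  · exact key {k, k1, k2, l2} (c4 _ _ _ _) (by intro e; simp; tauto)
  · exact key {k, k1, k2, l1} (c4 _ _ _ _) (by intro e; simp; tauto)
  · exact key {k, k1, k2, l2} (c4 _ _ _ _) (by intro e; simp)
  · exact key {k, k1, k2, l1} (c4 _ _ _ _) (by intro e; simp; tauto)
  · exact key {k, k1, k2, l1} (c4 _ _ _ _) (by intro e; simp)

theorem kes (h : SC G F x y x1 y1 x2 y2 k k1 k2 l1 l2) : k ∈ G.es := h.ev.sub h.hk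
theorem k2es (h : SC G F x y x1 y1 x2 y2 k k1 k2 l1 l2) : k2 ∈ G.es := h.ev.sub h.hk2
theorem l2es (h : SC G F x y x1 y1 x2 y2 k k1 k2 l1 l2) : l2 ∈ G.es := h.ev.sub h.hl2

theorem Jn_vs {G : Gr V E} (hG : Ok G) {e : E} {u v : V} (he : e ∈ G.es) (h : Jn G e u v) :
    u ∈ G.vs ∧ v ∈ G.vs := by
  rcases h with ⟨rfl, rfl⟩ | ⟨rfl, rfl⟩
  · exact ⟨hG.ha e he, hG.hb e he⟩
  · exact ⟨hG.hb e he, hG.ha e he⟩

theorem Jn_inc {G : Gr V E} {e : E} {u v w : V} (h : Jn G e u v) :
    (G.a e = w ∨ G.b e = w) ↔ (u = w ∨ v = w) := by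
  rcases h with ⟨rfl, rfl⟩ | ⟨rfl, rfl⟩
  · rfl
  · exact or_comm

theorem Jn_cr {G : Gr V E} {e : E} {u v : V} (h : Jn G e u v) (Z : Finset V) :
    Cr G Z e ↔ ¬ (u ∈ Z ↔ v ∈ Z) := by
  unfold Cr
  rcases h with ⟨rfl, rfl⟩ | ⟨rfl, rfl⟩
  · rfl
  · tauto

/-- the star at x -/
theorem starx (h : SC G F x y x1 y1 x2 y2 k k1 k2 l1 l2) : star G G.es x = {k, k1, k2} := by
  have hd := dist h.card5
  symm
  apply Finset.eq_of_subset_of_card_le
  · intro e he
    simp only [Finset.mem_insert, Finset.mem_singleton] at he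
    rcases he with rfl | rfl | rfl
    · exact mem_star.2 ⟨h.kes, (Jn_inc h.jk).2 (Or.inl rfl)⟩
    · exact mem_star.2 ⟨h.hk1, (Jn_inc h.jk1).2 (Or.inl rfl)⟩
    · exact mem_star.2 ⟨h.k2es, (Jn_inc h.jk2).2 (Or.inl rfl)⟩
  · rw [h.ok.deg x (Jn_vs h.ok h.kes h.jk).1, Finset.card_insert_of_notMem,
      Finset.card_insert_of_notMem, Finset.card_singleton]
    · simpa using hd.2.2.2.2.1
    · simp [hd.1, hd.2.1]

theorem stary (h : SC G F x y x1 y1 x2 y2 k k1 k2 l1 l2) : star G G.es y = {k, l1, l2} := by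
  have hd := dist h.card5
  symm
  apply Finset.eq_of_subset_of_card_le
  · intro e he
    simp only [Finset.mem_insert, Finset.mem_singleton] at he
    rcases he with rfl | rfl | rfl
    · exact mem_star.2 ⟨h.kes, (Jn_inc h.jk).2 (Or.inr rfl)⟩
    · exact mem_star.2 ⟨h.hl1, (Jn_inc h.jl1).2 (Or.inl rfl)⟩
    · exact mem_star.2 ⟨h.l2es, (Jn_inc h.jl2).2 (Or.inl rfl)⟩
  · rw [h.ok.deg y (Jn_vs h.ok h.kes h.jk).2, Finset.card_insert_of_notMem,
      Finset.card_insert_of_notMem, Finset.card_singleton]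
    · simpa using hd.2.2.2.2.2.2.2.2.2
    · simp [hd.2.2.1, hd.2.2.2.1]

/-- other edges avoid x and y -/
theorem other (h : SC G F x y x1 y1 x2 y2 k k1 k2 l1 l2) {e : E}
    (he : e ∈ G.es \ {k, k1, k2, l1, l2}) :
    G.a e ≠ x ∧ G.a e ≠ y ∧ G.b e ≠ x ∧ G.b e ≠ y := by
  simp only [Finset.mem_sdiff, Finset.mem_insert, Finset.mem_singleton, not_or] at he
  obtain ⟨h1, h2, h3, h4, h5, h6⟩ := he
  have hx : e ∉ star G G.es x := by
    rw [h.starx]; simp [h2, h3, h4]
  have hy : e ∉ star G G.es y := by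
    rw [h.stary]; simp [h2, h5, h6]
  rw [mem_star] at hx hy
  push Not at hx hy
  exact ⟨(hx h1).1, (hy h1).1, (hx h1).2, (hy h1).2⟩

theorem red_es (h : SC G F x y x1 y1 x2 y2 k k1 k2 l1 l2) {A : Finset E} :
    (A \ {k, l1, l2}) \ {k, k1, k2, l1, l2} = A \ {k, k1, k2, l1, l2} := by
  ext e; simp only [Finset.mem_sdiff, Finset.mem_insert, Finset.mem_singleton]; tauto

theorem red_inc_other {e : E} (h1 : e ≠ k1) (h2 : e ≠ k2) (v : V) :
    ((red G x y x1 y1 x2 y2 k k1 k2 l1 l2).a e = v ∨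
      (red G x y x1 y1 x2 y2 k k1 k2 l1 l2).b e = v) ↔ (G.a e = v ∨ G.b e = v) := by
  simp [red, h1, h2]

theorem red_cr_other {e : E} (h1 : e ≠ k1) (h2 : e ≠ k2) (Z : Finset V) :
    Cr (red G x y x1 y1 x2 y2 k k1 k2 l1 l2) Z e ↔ Cr G Z e := by
  simp [Cr, red, h1, h2]

theorem red_cr_k1 (Z : Finset V) :
    Cr (red G x y x1 y1 x2 y2 k k1 k2 l1 l2) Z k1 ↔ ¬ (x1 ∈ Z ↔ y1 ∈ Z) := by
  simp [Cr, red]

theorem red_cr_k2 (hne : k1 ≠ k2) (Z : Finset V) :
    Cr (red G x y x1 y1 x2 y2 k k1 k2 l1 l2) Z k2 ↔ ¬ (x2 ∈ Z ↔ y2 ∈ Z) := by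
  simp [Cr, red, hne.symm]

/-- degrees are preserved -/
theorem star_card (h : SC G F x y x1 y1 x2 y2 k k1 k2 l1 l2) {A : Finset E}
    (h1 : k1 ∈ A ↔ l1 ∈ A) (h2 : k2 ∈ A ↔ l2 ∈ A) {v : V} (hvx : v ≠ x) (hvy : v ≠ y) :
    (star (red G x y x1 y1 x2 y2 k k1 k2 l1 l2) (A \ {k, l1, l2}) v).card =
      (star G A v).card := by
  have hd := dist h.card5
  obtain ⟨d1, d2, d3, d4, d5, d6, d7, d8, d9, d10⟩ := hd
  unfold star
  rw [split5 A _ h.card5, split5 (A \ {k, l1, l2}) _ h.card5, h.red_es]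
  have e1 : (A \ {k, k1, k2, l1, l2}).filter (fun e =>
      (red G x y x1 y1 x2 y2 k k1 k2 l1 l2).a e = v ∨
      (red G x y x1 y1 x2 y2 k k1 k2 l1 l2).b e = v) =
      (A \ {k, k1, k2, l1, l2}).filter (fun e => G.a e = v ∨ G.b e = v) := by
    apply Finset.filter_congr
    intro e he
    simp only [Finset.mem_sdiff, Finset.mem_insert, Finset.mem_singleton, not_or] at he
    exact red_inc_other he.2.2.1 he.2.2.2.1 v
  rw [e1]
  congr 1
  have n1 : ¬ (x = v ∨ y = v) := by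
    rintro (h3 | h3)
    · exact hvx h3.symm
    · exact hvy h3.symm
  have n2 : ¬ x = v := fun h3 => hvx h3.symm
  have n3 : ¬ y = v := fun h3 => hvy h3.symm
  have q1 : ((red G x y x1 y1 x2 y2 k k1 k2 l1 l2).a k1 = v ∨
      (red G x y x1 y1 x2 y2 k k1 k2 l1 l2).b k1 = v) ↔ (x1 = v ∨ y1 = v) := by
    simp [red]
  have q2 : ((red G x y x1 y1 x2 y2 k k1 k2 l1 l2).a k2 = v ∨
      (red G x y x1 y1 x2 y2 k k1 k2 l1 l2).b k2 = v) ↔ (x2 = v ∨ y2 = v) := by
    simp [red, d5.symm]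
  simp only [q1, q2, Jn_inc h.jk, Jn_inc h.jk1, Jn_inc h.jk2, Jn_inc h.jl1, Jn_inc h.jl2]
  simp only [Finset.mem_sdiff, Finset.mem_insert, Finset.mem_singleton, n2, n3, true_or, or_true,
    not_true, and_false, false_and, if_false, false_or, zero_add, add_zero, d1.symm, d6, d7,
    d2.symm, d8, d9, not_false_iff, and_true, or_self]
  simp only [← h1, ← h2]
  have hx1 := h.x1y1
  have hx2 := h.x2y2
  by_cases c1 : k1 ∈ A <;> by_cases c2 : k2 ∈ A <;> by_cases c3 : x1 = v <;>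
    by_cases c4 : y1 = v <;> by_cases c5 : x2 = v <;> by_cases c6 : y2 = v <;>
    first
    | exact absurd (c3.trans c4.symm) hx1
    | exact absurd (c5.trans c6.symm) hx2
    | simp [c1, c2, c3, c4, c5, c6]

/-- sizes of cuts of sets avoiding x and y -/
theorem cut_card_out (h : SC G F x y x1 y1 x2 y2 k k1 k2 l1 l2) {Z : Finset V}
    (hx : x ∉ Z) (hy : y ∉ Z) :
    (cut G G.es Z).card = ((G.es \ {k, k1, k2, l1, l2}).filter (Cr G Z)).card +
      ((if x1 ∈ Z then 1 else 0) + (if x2 ∈ Z then 1 else 0) + (if y1 ∈ Z then 1 else 0) +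
      (if y2 ∈ Z then 1 else 0)) := by
  unfold cut
  rw [split5 G.es _ h.card5]
  congr 1
  simp only [Jn_cr h.jk, Jn_cr h.jk1, Jn_cr h.jk2, Jn_cr h.jl1, Jn_cr h.jl2, hx, hy, h.kes,
    h.hk1, h.k2es, h.hl1, h.l2es, true_and]
  simp

theorem cut_card_in (h : SC G F x y x1 y1 x2 y2 k k1 k2 l1 l2) {Z : Finset V} :
    (cut G G.es (insert x (insert y Z))).card =
      ((G.es \ {k, k1, k2, l1, l2}).filter (Cr G Z)).card +
      ((if x1 ∈ Z then 0 else 1) + (if x2 ∈ Z then 0 else 1) + (if y1 ∈ Z then 0 else 1) +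
      (if y2 ∈ Z then 0 else 1)) := by
  unfold cut
  rw [split5 G.es _ h.card5]
  have e1 : (G.es \ {k, k1, k2, l1, l2}).filter (Cr G (insert x (insert y Z))) =
      (G.es \ {k, k1, k2, l1, l2}).filter (Cr G Z) := by
    apply Finset.filter_congr
    intro e he
    obtain ⟨o1, o2, o3, o4⟩ := h.other he
    unfold Cr
    simp only [Finset.mem_insert, o1, o2, o3, o4, false_or]
  rw [e1]
  congr 1
  have hx1x := h.x1x
  have hx1y := h.x1y
  have hx2x := h.x2x
  have hx2y := h.x2y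
  have hy1x := h.y1x
  have hy1y := h.y1y
  have hy2x := h.y2x
  have hy2y := h.y2y
  simp only [Jn_cr h.jk, Jn_cr h.jk1, Jn_cr h.jk2, Jn_cr h.jl1, Jn_cr h.jl2, h.kes,
    h.hk1, h.k2es, h.hl1, h.l2es, true_and, Finset.mem_insert, true_or, or_true, hx1x, hx1y,
    hx2x, hx2y, hy1x, hy1y, hy2x, hy2y, false_or]
  by_cases c1 : x1 ∈ Z <;> by_cases c2 : x2 ∈ Z <;> by_cases c3 : y1 ∈ Z <;>
    by_cases c4 : y2 ∈ Z <;> simp [c1, c2, c3, c4]

theorem cut_card_red (h : SC G F x y x1 y1 x2 y2 k k1 k2 l1 l2) {Z : Finset V} :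
    (cut (red G x y x1 y1 x2 y2 k k1 k2 l1 l2) (G.es \ {k, l1, l2}) Z).card =
      ((G.es \ {k, k1, k2, l1, l2}).filter (Cr G Z)).card +
      ((if (x1 ∈ Z ↔ y1 ∈ Z) then 0 else 1) + (if (x2 ∈ Z ↔ y2 ∈ Z) then 0 else 1)) := by
  obtain ⟨d1, d2, d3, d4, d5, d6, d7, d8, d9, d10⟩ := dist h.card5
  unfold cut
  rw [split5 (G.es \ {k, l1, l2}) _ h.card5, h.red_es]
  have e1 : (G.es \ {k, k1, k2, l1, l2}).filter
      (Cr (red G x y x1 y1 x2 y2 k k1 k2 l1 l2) Z) =
      (G.es \ {k, k1, k2, l1, l2}).filter (Cr G Z) := by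
    apply Finset.filter_congr
    intro e he
    simp only [Finset.mem_sdiff, Finset.mem_insert, Finset.mem_singleton, not_or] at he
    exact red_cr_other he.2.2.1 he.2.2.2.1 Z
  rw [e1]
  congr 1
  have m1 : k ∉ G.es \ {k, l1, l2} := by simp
  have m2 : l1 ∉ G.es \ {k, l1, l2} := by simp
  have m3 : l2 ∉ G.es \ {k, l1, l2} := by simp
  have m4 : k1 ∈ G.es \ {k, l1, l2} := by simp [h.hk1, d1.symm, d6, d7]
  have m5 : k2 ∈ G.es \ {k, l1, l2} := by simp [h.k2es, d2.symm, d8, d9]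
  simp only [red_cr_k1, red_cr_k2 d5, m1, m2, m3, m4, m5, false_and, if_false, true_and, zero_add,
    add_zero, ite_not]

theorem ne_edges (h : SC G F x y x1 y1 x2 y2 k k1 k2 l1 l2) :
    x ∈ G.vs ∧ y ∈ G.vs ∧ x1 ∈ G.vs ∧ y1 ∈ G.vs ∧ x2 ∈ G.vs ∧ y2 ∈ G.vs :=
  ⟨(Jn_vs h.ok h.kes h.jk).1, (Jn_vs h.ok h.kes h.jk).2, (Jn_vs h.ok h.hk1 h.jk1).2,
    (Jn_vs h.ok h.hl1 h.jl1).2, (Jn_vs h.ok h.k2es h.jk2).2, (Jn_vs h.ok h.l2es h.jl2).2⟩

theorem red_br (h : SC G F x y x1 y1 x2 y2 k k1 k2 l1 l2) {Z : Finset V}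
    (hZ : Z ⊆ G.vs \ {x, y}) :
    (cut (red G x y x1 y1 x2 y2 k k1 k2 l1 l2) (G.es \ {k, l1, l2}) Z).card ≠ 1 := by
  obtain ⟨vx, vy, vx1, vy1, vx2, vy2⟩ := h.ne_edges
  have hxZ : x ∉ Z := fun hh => by simpa using hZ hh
  have hyZ : y ∉ Z := fun hh => by simpa using hZ hh
  have hZv : Z ⊆ G.vs := hZ.trans Finset.sdiff_subset
  have hins : insert x (insert y Z) ⊆ G.vs :=
    Finset.insert_subset vx (Finset.insert_subset vy hZv)
  have b1 := h.ok.br Z hZv
  have b2 := h.ok.br _ hins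
  have b3 := h.c4 Z hZv
  rw [h.cut_card_out hxZ hyZ] at b1 b3
  rw [h.cut_card_in] at b2
  rw [h.cut_card_red]
  have hcomp : ¬ (G.vs \ Z).card ≤ 1 := by
    intro hle
    have h1 : ({x, y} : Finset V) ⊆ G.vs \ Z := by
      intro v hv
      simp only [Finset.mem_insert, Finset.mem_singleton] at hv
      rcases hv with rfl | rfl
      · exact Finset.mem_sdiff.2 ⟨vx, hxZ⟩
      · exact Finset.mem_sdiff.2 ⟨vy, hyZ⟩
    have h2 := Finset.card_le_card h1
    rw [Finset.card_pair h.xy] at h2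
    omega
  have hp1 : x1 ∈ Z → y1 ∈ Z → ¬ Z.card ≤ 1 := by
    intro m1 m2 hle
    have h1 : ({x1, y1} : Finset V) ⊆ Z := by
      intro v hv
      simp only [Finset.mem_insert, Finset.mem_singleton] at hv
      rcases hv with rfl | rfl
      · exact m1
      · exact m2
    have h2 := Finset.card_le_card h1
    rw [Finset.card_pair h.x1y1] at h2
    omega
  have hp2 : x2 ∈ Z → y2 ∈ Z → ¬ Z.card ≤ 1 := by
    intro m1 m2 hle
    have h1 : ({x2, y2} : Finset V) ⊆ Z := by
      intro v hv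
      simp only [Finset.mem_insert, Finset.mem_singleton] at hv
      rcases hv with rfl | rfl
      · exact m1
      · exact m2
    have h2 := Finset.card_le_card h1
    rw [Finset.card_pair h.x2y2] at h2
    omega
  generalize ((G.es \ {k, k1, k2, l1, l2}).filter (Cr G Z)).card = B at *
  by_cases c1 : x1 ∈ Z <;> by_cases c2 : x2 ∈ Z <;> by_cases c3 : y1 ∈ Z <;>
    by_cases c4 : y2 ∈ Z <;>
    simp only [c1, c2, c3, c4, if_true, if_false, iff_true, iff_false, not_true, not_false_iff,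
      forall_true_left, hcomp, or_false, IsEmpty.forall_iff] at b1 b2 b3 hp1 hp2 ⊢ <;>
    first
    | omega
    | (intro hB; have := b3 (by omega); contradiction)

theorem red_ok (h : SC G F x y x1 y1 x2 y2 k k1 k2 l1 l2) :
    Ok (red G x y x1 y1 x2 y2 k k1 k2 l1 l2) := by
  obtain ⟨vx, vy, vx1, vy1, vx2, vy2⟩ := h.ne_edges
  obtain ⟨d1, d2, d3, d4, d5, d6, d7, d8, d9, d10⟩ := dist h.card5
  have hmem : ∀ e ∈ G.es \ {k, l1, l2}, e ≠ k1 → e ≠ k2 → e ∈ G.es \ {k, k1, k2, l1, l2} := by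
    intro e he h1 h2
    simp only [Finset.mem_sdiff, Finset.mem_insert, Finset.mem_singleton, not_or] at he ⊢
    exact ⟨he.1, he.2.1, h1, h2, he.2.2.1, he.2.2.2⟩
  refine ⟨?_, ?_, ?_, ?_, ?_⟩
  · intro e he
    change (if e = k1 then x1 else if e = k2 then x2 else G.a e) ∈ G.vs \ {x, y}
    simp only [Finset.mem_sdiff, Finset.mem_insert, Finset.mem_singleton, not_or]
    by_cases e1 : e = k1
    · rw [if_pos e1]; exact ⟨vx1, h.x1x, h.x1y⟩
    · rw [if_neg e1]
      by_cases e2 : e = k2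
      · rw [if_pos e2]; exact ⟨vx2, h.x2x, h.x2y⟩
      · rw [if_neg e2]
        have o := h.other (hmem e he e1 e2)
        exact ⟨h.ok.ha e (Finset.mem_sdiff.1 he).1, o.1, o.2.1⟩
  · intro e he
    change (if e = k1 then y1 else if e = k2 then y2 else G.b e) ∈ G.vs \ {x, y}
    simp only [Finset.mem_sdiff, Finset.mem_insert, Finset.mem_singleton, not_or]
    by_cases e1 : e = k1
    · rw [if_pos e1]; exact ⟨vy1, h.y1x, h.y1y⟩
    · rw [if_neg e1]
      by_cases e2 : e = k2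
      · rw [if_pos e2]; exact ⟨vy2, h.y2x, h.y2y⟩
      · rw [if_neg e2]
        have o := h.other (hmem e he e1 e2)
        exact ⟨h.ok.hb e (Finset.mem_sdiff.1 he).1, o.2.2.1, o.2.2.2⟩
  · intro e he
    change (if e = k1 then x1 else if e = k2 then x2 else G.a e) ≠
      (if e = k1 then y1 else if e = k2 then y2 else G.b e)
    by_cases e1 : e = k1
    · rw [if_pos e1, if_pos e1]; exact h.x1y1
    · rw [if_neg e1, if_neg e1]
      by_cases e2 : e = k2
      · rw [if_pos e2, if_pos e2]; exact h.x2y2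
      · rw [if_neg e2, if_neg e2]
        exact h.ok.ne e (Finset.mem_sdiff.1 he).1
  · intro v hv
    change v ∈ G.vs \ {x, y} at hv
    simp only [Finset.mem_sdiff, Finset.mem_insert, Finset.mem_singleton, not_or] at hv
    change (star (red G x y x1 y1 x2 y2 k k1 k2 l1 l2) (G.es \ {k, l1, l2}) v).card = 3
    rw [h.star_card (by simp [h.hk1, h.hl1]) (by simp [h.k2es, h.l2es]) hv.2.1 hv.2.2]
    exact h.ok.deg v hv.1
  · intro Z hZ
    exact h.red_br hZ

theorem red_ev (h : SC G F x y x1 y1 x2 y2 k k1 k2 l1 l2) :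
    Ev (red G x y x1 y1 x2 y2 k k1 k2 l1 l2) (F \ {k, l1, l2}) where
  sub := Finset.sdiff_subset_sdiff h.ev.sub (le_refl _)
  deg := by
    intro v hv
    change v ∈ G.vs \ {x, y} at hv
    simp only [Finset.mem_sdiff, Finset.mem_insert, Finset.mem_singleton, not_or] at hv
    rw [h.star_card (by simp [h.hk1', h.hl1']) (by simp [h.hk2, h.hl2]) hv.2.1 hv.2.2]
    exact h.ev.deg v hv.1

theorem red_TN (h : SC G F x y x1 y1 x2 y2 k k1 k2 l1 l2) {n : ℕ} (hT : TN G F n) :
    TN (red G x y x1 y1 x2 y2 k k1 k2 l1 l2) (F \ {k, l1, l2}) n := by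
  obtain ⟨R, hR, hk, hcl⟩ := hT
  obtain ⟨vx, vy, vx1, vy1, vx2, vy2⟩ := h.ne_edges
  obtain ⟨d1, d2, d3, d4, d5, d6, d7, d8, d9, d10⟩ := dist h.card5
  have hk2F : k2 ∈ F \ {k, l1, l2} := by simp [h.hk2, d2.symm, d8, d9]
  have hoth : ∀ e ∈ F, e ≠ k → e ≠ k2 → e ≠ l2 → e ∈ G.es \ {k, k1, k2, l1, l2} ∧
      e ∈ F \ {k, l1, l2} ∧ e ≠ k1 := by
    intro e he e1 e2 e3
    have e4 : e ≠ k1 := fun hh => h.hk1' (hh ▸ he)
    have e5 : e ≠ l1 := fun hh => h.hl1' (hh ▸ he)
    refine ⟨?_, ?_, e4⟩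
    · simp [h.ev.sub he, e1, e2, e3, e4, e5]
    · simp [he, e1, e3, e5]
  -- choose the representatives
  set R' : Finset V := (R \ {x, y}) ∪ (if x ∈ R ∨ y ∈ R then {x2} else ∅) with hR'
  have hR'sub : R' ⊆ G.vs \ {x, y} := by
    intro v hv
    rw [hR', Finset.mem_union] at hv
    rcases hv with hv | hv
    · exact Finset.sdiff_subset_sdiff hR (le_refl _) hv
    · by_cases hc : x ∈ R ∨ y ∈ R
      · rw [if_pos hc, Finset.mem_singleton] at hv
        subst hv
        simp [vx2, h.x2x, h.x2y]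
      · rw [if_neg hc] at hv
        simp at hv
  have hR'card : R'.card ≤ R.card := by
    by_cases hc : x ∈ R ∨ y ∈ R
    · have h1 : R'.card ≤ (R \ {x, y}).card + 1 := by
        rw [hR', if_pos hc]
        exact (Finset.card_union_le _ _).trans (by simp)
      have h2 : (R \ {x, y}).card < R.card := by
        apply Finset.card_lt_card
        rw [Finset.ssubset_iff_subset_ne]
        refine ⟨Finset.sdiff_subset, fun heq => ?_⟩
        rcases hc with hc | hc
        · rw [← heq] at hc; simp at hc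
        · rw [← heq] at hc; simp at hc
      omega
    · rw [hR', if_neg hc, Finset.union_empty]
      exact Finset.card_le_card Finset.sdiff_subset
  refine ⟨R', hR'sub, hR'card.trans hk, ?_⟩
  intro Z hZ hc hdis
  have hxZ : x ∉ Z := fun hh => by simpa [red] using hZ hh
  have hyZ : y ∉ Z := fun hh => by simpa [red] using hZ hh
  have hZv : Z ⊆ G.vs := Finset.Subset.trans hZ Finset.sdiff_subset
  have h22 : x2 ∈ Z ↔ y2 ∈ Z := by
    have := hc k2 hk2F
    rw [red_cr_k2 d5] at this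
    tauto
  have hcoth : ∀ e ∈ F, e ≠ k → e ≠ k2 → e ≠ l2 → ¬ Cr G Z e := by
    intro e he e1 e2 e3
    obtain ⟨_, o2, o3⟩ := hoth e he e1 e2 e3
    have := hc e o2
    rwa [red_cr_other o3 e2] at this
  by_cases hx2 : x2 ∈ Z
  · have hy2 := h22.1 hx2
    have hnR : ¬ (x ∈ R ∨ y ∈ R) := by
      intro hh
      apply Finset.disjoint_left.1 hdis hx2
      rw [hR', if_pos hh]
      simp
    have h1 := hcl (insert x (insert y Z)) (Finset.insert_subset vx (Finset.insert_subset vy hZv))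
      (by
        intro e he
        by_cases e1 : e = k
        · subst e1
          rw [Jn_cr h.jk]; simp
        by_cases e2 : e = k2
        · subst e2
          rw [Jn_cr h.jk2]; simp [hx2]
        by_cases e3 : e = l2
        · subst e3
          rw [Jn_cr h.jl2]; simp [hy2]
        have o := hoth e he e1 e2 e3
        have o2 := h.other o.1
        have o3 := hcoth e he e1 e2 e3
        unfold Cr at o3 ⊢
        simpa only [Finset.mem_insert, o2.1, o2.2.1, o2.2.2.1, o2.2.2.2, false_or] using o3)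
      (by
        rw [Finset.disjoint_left]
        intro v hv hvR
        simp only [Finset.mem_insert] at hv
        rcases hv with rfl | rfl | hv
        · exact hnR (Or.inl hvR)
        · exact hnR (Or.inr hvR)
        · apply Finset.disjoint_left.1 hdis hv
          rw [hR', Finset.mem_union]
          left
          have := hZ hv
          simp only [red, Finset.mem_sdiff] at this
          exact Finset.mem_sdiff.2 ⟨hvR, this.2⟩)
    rw [Finset.card_insert_of_notMem (by simp [h.xy, hxZ]), Finset.card_insert_of_notMem hyZ] at h1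
    rw [Nat.even_iff] at *
    omega
  · have hy2 : y2 ∉ Z := fun hh => hx2 (h22.2 hh)
    apply hcl Z hZv
    · intro e he
      by_cases e1 : e = k
      · subst e1
        rw [Jn_cr h.jk]; simp [hxZ, hyZ]
      by_cases e2 : e = k2
      · subst e2
        rw [Jn_cr h.jk2]; simp [hx2, hxZ]
      by_cases e3 : e = l2
      · subst e3
        rw [Jn_cr h.jl2]; simp [hy2, hyZ]
      exact hcoth e he e1 e2 e3
    · rw [Finset.disjoint_left]
      intro v hv hvR
      apply Finset.disjoint_left.1 hdis hv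
      rw [hR', Finset.mem_union]
      left
      have := hZ hv
      simp only [red, Finset.mem_sdiff] at this
      exact Finset.mem_sdiff.2 ⟨hvR, this.2⟩

/-- lifting -/
theorem lift (h : SC G F x y x1 y1 x2 y2 k k1 k2 l1 l2) {M N : Finset E}
    (hM : PM (red G x y x1 y1 x2 y2 k k1 k2 l1 l2) M)
    (hg : Good (red G x y x1 y1 x2 y2 k k1 k2 l1 l2) (F \ {k, l1, l2}) M)
    (hNM : N \ {k, l1, l2} = M) (hNes : N ⊆ G.es)
    (n1 : k1 ∈ N ↔ l1 ∈ N) (n2 : k2 ∈ N ↔ l2 ∈ N)
    (nx : ({k, k1, k2} ∩ N : Finset E).card = 1) (ny : ({k, l1, l2} ∩ N : Finset E).card = 1) :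
    PM G N ∧ Good G F N := by
  obtain ⟨vx, vy, vx1, vy1, vx2, vy2⟩ := h.ne_edges
  obtain ⟨d1, d2, d3, d4, d5, d6, d7, d8, d9, d10⟩ := dist h.card5
  constructor
  · refine ⟨hNes, ?_⟩
    intro v hv
    by_cases hvx : v = x
    · subst hvx
      have : star G N v = {k, k1, k2} ∩ N := by
        rw [← h.starx]
        ext e
        simp only [mem_star, Finset.mem_inter]
        constructor
        · rintro ⟨a1, a2⟩; exact ⟨⟨hNes a1, a2⟩, a1⟩
        · rintro ⟨⟨_, a2⟩, a3⟩; exact ⟨a3, a2⟩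
      rw [this]; exact nx
    · by_cases hvy : v = y
      · subst hvy
        have : star G N v = {k, l1, l2} ∩ N := by
          rw [← h.stary]
          ext e
          simp only [mem_star, Finset.mem_inter]
          constructor
          · rintro ⟨a1, a2⟩; exact ⟨⟨hNes a1, a2⟩, a1⟩
          · rintro ⟨⟨_, a2⟩, a3⟩; exact ⟨a3, a2⟩
        rw [this]; exact ny
      · rw [← h.star_card n1 n2 hvx hvy, hNM]
        apply hM.deg
        change v ∈ G.vs \ {x, y}
        simp [hv, hvx, hvy]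
  · -- it suffices to treat sets avoiding x
    have key : ∀ W ⊆ G.vs, x ∉ W → (∀ e ∈ G.es, Cr G W e → e ∈ N ∧ e ∉ F) → Even W.card := by
      intro W hW hxW hcr
      have ck : ¬ Cr G W k := fun hh => (hcr k h.kes hh).2 h.hk
      have ck2 : ¬ Cr G W k2 := fun hh => (hcr k2 h.k2es hh).2 h.hk2
      have cl2 : ¬ Cr G W l2 := fun hh => (hcr l2 h.l2es hh).2 h.hl2
      rw [Jn_cr h.jk, not_not] at ck
      rw [Jn_cr h.jk2, not_not] at ck2
      rw [Jn_cr h.jl2, not_not] at cl2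
      have hyW : y ∉ W := fun hh => hxW (ck.2 hh)
      have hx2W : x2 ∉ W := fun hh => hxW (ck2.2 hh)
      have hy2W : y2 ∉ W := fun hh => hyW (cl2.2 hh)
      have ck1 := hcr k1 h.hk1
      have cl1 := hcr l1 h.hl1
      rw [Jn_cr h.jk1] at ck1
      rw [Jn_cr h.jl1] at cl1
      apply hg W
      · intro v hv
        change v ∈ G.vs \ {x, y}
        simp only [Finset.mem_sdiff, Finset.mem_insert, Finset.mem_singleton, not_or]
        exact ⟨hW hv, fun hh => hxW (hh ▸ hv), fun hh => hyW (hh ▸ hv)⟩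
      · intro e he hc
        change e ∈ G.es \ {k, l1, l2} at he
        by_cases e1 : e = k1
        · subst e1
          rw [red_cr_k1] at hc
          have hk1N : e ∈ N := by
            by_cases hx1W : x1 ∈ W
            · exact (ck1 (fun h3 => hxW (h3.2 hx1W))).1
            · have hy1W : y1 ∈ W := by
                by_contra hn
                exact hc ⟨fun h3 => absurd h3 hx1W, fun h3 => absurd h3 hn⟩
              exact n1.2 (cl1 (fun h3 => hyW (h3.2 hy1W))).1
          refine ⟨?_, ?_⟩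
          · rw [← hNM]; simp [hk1N, d1.symm, d6, d7]
          · simp [h.hk1']
        · by_cases e2 : e = k2
          · subst e2
            rw [red_cr_k2 d5] at hc
            exact absurd ⟨fun h3 => absurd h3 hx2W, fun h3 => absurd h3 hy2W⟩ hc
          · rw [red_cr_other e1 e2] at hc
            simp only [Finset.mem_sdiff] at he
            have h3 := hcr e he.1 hc
            refine ⟨?_, ?_⟩
            · rw [← hNM]
              exact Finset.mem_sdiff.2 ⟨h3.1, he.2⟩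
            · intro hh
              exact h3.2 (Finset.mem_sdiff.1 hh).1
    intro W hW hcr
    by_cases hxW : x ∈ W
    · apply card_compl_even h.ok hW
      apply key (G.vs \ W) Finset.sdiff_subset (by simp [hxW])
      intro e he hc
      exact hcr e he ((Cr_compl h.ok he).1 hc)
    · exact key W hW hxW hcr

theorem int_card {p q r s : E} {S : Finset E} (hs : s ∈ ({p, q, r} : Finset E))
    (h : ∀ e ∈ ({p, q, r} : Finset E), e ∈ S ↔ e = s) :
    ({p, q, r} ∩ S : Finset E).card = 1 := by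
  have : ({p, q, r} ∩ S : Finset E) = {s} := by
    ext e
    rw [Finset.mem_inter, Finset.mem_singleton]
    constructor
    · rintro ⟨h1, h2⟩; exact (h e h1).1 h2
    · rintro rfl; exact ⟨hs, (h _ hs).2 rfl⟩
  rw [this, Finset.card_singleton]

theorem mem3 {p q r e : E} : e ∈ ({p, q, r} : Finset E) ↔ e = p ∨ e = q ∨ e = r := by
  simp only [Finset.mem_insert, Finset.mem_singleton]

/-- one extra edge `c` -/
theorem lift_one (h : SC G F x y x1 y1 x2 y2 k k1 k2 l1 l2) {M : Finset E}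
    (hM : PM (red G x y x1 y1 x2 y2 k k1 k2 l1 l2) M)
    (hg : Good (red G x y x1 y1 x2 y2 k k1 k2 l1 l2) (F \ {k, l1, l2}) M) (c s t : E)
    (hc : c ∈ ({k, l1, l2} : Finset E)) (hs : s ∈ ({k, k1, k2} : Finset E))
    (ht : t ∈ ({k, l1, l2} : Finset E))
    (h1 : ∀ e ∈ ({k, k1, k2} : Finset E), e ∈ insert c M ↔ e = s)
    (h2 : ∀ e ∈ ({k, l1, l2} : Finset E), e ∈ insert c M ↔ e = t)
    (n1 : k1 ∈ insert c M ↔ l1 ∈ insert c M) (n2 : k2 ∈ insert c M ↔ l2 ∈ insert c M) :
    ∃ N, PM G N ∧ Good G F N ∧ M ⊆ N := by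
  have hMs : ∀ e ∈ M, e ∈ G.es ∧ e ∉ ({k, l1, l2} : Finset E) := fun e he =>
    Finset.mem_sdiff.1 (hM.sub he)
  have hces : c ∈ G.es := by
    rcases mem3.1 hc with rfl | rfl | rfl
    · exact h.kes
    · exact h.hl1
    · exact h.l2es
  have g1 : insert c M \ {k, l1, l2} = M := by
    ext e
    rw [Finset.mem_sdiff, Finset.mem_insert]
    constructor
    · rintro ⟨h3 | h3, h4⟩
      · rw [h3] at h4; exact absurd hc h4
      · exact h3
    · intro h1
      exact ⟨Or.inr h1, (hMs e h1).2⟩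
  have g2 : insert c M ⊆ G.es := by
    intro e he
    rcases Finset.mem_insert.1 he with rfl | h1
    · exact hces
    · exact (hMs e h1).1
  have hp := h.lift hM hg g1 g2 n1 n2 (int_card hs h1) (int_card ht h2)
  exact ⟨_, hp.1, hp.2, Finset.subset_insert _ _⟩

/-- the reduction lifts whenever one of the two new edges is avoided -/
theorem lift_exists (h : SC G F x y x1 y1 x2 y2 k k1 k2 l1 l2) {M : Finset E}
    (hM : PM (red G x y x1 y1 x2 y2 k k1 k2 l1 l2) M)
    (hg : Good (red G x y x1 y1 x2 y2 k k1 k2 l1 l2) (F \ {k, l1, l2}) M)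
    (hnb : ¬ (k1 ∈ M ∧ k2 ∈ M)) : ∃ N, PM G N ∧ Good G F N ∧ M ⊆ N := by
  obtain ⟨d1, d2, d3, d4, d5, d6, d7, d8, d9, d10⟩ := dist h.card5
  have hMs : ∀ e ∈ M, e ∉ ({k, l1, l2} : Finset E) := fun e he =>
    (Finset.mem_sdiff.1 (hM.sub he)).2
  have hkM : k ∉ M := fun hh => hMs k hh (mem3.2 (Or.inl rfl))
  have hl1M : l1 ∉ M := fun hh => hMs l1 hh (mem3.2 (Or.inr (Or.inl rfl)))
  have hl2M : l2 ∉ M := fun hh => hMs l2 hh (mem3.2 (Or.inr (Or.inr rfl)))
  by_cases c1 : k1 ∈ M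
  · have c2 : k2 ∉ M := fun hh => hnb ⟨c1, hh⟩
    apply h.lift_one hM hg l1 k1 l1 (mem3.2 (Or.inr (Or.inl rfl))) (mem3.2 (Or.inr (Or.inl rfl)))
      (mem3.2 (Or.inr (Or.inl rfl)))
    · intro e he
      rw [Finset.mem_insert]
      rcases mem3.1 he with rfl | rfl | rfl
      · simp only [d3, hkM, d1, or_self]
      · simp only [c1, or_true]
      · simp only [d8, c2, d5.symm, or_self]
    · intro e he
      rw [Finset.mem_insert]
      rcases mem3.1 he with rfl | rfl | rfl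
      · simp only [d3, hkM, or_false]
      · simp only [true_or]
      · simp only [d10.symm, hl2M, or_false]
    · simp only [Finset.mem_insert, c1, or_true, true_or]
    · simp only [Finset.mem_insert, c2, hl2M, d8, d10.symm, or_self]
  · by_cases c2 : k2 ∈ M
    · apply h.lift_one hM hg l2 k2 l2 (mem3.2 (Or.inr (Or.inr rfl))) (mem3.2 (Or.inr (Or.inr rfl)))
        (mem3.2 (Or.inr (Or.inr rfl)))
      · intro e he
        rw [Finset.mem_insert]
        rcases mem3.1 he with rfl | rfl | rfl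
        · simp only [d4, hkM, d2, or_self]
        · simp only [c1, d7, d5, or_self]
        · simp only [c2, or_true]
      · intro e he
        rw [Finset.mem_insert]
        rcases mem3.1 he with rfl | rfl | rfl
        · simp only [d4, hkM, or_false]
        · simp only [d10, hl1M, or_false]
        · simp only [true_or]
      · simp only [Finset.mem_insert, c1, hl1M, d7, d10, or_self]
      · simp only [Finset.mem_insert, c2, or_true, true_or]
    · apply h.lift_one hM hg k k k (mem3.2 (Or.inl rfl)) (mem3.2 (Or.inl rfl))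
        (mem3.2 (Or.inl rfl))
      · intro e he
        rw [Finset.mem_insert]
        rcases mem3.1 he with rfl | rfl | rfl
        · simp only [true_or]
        · simp only [c1, or_false]
        · simp only [c2, or_false]
      · intro e he
        rw [Finset.mem_insert]
        rcases mem3.1 he with rfl | rfl | rfl
        · simp only [true_or]
        · simp only [hl1M, or_false]
        · simp only [hl2M, or_false]
      · simp only [Finset.mem_insert, c1, hl1M, d1.symm, d3.symm, or_self]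
      · simp only [Finset.mem_insert, c2, hl2M, d2.symm, d4.symm, or_self]

end SC

end Pool.Agent.H43.F5
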