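/-
helper43: contraction of one side of a 3-cut, and gluing of rooted perfect matchings.
-/
import Pool.Agent.H43.F5.Defs

set_option autoImplicit false
set_option linter.unusedSectionVars false

namespace Pool.Agent.H43.F5

variable {V E : Type} [DecidableEq V] [DecidableEq E]

theorem side_even {G : Gr V E} {F N : Finset E} (hG : Ok G) (hF : Ev G F) (_hN : PM G N)
    (hg : Good G F N) {Z : Finset V} (hZ : Z ⊆ G.vs) (d : E) (hd : d ∈ N)
    (h : ∀ e ∈ G.es, Cr G Z e → e ≠ d → e ∈ N ∧ e ∉ F) : Even Z.card := by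
  apply hg Z hZ
  intro e he hcr
  by_cases hed : e = d
  · subst hed
    refine ⟨hd, fun heF => ?_⟩
    refine none_in_F hG hF hZ e ?_ e heF hcr
    intro x hx hcx
    by_contra hne
    exact (h x (hF.sub hx) hcx hne).2 hx
  · exact h e he hcr hed

/-- contraction of everything outside `X` to the vertex `z` -/
def con (G : Gr V E) (X : Finset V) (z : V) : Gr V E where
  vs := insert z X
  es := G.es.filter (fun e => G.a e ∈ X ∨ G.b e ∈ X)
  a := fun e => if G.a e ∈ X then G.a e else z
  b := fun e => if G.b e ∈ X then G.b e else z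

/-- preimage of a vertex set under the contraction -/
def up (G : Gr V E) (X : Finset V) (z : V) (Z : Finset V) : Finset V :=
  G.vs.filter (fun v => (if v ∈ X then v else z) ∈ Z)

theorem Cr_up {G : Gr V E} (hG : Ok G) (X : Finset V) (z : V) (Z : Finset V) {e : E}
    (he : e ∈ G.es) : Cr G (up G X z Z) e ↔ Cr (con G X z) Z e := by
  unfold Cr up con
  simp only [Finset.mem_filter, hG.ha e he, hG.hb e he, true_and]

theorem mem_con_es {G : Gr V E} {X : Finset V} {z : V} {e : E} :
    e ∈ (con G X z).es ↔ e ∈ G.es ∧ (G.a e ∈ X ∨ G.b e ∈ X) := by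
  simp [con]

theorem con_Cr_mem {G : Gr V E} {X : Finset V} {z : V} {Z : Finset V} {e : E}
    (h : Cr (con G X z) Z e) : G.a e ∈ X ∨ G.b e ∈ X := by
  by_contra hcon
  push Not at hcon
  apply h
  simp [con, hcon.1, hcon.2]

theorem cut_up {G : Gr V E} (hG : Ok G) (X : Finset V) (z : V) (Z : Finset V) {A : Finset E}
    (hA : A ⊆ G.es) :
    cut G A (up G X z Z) =
      cut (con G X z) (A.filter (fun e => G.a e ∈ X ∨ G.b e ∈ X)) Z := by
  ext e
  simp only [mem_cut, Finset.mem_filter]
  constructor
  · rintro ⟨h1, h2⟩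
    have h3 := (Cr_up hG X z Z (hA h1)).1 h2
    exact ⟨⟨h1, con_Cr_mem h3⟩, h3⟩
  · rintro ⟨⟨h1, _⟩, h2⟩
    exact ⟨h1, (Cr_up hG X z Z (hA h1)).2 h2⟩

theorem star_con_of_mem {G : Gr V E} {X : Finset V} {z : V} (hz : z ∉ X) {A : Finset E} {v : V}
    (hv : v ∈ X) :
    star (con G X z) (A.filter (fun e => G.a e ∈ X ∨ G.b e ∈ X)) v = star G A v := by
  have hzv : z ≠ v := fun h => hz (h ▸ hv)
  ext e
  simp only [mem_star, Finset.mem_filter, con]
  constructor
  · rintro ⟨⟨h1, _⟩, h2⟩
    refine ⟨h1, ?_⟩
    rcases h2 with h2 | h2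
    · left
      by_contra hne
      by_cases hx : G.a e ∈ X
      · rw [if_pos hx] at h2; exact hne h2
      · rw [if_neg hx] at h2; exact hzv h2
    · right
      by_contra hne
      by_cases hx : G.b e ∈ X
      · rw [if_pos hx] at h2; exact hne h2
      · rw [if_neg hx] at h2; exact hzv h2
  · rintro ⟨h1, h2⟩
    rcases h2 with h2 | h2
    · have : G.a e ∈ X := h2 ▸ hv
      exact ⟨⟨h1, Or.inl this⟩, Or.inl (by rw [if_pos this]; exact h2)⟩
    · have : G.b e ∈ X := h2 ▸ hv
      exact ⟨⟨h1, Or.inr this⟩, Or.inr (by rw [if_pos this]; exact h2)⟩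

theorem star_con_z {G : Gr V E} {X : Finset V} {z : V} (hz : z ∉ X) {A : Finset E} :
    star (con G X z) (A.filter (fun e => G.a e ∈ X ∨ G.b e ∈ X)) z = cut G A X := by
  ext e
  simp only [mem_star, Finset.mem_filter, con, mem_cut, Cr]
  by_cases h1 : G.a e ∈ X <;> by_cases h2 : G.b e ∈ X
  · have h3 : G.a e ≠ z := fun h => hz (h ▸ h1)
    have h4 : G.b e ≠ z := fun h => hz (h ▸ h2)
    simp [h1, h2, h3, h4]
  · simp [h1, h2]
  · simp [h1, h2]
  · simp [h1, h2]

theorem up_sub {G : Gr V E} {X : Finset V} {z : V} {Z : Finset V} : up G X z Z ⊆ G.vs :=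
  Finset.filter_subset _ _

theorem con_ok {G : Gr V E} (hG : Ok G) {X : Finset V} {z : V} (hX : X ⊆ G.vs) (hz : z ∉ X)
    (h3 : (cut G G.es X).card = 3) : Ok (con G X z) where
  ha := by
    intro e _
    simp only [con, Finset.mem_insert]
    by_cases h : G.a e ∈ X
    · right; rw [if_pos h]; exact h
    · left; rw [if_neg h]
  hb := by
    intro e _
    simp only [con, Finset.mem_insert]
    by_cases h : G.b e ∈ X
    · right; rw [if_pos h]; exact h
    · left; rw [if_neg h]
  ne := by
    intro e he
    rw [mem_con_es] at he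
    have hne := hG.ne e he.1
    simp only [con]
    by_cases h1 : G.a e ∈ X <;> by_cases h2 : G.b e ∈ X
    · simp [h1, h2, hne]
    · simp only [h1, h2, if_true, if_false]
      exact fun h => hz (h ▸ h1)
    · simp only [h1, h2, if_true, if_false]
      exact fun h => hz (h ▸ h2)
    · exact absurd he.2 (by simp [h1, h2])
  deg := by
    intro v hv
    have hv' : v = z ∨ v ∈ X := by simpa [con] using hv
    rcases hv' with rfl | hv'
    · have := star_con_z (G := G) hz (A := G.es)
      change (star (con G X v) (G.es.filter _) v).card = 3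
      rw [this, h3]
    · have := star_con_of_mem (G := G) (z := z) hz (A := G.es) hv'
      change (star (con G X z) (G.es.filter _) v).card = 3
      rw [this]; exact hG.deg v (hX hv')
  br := by
    intro Z _
    have := cut_up hG X z Z (le_refl G.es)
    change (cut (con G X z) (G.es.filter _) Z).card ≠ 1
    rw [← this]
    exact hG.br _ up_sub

theorem con_ev {G : Gr V E} (hG : Ok G) {F : Finset E} (hF : Ev G F) {X : Finset V} {z : V}
    (hX : X ⊆ G.vs) (hz : z ∉ X) (h3 : (cut G G.es X).card = 3) :
    Ev (con G X z) (F.filter (fun e => G.a e ∈ X ∨ G.b e ∈ X)) where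
  sub := Finset.filter_subset_filter _ hF.sub
  deg := by
    intro v hv
    have hv' : v = z ∨ v ∈ X := by simpa [con] using hv
    rcases hv' with rfl | hv'
    · rw [star_con_z hz]
      have h1 := cutF_even hG hF hX
      have h2 := Finset.card_le_card (cut_mono (G := G) hF.sub X)
      omega
    · rw [star_con_of_mem hz hv']
      exact hF.deg v (hX hv')

theorem con_TN {G : Gr V E} (hG : Ok G) {F : Finset E} (hF : Ev G F) {k : ℕ} (hT : TN G F k)
    {X : Finset V} {z : V} (hX : X ⊆ G.vs) (hz : z ∉ X) (hzv : z ∈ G.vs)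
    (h3 : (cut G G.es X).card = 3) :
    TN (con G X z) (F.filter (fun e => G.a e ∈ X ∨ G.b e ∈ X)) k := by
  obtain ⟨R, hR, hk, hcl⟩ := hT
  -- closed sets lift
  have hup : ∀ Z : Finset V, (∀ e ∈ F.filter (fun e => G.a e ∈ X ∨ G.b e ∈ X),
      ¬ Cr (con G X z) Z e) → ∀ e ∈ F, ¬ Cr G (up G X z Z) e := by
    intro Z hZ e he hcr
    have h1 := (Cr_up hG X z Z (hF.sub he)).1 hcr
    exact hZ e (Finset.mem_filter.2 ⟨he, con_Cr_mem h1⟩) h1
  have hodd : Odd (G.vs \ X).card := by
    have h1 := cut_parity hG hX
    have h2 := Finset.card_sdiff_add_card_eq_card hX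
    have h4 := vs_even hG
    rw [Nat.even_iff] at h4
    rw [Nat.odd_iff]
    omega
  have hcardnot : ∀ Z : Finset V, Z ⊆ insert z X → z ∉ Z → up G X z Z = Z := by
    intro Z hZ hzZ
    ext v
    simp only [up, Finset.mem_filter]
    constructor
    · rintro ⟨h1, h2⟩
      by_cases hx : v ∈ X
      · rw [if_pos hx] at h2; exact h2
      · rw [if_neg hx] at h2; exact absurd h2 hzZ
    · intro hv
      have hvX : v ∈ X := by
        have := hZ hv
        rw [Finset.mem_insert] at this
        rcases this with rfl | h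
        · exact absurd hv hzZ
        · exact h
      exact ⟨hX hvX, by rw [if_pos hvX]; exact hv⟩
  have hcardin : ∀ Z : Finset V, Z ⊆ insert z X → z ∈ Z →
      (up G X z Z).card + 1 = Z.card + (G.vs \ X).card := by
    intro Z hZ hzZ
    have h1 : up G X z Z = (Z.erase z) ∪ (G.vs \ X) := by
      ext v
      simp only [up, Finset.mem_filter, Finset.mem_union, Finset.mem_erase, Finset.mem_sdiff]
      constructor
      · rintro ⟨h1, h2⟩
        by_cases hx : v ∈ X
        · rw [if_pos hx] at h2
          exact Or.inl ⟨fun h => hz (h ▸ hx), h2⟩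
        · exact Or.inr ⟨h1, hx⟩
      · rintro (⟨h1, h2⟩ | ⟨h1, h2⟩)
        · have hvX : v ∈ X := by
            have := hZ h2
            rw [Finset.mem_insert] at this
            rcases this with h | h
            · exact absurd h h1
            · exact h
          exact ⟨hX hvX, by rw [if_pos hvX]; exact h2⟩
        · exact ⟨h1, by rw [if_neg h2]; exact hzZ⟩
    have h2 : Disjoint (Z.erase z) (G.vs \ X) := by
      rw [Finset.disjoint_left]
      intro v hv hv2
      rw [Finset.mem_sdiff] at hv2
      rw [Finset.mem_erase] at hv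
      have := hZ hv.2
      rw [Finset.mem_insert] at this
      rcases this with h | h
      · exact hv.1 h
      · exact hv2.2 h
    rw [h1, Finset.card_union_of_disjoint h2, Finset.card_erase_of_mem hzZ]
    have : 0 < Z.card := Finset.card_pos.2 ⟨z, hzZ⟩
    omega
  by_cases hRY : (R \ X).Nonempty
  · refine ⟨insert z (R ∩ X), ?_, ?_, ?_⟩
    · exact Finset.insert_subset_insert _ Finset.inter_subset_right
    · have h1 := Finset.card_insert_le z (R ∩ X)
      have h2 := Finset.card_sdiff_add_card_inter R X
      have h4 := Finset.card_pos.2 hRY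
      omega
    · intro Z hZ hcl' hdis
      have hzZ : z ∉ Z := by
        intro h
        exact (Finset.disjoint_left.1 hdis h) (Finset.mem_insert_self _ _)
      have h1 := hcardnot Z hZ hzZ
      have h2 := hup Z hcl'
      rw [h1] at h2
      have hZX : Z ⊆ X := by
        intro v hv
        have := hZ hv
        change v ∈ insert z X at this
        rw [Finset.mem_insert] at this
        rcases this with rfl | h
        · exact absurd hv hzZ
        · exact h
      apply hcl Z (hZX.trans hX) h2
      rw [Finset.disjoint_left]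
      intro v hv hvR
      exact (Finset.disjoint_left.1 hdis hv)
        (Finset.mem_insert_of_mem (Finset.mem_inter.2 ⟨hvR, hZX hv⟩))
  · rw [Finset.not_nonempty_iff_eq_empty, Finset.sdiff_eq_empty_iff_subset] at hRY
    refine ⟨R, hRY.trans (Finset.subset_insert _ _), hk, ?_⟩
    intro Z hZ hcl' hdis
    have h2 := hup Z hcl'
    have h5 := hcl (up G X z Z) up_sub h2 (by
      rw [Finset.disjoint_left]
      intro v hv hvR
      simp only [up, Finset.mem_filter] at hv
      rw [if_pos (hRY hvR)] at hv
      exact Finset.disjoint_left.1 hdis hv.2 hvR)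
    by_cases hzZ : z ∈ Z
    · have h1 := hcardin Z hZ hzZ
      rw [Nat.even_iff] at *
      rw [Nat.odd_iff] at hodd
      omega
    · rw [hcardnot Z hZ hzZ] at h5
      exact h5

end Pool.Agent.H43.F5
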