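/-
helper43: rooted perfect matchings glue over a 3-cut.
-/
import Pool.Agent.H43.F5.Three

set_option autoImplicit false
set_option linter.unusedSectionVars false

namespace Pool.Agent.H43.F5

variable {V E : Type} [DecidableEq V] [DecidableEq E]

/-- edges of `A` with an end in `X` -/
def tch (G : Gr V E) (X : Finset V) (A : Finset E) : Finset E :=
  A.filter (fun e => G.a e ∈ X ∨ G.b e ∈ X)

theorem glue3_aux {G : Gr V E} (hG : Ok G) {F : Finset E} (hF : Ev G F) {X : Finset V}
    {z z' : V} (hX : X ⊆ G.vs) (hz : z ∉ X) (hz' : z' ∉ G.vs \ X)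
    (h3 : (cut G G.es X).card = 3)
    (h1 : Root (con G X z) (tch G X F))
    (h2 : Root (con G (G.vs \ X) z') (tch G (G.vs \ X) F))
    {e : E} (he : e ∈ G.es) (heX : G.a e ∈ X ∨ G.b e ∈ X) :
    ∃ N, PM G N ∧ e ∈ N ∧ Good G F N := by
  have hY : G.vs \ X ⊆ G.vs := Finset.sdiff_subset
  have h3' : (cut G G.es (G.vs \ X)).card = 3 := by
    rw [cut_compl hG (le_refl _)]; exact h3
  have hG1 := con_ok hG hX hz h3
  have hG2 := con_ok hG hY hz' h3'
  have hF1 := con_ev hG hF hX hz h3
  have hF2 := con_ev hG hF hY hz' h3'
  obtain ⟨N1, hN1, he1, hg1⟩ := h1 e (mem_con_es.2 ⟨he, heX⟩)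
  have hN1s : ∀ x ∈ N1, x ∈ G.es ∧ (G.a x ∈ X ∨ G.b x ∈ X) := fun x hx =>
    mem_con_es.1 (hN1.sub hx)
  have hN1f : N1.filter (fun e => G.a e ∈ X ∨ G.b e ∈ X) = N1 :=
    Finset.filter_true_of_mem (fun x hx => (hN1s x hx).2)
  have hst1 : ∀ v ∈ X, (star G N1 v).card = 1 := by
    intro v hv
    have := star_con_of_mem (G := G) (z := z) hz (A := N1) hv
    rw [hN1f] at this
    rw [← this]
    exact hN1.deg v (Finset.mem_insert_of_mem hv)
  have hc1 : (cut G N1 X).card = 1 := by
    have := star_con_z (G := G) hz (A := N1)
    rw [hN1f] at this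
    rw [← this]
    exact hN1.deg z (Finset.mem_insert_self _ _)
  obtain ⟨d, hd⟩ := Finset.card_eq_one.1 hc1
  have hdm : d ∈ cut G N1 X := by rw [hd]; exact Finset.mem_singleton_self d
  rw [mem_cut] at hdm
  have hdes := (hN1s d hdm.1).1
  have hdY : Cr G (G.vs \ X) d := (Cr_compl hG hdes).2 hdm.2
  have hd2 : d ∈ (con G (G.vs \ X) z').es := by
    rw [mem_con_es]
    refine ⟨hdes, ?_⟩
    unfold Cr at hdY
    by_contra hcon
    push Not at hcon
    exact hdY (by simp only [hcon.1, hcon.2])
  obtain ⟨N2, hN2, hd2N, hg2⟩ := h2 d hd2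
  have hN2s : ∀ x ∈ N2, x ∈ G.es ∧ (G.a x ∈ G.vs \ X ∨ G.b x ∈ G.vs \ X) := fun x hx =>
    mem_con_es.1 (hN2.sub hx)
  have hN2f : N2.filter (fun e => G.a e ∈ G.vs \ X ∨ G.b e ∈ G.vs \ X) = N2 :=
    Finset.filter_true_of_mem (fun x hx => (hN2s x hx).2)
  have hst2 : ∀ v ∈ G.vs \ X, (star G N2 v).card = 1 := by
    intro v hv
    have := star_con_of_mem (G := G) (z := z') hz' (A := N2) hv
    rw [hN2f] at this
    rw [← this]
    exact hN2.deg v (Finset.mem_insert_of_mem hv)
  have hc2 : (cut G N2 X).card = 1 := by
    have := star_con_z (G := G) hz' (A := N2)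
    rw [hN2f] at this
    rw [← cut_compl hG (fun x hx => (hN2s x hx).1), ← this]
    exact hN2.deg z' (Finset.mem_insert_self _ _)
  have hd' : cut G N2 X = {d} := by
    obtain ⟨d', hd'⟩ := Finset.card_eq_one.1 hc2
    have : d ∈ cut G N2 X := mem_cut.2 ⟨hd2N, hdm.2⟩
    rw [hd'] at this
    rw [Finset.mem_singleton.1 this, hd']
  have hx1 : ∀ x ∈ N1, Cr G X x → x = d := by
    intro x hx hcx
    have : x ∈ cut G N1 X := mem_cut.2 ⟨hx, hcx⟩
    rw [hd] at this
    exact Finset.mem_singleton.1 this
  have hx2 : ∀ x ∈ N2, Cr G X x → x = d := by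
    intro x hx hcx
    have : x ∈ cut G N2 X := mem_cut.2 ⟨hx, hcx⟩
    rw [hd'] at this
    exact Finset.mem_singleton.1 this
  have hPM : PM G (N1 ∪ N2) := by
    refine ⟨?_, ?_⟩
    · intro x hx
      rcases Finset.mem_union.1 hx with h | h
      · exact (hN1s x h).1
      · exact (hN2s x h).1
    · intro v hv
      by_cases hvX : v ∈ X
      · have : star G (N1 ∪ N2) v = star G N1 v := by
          ext x
          simp only [mem_star, Finset.mem_union]
          constructor
          · rintro ⟨h | h, h'⟩
            · exact ⟨h, h'⟩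
            · refine ⟨?_, h'⟩
              have hcr : Cr G X x := by
                have hh := (hN2s x h).2
                unfold Cr
                simp only [Finset.mem_sdiff] at hh
                rcases h' with rfl | rfl
                · intro hiff
                  have hb := hiff.1 hvX
                  rcases hh with hh | hh
                  · exact hh.2 hvX
                  · exact hh.2 hb
                · intro hiff
                  have ha := hiff.2 hvX
                  rcases hh with hh | hh
                  · exact hh.2 ha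
                  · exact hh.2 hvX
              rw [hx2 x h hcr]
              exact hdm.1
          · rintro ⟨h, h'⟩; exact ⟨Or.inl h, h'⟩
        rw [this]; exact hst1 v hvX
      · have hvY : v ∈ G.vs \ X := Finset.mem_sdiff.2 ⟨hv, hvX⟩
        have : star G (N1 ∪ N2) v = star G N2 v := by
          ext x
          simp only [mem_star, Finset.mem_union]
          constructor
          · rintro ⟨h | h, h'⟩
            · refine ⟨?_, h'⟩
              have hcr : Cr G X x := by
                have hh := (hN1s x h).2
                unfold Cr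
                rcases h' with rfl | rfl
                · intro hiff
                  rcases hh with hh | hh
                  · exact hvX hh
                  · exact hvX (hiff.2 hh)
                · intro hiff
                  rcases hh with hh | hh
                  · exact hvX (hiff.1 hh)
                  · exact hvX hh
              rw [hx1 x h hcr]
              exact hd2N
            · exact ⟨h, h'⟩
          · rintro ⟨h, h'⟩; exact ⟨Or.inr h, h'⟩
        rw [this]; exact hst2 v hvY
  refine ⟨N1 ∪ N2, hPM, Finset.mem_union_left _ he1, ?_⟩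
  -- main case
  have key : ∀ W ⊆ G.vs, (∀ e ∈ G.es, Cr G W e → e ∈ N1 ∪ N2 ∧ e ∉ F) →
      (∀ x ∈ G.es, Cr G X x → x ≠ d → G.a x ∉ W ∧ G.b x ∉ W) → Even W.card := by
    intro W hW hcr hout
    have hA : Even (W ∩ X).card := by
      refine side_even hG1 hF1 hN1 hg1 (Z := W ∩ X)
        (Finset.inter_subset_right.trans (Finset.subset_insert _ _)) d hdm.1 ?_
      intro x hx hxc hxd
      have hxe := mem_con_es.1 hx
      -- crossing W ∩ X in G1
      by_cases hXx : Cr G X x
      · exfalso
        have ho := hout x hxe.1 hXx hxd
        apply hxc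
        simp only [con, Finset.mem_inter]
        by_cases h4 : G.a x ∈ X <;> by_cases h5 : G.b x ∈ X
        · simp [h4, h5, ho.1, ho.2]
        · simp [h4, h5, ho.1, hz]
        · simp [h4, h5, ho.2, hz]
        · simp [h4, h5, hz]
      · have hboth : G.a x ∈ X ∧ G.b x ∈ X := by
          unfold Cr at hXx
          push Not at hXx
          rcases hxe.2 with h | h
          · exact ⟨h, hXx.1 h⟩
          · exact ⟨hXx.2 h, h⟩
        have hxW : Cr G W x := by
          intro hiff
          apply hxc
          simp only [con, hboth.1, hboth.2, if_true, Finset.mem_inter, and_true]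
          exact hiff
        have h6 := hcr x hxe.1 hxW
        refine ⟨?_, fun h => h6.2 (Finset.mem_filter.1 h).1⟩
        rcases Finset.mem_union.1 h6.1 with h | h
        · exact h
        · exfalso
          have h7 := (hN2s x h).2
          simp only [Finset.mem_sdiff] at h7
          rcases h7 with h7 | h7
          · exact h7.2 hboth.1
          · exact h7.2 hboth.2
    have hB : Even (W \ X).card := by
      have hzW : z' ∉ W \ X := by
        intro h
        rw [Finset.mem_sdiff] at h
        exact hz' (Finset.mem_sdiff.2 ⟨hW h.1, h.2⟩)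
      refine side_even hG2 hF2 hN2 hg2 (Z := W \ X)
        (fun v hv => ?_) d hd2N ?_
      · rw [Finset.mem_sdiff] at hv
        exact Finset.mem_insert_of_mem (Finset.mem_sdiff.2 ⟨hW hv.1, hv.2⟩)
      intro x hx hxc hxd
      have hxe := mem_con_es.1 hx
      have hav := hG.ha x hxe.1
      have hbv := hG.hb x hxe.1
      by_cases hXx : Cr G X x
      · exfalso
        have ho := hout x hxe.1 hXx hxd
        apply hxc
        by_cases h4 : G.a x ∈ X <;> by_cases h5 : G.b x ∈ X
        · simp only [con, Finset.mem_sdiff, h4, h5, not_true, and_false, if_false]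
        · simp only [con, Finset.mem_sdiff, h4, h5, hbv, not_true, and_false, if_false,
            not_false_iff, and_true, if_true, ho.2]
          exact ⟨fun h => absurd (Finset.mem_sdiff.2 h) hzW, fun h => h.elim⟩
        · simp only [con, Finset.mem_sdiff, h4, h5, hav, not_true, and_false, if_false,
            not_false_iff, and_true, if_true, ho.1]
          exact ⟨fun h => h.elim, fun h => absurd (Finset.mem_sdiff.2 h) hzW⟩
        · simp only [con, Finset.mem_sdiff, h4, h5, hav, hbv, ho.1, ho.2, not_false_iff,
            and_true, if_true]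
      · have hboth : G.a x ∉ X ∧ G.b x ∉ X := by
          unfold Cr at hXx
          push Not at hXx
          rcases hxe.2 with h | h
          · rw [Finset.mem_sdiff] at h
            exact ⟨h.2, fun h' => h.2 (hXx.2 h')⟩
          · rw [Finset.mem_sdiff] at h
            exact ⟨fun h' => h.2 (hXx.1 h'), h.2⟩
        have hxW : Cr G W x := by
          intro hiff
          apply hxc
          simp only [con, Finset.mem_sdiff, hav, hbv, hboth.1, hboth.2, not_false_iff,
            and_true, if_true]
          exact hiff
        have h6 := hcr x hxe.1 hxW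
        refine ⟨?_, fun h => h6.2 (Finset.mem_filter.1 h).1⟩
        rcases Finset.mem_union.1 h6.1 with h | h
        · exfalso
          rcases (hN1s x h).2 with h7 | h7
          · exact hboth.1 h7
          · exact hboth.2 h7
        · exact h
    have := Finset.card_sdiff_add_card_inter W X
    rw [← this]
    exact hB.add hA
  intro W hW hcr
  -- all edges of the cut other than d are on the same side of W
  have hnot : ∀ x ∈ G.es, Cr G X x → x ≠ d → x ∉ N1 ∪ N2 := by
    intro x _ hcx hxd h
    rcases Finset.mem_union.1 h with h | h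
    · exact hxd (hx1 x h hcx)
    · exact hxd (hx2 x h hcx)
  have hsame : ∀ x ∈ G.es, Cr G X x → x ≠ d → (G.a x ∈ W ↔ G.b x ∈ W) := by
    intro x hx hcx hxd
    by_contra hcon
    exact hnot x hx hcx hxd (hcr x hx hcon).1
  by_cases hall : ∀ x ∈ G.es, Cr G X x → x ≠ d → G.a x ∉ W
  · exact key W hW hcr (fun x hx hcx hxd =>
      ⟨hall x hx hcx hxd, fun h => hall x hx hcx hxd ((hsame x hx hcx hxd).2 h)⟩)
  push Not at hall
  obtain ⟨p, hp, hpX, hpd, hpW⟩ := hall
  by_cases hall2 : ∀ x ∈ G.es, Cr G X x → x ≠ d → G.a x ∈ W
  · apply card_compl_even hG hW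
    apply key (G.vs \ W) Finset.sdiff_subset
    · intro x hx hxc
      exact hcr x hx ((Cr_compl hG hx).1 hxc)
    · intro x hx hcx hxd
      have h1 := hall2 x hx hcx hxd
      have h2 := (hsame x hx hcx hxd).1 h1
      exact ⟨fun h => (Finset.mem_sdiff.1 h).2 h1, fun h => (Finset.mem_sdiff.1 h).2 h2⟩
  · exfalso
    push Not at hall2
    obtain ⟨q, hq, hqX, hqd, hqW⟩ := hall2
    have hpq : p ≠ q := fun h => hqW (h ▸ hpW)
    -- the cut is {d, p, q}
    have hcut : cut G G.es X = {d, p, q} := by
      symm
      apply Finset.eq_of_subset_of_card_le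
      · intro x hx
        simp only [Finset.mem_insert, Finset.mem_singleton] at hx
        rcases hx with rfl | rfl | rfl
        · exact mem_cut.2 ⟨hdes, hdm.2⟩
        · exact mem_cut.2 ⟨hp, hpX⟩
        · exact mem_cut.2 ⟨hq, hqX⟩
      · rw [h3]
        rw [Finset.card_insert_of_notMem, Finset.card_insert_of_notMem, Finset.card_singleton]
        · simpa using hpq
        · simp only [Finset.mem_insert, Finset.mem_singleton, not_or]
          exact ⟨fun h => hpd h.symm, fun h => hqd h.symm⟩
    have hpN : p ∉ N1 := fun h => hpd (hx1 p h hpX)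
    -- consider W ∩ X in G1
    have hpe : p ∈ (con G X z).es := by
      rw [mem_con_es]
      refine ⟨hp, ?_⟩
      unfold Cr at hpX
      by_contra hcon
      push Not at hcon
      exact hpX (by simp only [hcon.1, hcon.2])
    have hpWb : G.b p ∈ W := (hsame p hp hpX hpd).1 hpW
    have hqWb : G.b q ∉ W := fun h => hqW ((hsame q hq hqX hqd).2 h)
    have hpc : Cr (con G X z) (W ∩ X) p := by
      unfold Cr at hpX ⊢
      simp only [con, Finset.mem_inter]
      by_cases h4 : G.a p ∈ X <;> by_cases h5 : G.b p ∈ X
      · exact absurd (by simp [h4, h5]) hpX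
      · simp [h4, h5, hpW, hz]
      · simp [h4, h5, hpWb, hz]
      · exact absurd (by simp [h4, h5]) hpX
    have := all_in_N hG1 hN1 (X := W ∩ X)
      (Finset.inter_subset_right.trans (Finset.subset_insert _ _)) p (by
        intro x hx hxc hxp
        have hxe := mem_con_es.1 hx
        by_cases hXx : Cr G X x
        · have hx3 : x ∈ cut G G.es X := mem_cut.2 ⟨hxe.1, hXx⟩
          rw [hcut] at hx3
          simp only [Finset.mem_insert, Finset.mem_singleton] at hx3
          rcases hx3 with rfl | rfl | rfl
          · exact hdm.1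
          · exact absurd rfl hxp
          · exfalso
            apply hxc
            simp only [con, Finset.mem_inter]
            by_cases h4 : G.a x ∈ X <;> by_cases h5 : G.b x ∈ X
            · simp [h4, h5, hqW, hqWb]
            · simp [h4, h5, hqW, hz]
            · simp [h4, h5, hqWb, hz]
            · simp [h4, h5, hz]
        · have hboth : G.a x ∈ X ∧ G.b x ∈ X := by
            unfold Cr at hXx
            push Not at hXx
            rcases hxe.2 with h | h
            · exact ⟨h, hXx.1 h⟩
            · exact ⟨hXx.2 h, h⟩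
          have hxW : Cr G W x := by
            intro hiff
            apply hxc
            simp only [con, hboth.1, hboth.2, if_true, Finset.mem_inter, and_true]
            exact hiff
          rcases Finset.mem_union.1 (hcr x hxe.1 hxW).1 with h | h
          · exact h
          · exfalso
            have h7 := (hN2s x h).2
            simp only [Finset.mem_sdiff] at h7
            rcases h7 with h7 | h7
            · exact h7.2 hboth.1
            · exact h7.2 hboth.2) p hpe hpc
    exact hpN this

theorem glue3 {G : Gr V E} (hG : Ok G) {F : Finset E} (hF : Ev G F) {X : Finset V}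
    {z z' : V} (hX : X ⊆ G.vs) (hz : z ∉ X) (hz' : z' ∉ G.vs \ X)
    (h3 : (cut G G.es X).card = 3)
    (h1 : Root (con G X z) (tch G X F))
    (h2 : Root (con G (G.vs \ X) z') (tch G (G.vs \ X) F)) : Root G F := by
  intro e he
  by_cases heX : G.a e ∈ X ∨ G.b e ∈ X
  · exact glue3_aux hG hF hX hz hz' h3 h1 h2 he heX
  · have hY : G.vs \ (G.vs \ X) = X := Finset.sdiff_sdiff_eq_self hX
    push Not at heX
    refine glue3_aux hG hF (X := G.vs \ X) (z := z') (z' := z) Finset.sdiff_subset hz' ?_ ?_
      h2 ?_ he (Or.inl (Finset.mem_sdiff.2 ⟨hG.ha e he, heX.1⟩))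
    · rw [hY]; exact hz
    · rw [cut_compl hG (le_refl _)]; exact h3
    · rw [hY]; exact h1

end Pool.Agent.H43.F5
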