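/-
helper43: 2-cuts: closing one side by an edge, and gluing of rooted perfect matchings.
-/
import Pool.Agent.H43.F5.ThreeGlue

set_option autoImplicit false
set_option linter.unusedSectionVars false

namespace Pool.Agent.H43.F5

variable {V E : Type} [DecidableEq V] [DecidableEq E]

/-- the end in `X` of a crossing edge -/
def xe (G : Gr V E) (X : Finset V) (f : E) : V := if G.a f ∈ X then G.a f else G.b f

/-- edges of `A` inside `X`, and `f` if it is in `A` -/
def hb (G : Gr V E) (X : Finset V) (f : E) (A : Finset E) : Finset E :=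
  A.filter (fun e => (G.a e ∈ X ∧ G.b e ∈ X) ∨ e = f)

/-- one side of the 2-cut `{f, g}` closed by the edge `f` -/
def half (G : Gr V E) (X : Finset V) (f g : E) : Gr V E where
  vs := X
  es := hb G X f G.es
  a := fun e => if e = f then xe G X f else G.a e
  b := fun e => if e = f then xe G X g else G.b e

theorem mem_hb {G : Gr V E} {X : Finset V} {f : E} {A : Finset E} {e : E} :
    e ∈ hb G X f A ↔ e ∈ A ∧ ((G.a e ∈ X ∧ G.b e ∈ X) ∨ e = f) := by
  simp [hb]

/-- the hypotheses on a 2-cut -/
structure Cut2 (G : Gr V E) (X : Finset V) (f g : E) : Prop where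
  ok : Ok G
  sub : X ⊆ G.vs
  cut : cut G G.es X = {f, g}
  ne : f ≠ g

namespace Cut2

variable {G : Gr V E} {X : Finset V} {f g : E}

theorem symm_side (h : Cut2 G X f g) : Cut2 G (G.vs \ X) f g where
  ok := h.ok
  sub := Finset.sdiff_subset
  cut := by rw [cut_compl h.ok (le_refl _)]; exact h.cut
  ne := h.ne

theorem fmem (h : Cut2 G X f g) : f ∈ G.es ∧ Cr G X f := by
  rw [← mem_cut, h.cut]; simp

theorem gmem (h : Cut2 G X f g) : g ∈ G.es ∧ Cr G X g := by
  rw [← mem_cut, h.cut]; simp

theorem fg (h : Cut2 G X f g) {e : E} (he : e ∈ G.es) (hc : Cr G X e) : e = f ∨ e = g := by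
  have : e ∈ F5.cut G G.es X := mem_cut.2 ⟨he, hc⟩
  rw [h.cut] at this
  simpa using this

theorem xe_mem {f : E} (hc : Cr G X f) : xe G X f ∈ X := by
  unfold Cr at hc
  unfold xe
  by_cases h : G.a f ∈ X
  · rw [if_pos h]; exact h
  · rw [if_neg h]
    by_contra hcon
    exact hc (by simp [h, hcon])

theorem xe_iff {f : E} (hc : Cr G X f) {v : V} (hv : v ∈ X) :
    (G.a f = v ∨ G.b f = v) ↔ xe G X f = v := by
  unfold Cr at hc
  unfold xe
  by_cases h : G.a f ∈ X
  · rw [if_pos h]
    have hb : G.b f ∉ X := fun hb => hc (by simp [h, hb])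
    constructor
    · rintro (h1 | h1)
      · exact h1
      · exact absurd (h1 ▸ hv) hb
    · exact Or.inl
  · rw [if_neg h]
    constructor
    · rintro (h1 | h1)
      · exact absurd (h1 ▸ hv) h
      · exact h1
    · exact Or.inr

theorem xne (h : Cut2 G X f g) : xe G X f ≠ xe G X g := by
  intro hxy
  set x := xe G X f with hx
  have hxX : x ∈ X := xe_mem h.fmem.2
  have hfx : G.a f = x ∨ G.b f = x := (xe_iff h.fmem.2 hxX).2 rfl
  have hgx : G.a g = x ∨ G.b g = x := (xe_iff h.gmem.2 hxX).2 hxy.symm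
  have hcut : F5.cut G G.es (X.erase x) = (star G G.es x) \ {f, g} := by
    ext e
    simp only [mem_cut, Finset.mem_sdiff, mem_star, Finset.mem_insert, Finset.mem_singleton,
      not_or]
    constructor
    · rintro ⟨he, hc⟩
      have hinc : G.a e = x ∨ G.b e = x := by
        by_contra hcon
        push Not at hcon
        have hcX : Cr G X e := by
          intro hiff
          apply hc
          simp only [Finset.mem_erase, hcon.1, hcon.2, ne_eq, not_false_iff, true_and]
          exact hiff
        rcases h.fg he hcX with rfl | rfl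
        · rcases hfx with h1 | h1
          · exact hcon.1 h1
          · exact hcon.2 h1
        · rcases hgx with h1 | h1
          · exact hcon.1 h1
          · exact hcon.2 h1
      refine ⟨⟨he, hinc⟩, ?_, ?_⟩
      · rintro rfl
        have h1 := h.fmem.2
        apply hc
        unfold Cr at h1
        rcases hinc with h2 | h2
        · have : G.b e ∉ X := fun h3 => h1 (by simp [h2, hxX, h3])
          simp [h2, this]
        · have : G.a e ∉ X := fun h3 => h1 (by simp [h2, hxX, h3])
          simp [h2, this]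
      · rintro rfl
        have h1 := h.gmem.2
        apply hc
        unfold Cr at h1
        rcases hinc with h2 | h2
        · have : G.b e ∉ X := fun h3 => h1 (by simp [h2, hxX, h3])
          simp [h2, this]
        · have : G.a e ∉ X := fun h3 => h1 (by simp [h2, hxX, h3])
          simp [h2, this]
    · rintro ⟨⟨he, hinc⟩, hef, heg⟩
      refine ⟨he, ?_⟩
      have hnc : ¬ Cr G X e := fun hc => (h.fg he hc).elim hef heg
      unfold Cr at hnc ⊢
      push Not at hnc
      have hne := h.ok.ne e he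
      rcases hinc with h2 | h2
      · have h3 : G.b e ∈ X := hnc.1 (h2 ▸ hxX)
        have h4 : G.b e ≠ x := fun h5 => hne (h2.trans h5.symm)
        simp [h2, h3, h4]
      · have h3 : G.a e ∈ X := hnc.2 (h2 ▸ hxX)
        have h4 : G.a e ≠ x := fun h5 => hne (h5.trans h2.symm)
        simp [h2, h3, h4]
  apply h.ok.br (X.erase x) ((Finset.erase_subset _ _).trans h.sub)
  rw [hcut, Finset.card_sdiff_of_subset, h.ok.deg x (h.sub hxX), Finset.card_pair h.ne]
  intro e he
  simp only [Finset.mem_insert, Finset.mem_singleton] at he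
  rcases he with rfl | rfl
  · exact mem_star.2 ⟨h.fmem.1, hfx⟩
  · exact mem_star.2 ⟨h.gmem.1, hgx⟩

theorem f_not_in (h : Cut2 G X f g) : ¬ (G.a f ∈ X ∧ G.b f ∈ X) := by
  rintro ⟨h1, h2⟩
  exact h.fmem.2 (by simp [h1, h2])

theorem g_not_hb (h : Cut2 G X f g) (A : Finset E) : g ∉ hb G X f A := by
  rw [mem_hb]
  rintro ⟨_, ⟨h1, h2⟩ | h1⟩
  · exact h.gmem.2 (by simp [h1, h2])
  · exact h.ne h1.symm

theorem star_card (h : Cut2 G X f g) {A : Finset E} (hA : A ⊆ G.es) (hfg : f ∈ A ↔ g ∈ A)
    {v : V} (hv : v ∈ X) :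
    (star (half G X f g) (hb G X f A) v).card = (star G A v).card := by
  have hstar : ∀ e, e ≠ f → e ≠ g → (e ∈ star (half G X f g) (hb G X f A) v ↔
      e ∈ star G A v) := by
    intro e hef heg
    simp only [mem_star, mem_hb, half, hef, if_false, or_false]
    constructor
    · rintro ⟨⟨h1, _⟩, h3⟩; exact ⟨h1, h3⟩
    · rintro ⟨h1, h3⟩
      refine ⟨⟨h1, ?_⟩, h3⟩
      have hnc : ¬ Cr G X e := fun hc => (h.fg (hA h1) hc).elim hef heg
      unfold Cr at hnc
      push Not at hnc
      rcases h3 with rfl | rfl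
      · exact ⟨hv, hnc.1 hv⟩
      · exact ⟨hnc.2 hv, hv⟩
  have hfs : f ∈ star (half G X f g) (hb G X f A) v ↔ f ∈ A ∧ (xe G X f = v ∨ xe G X g = v) := by
    simp [mem_star, mem_hb, half]
  have hgs : g ∉ star (half G X f g) (hb G X f A) v := fun hh =>
    h.g_not_hb A (mem_star.1 hh).1
  have hfs' : f ∈ star G A v ↔ f ∈ A ∧ xe G X f = v := by
    rw [mem_star, xe_iff h.fmem.2 hv]
  have hgs' : g ∈ star G A v ↔ g ∈ A ∧ xe G X g = v := by
    rw [mem_star, xe_iff h.gmem.2 hv]
  by_cases h1 : f ∈ A ∧ xe G X g = v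
  · -- replace g by f
    have hgin : g ∈ star G A v := hgs'.2 ⟨hfg.1 h1.1, h1.2⟩
    have hfnin : f ∉ star G A v := by
      rw [hfs']
      rintro ⟨_, h2⟩
      exact h.xne (h2.trans h1.2.symm)
    have hfin : f ∈ star (half G X f g) (hb G X f A) v := hfs.2 ⟨h1.1, Or.inr h1.2⟩
    rw [← Finset.card_erase_add_one hgin, ← Finset.card_erase_add_one hfin]
    congr 2
    ext e
    simp only [Finset.mem_erase]
    by_cases hef : e = f
    · subst hef
      simp [hfnin]
    · by_cases heg : e = g
      · subst heg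
        simp [hgs]
      · simp [hef, heg, hstar e hef heg]
  · have : star (half G X f g) (hb G X f A) v = star G A v := by
      ext e
      by_cases hef : e = f
      · subst hef
        rw [hfs, hfs']
        tauto
      · by_cases heg : e = g
        · subst heg
          rw [hgs']
          constructor
          · exact fun hh => absurd hh hgs
          · rintro ⟨h2, h3⟩
            exact absurd ⟨hfg.2 h2, h3⟩ h1
        · exact hstar e hef heg
    rw [this]

/-- crossing in the half graph, for edges other than `f` -/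
theorem cr_half {Z : Finset V} {e : E} (hef : e ≠ f) :
    Cr (half G X f g) Z e ↔ Cr G Z e := by
  simp [Cr, half, hef]

theorem cr_half_f {Z : Finset V} :
    Cr (half G X f g) Z f ↔ ¬ (xe G X f ∈ Z ↔ xe G X g ∈ Z) := by
  simp [Cr, half]

theorem cr_xe {f : E} (hc : Cr G X f) {Z : Finset V} (hZ : Z ⊆ X) :
    Cr G Z f ↔ xe G X f ∈ Z := by
  unfold Cr at *
  unfold xe
  by_cases h : G.a f ∈ X
  · rw [if_pos h]
    have hb : G.b f ∉ X := fun hb => hc (by simp [h, hb])
    have hb' : G.b f ∉ Z := fun h' => hb (hZ h')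
    simp [hb']
  · rw [if_neg h]
    have ha' : G.a f ∉ Z := fun h' => h (hZ h')
    simp [ha']

theorem half_br (h : Cut2 G X f g) {Z : Finset V} (hZ : Z ⊆ X) :
    (F5.cut (half G X f g) (hb G X f G.es) Z).card ≠ 1 := by
  -- first the case in which not both ends are in Z
  have main : ∀ Z ⊆ X, ¬ (xe G X f ∈ Z ∧ xe G X g ∈ Z) →
      (F5.cut (half G X f g) (hb G X f G.es) Z).card = (F5.cut G G.es Z).card := by
    intro Z hZ hnb
    have hcut : ∀ e, e ≠ f → e ≠ g → (e ∈ F5.cut (half G X f g) (hb G X f G.es) Z ↔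
        e ∈ F5.cut G G.es Z) := by
      intro e hef heg
      simp only [mem_cut, mem_hb, cr_half hef, hef, or_false]
      constructor
      · rintro ⟨⟨h1, _⟩, h2⟩; exact ⟨h1, h2⟩
      · rintro ⟨h1, h2⟩
        refine ⟨⟨h1, ?_⟩, h2⟩
        have hnc : ¬ Cr G X e := fun hc => (h.fg h1 hc).elim hef heg
        unfold Cr at hnc h2
        push Not at hnc
        by_cases h3 : G.a e ∈ Z
        · exact ⟨hZ h3, hnc.1 (hZ h3)⟩
        · have h4 : G.b e ∈ Z := by
            by_contra h5
            exact h2 (by simp [h3, h5])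
          exact ⟨hnc.2 (hZ h4), hZ h4⟩
    have hf1 : f ∈ F5.cut (half G X f g) (hb G X f G.es) Z ↔
        ¬ (xe G X f ∈ Z ↔ xe G X g ∈ Z) := by
      rw [mem_cut, cr_half_f, mem_hb]
      simp [h.fmem.1]
    have hg1 : g ∉ F5.cut (half G X f g) (hb G X f G.es) Z := fun hh =>
      h.g_not_hb _ (mem_cut.1 hh).1
    have hf2 : f ∈ F5.cut G G.es Z ↔ xe G X f ∈ Z := by
      rw [mem_cut, cr_xe h.fmem.2 hZ]; simp [h.fmem.1]
    have hg2 : g ∈ F5.cut G G.es Z ↔ xe G X g ∈ Z := by
      rw [mem_cut, cr_xe h.gmem.2 hZ]; simp [h.gmem.1]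
    by_cases hgZ : xe G X g ∈ Z
    · have hfZ : xe G X f ∉ Z := fun hh => hnb ⟨hh, hgZ⟩
      have hgin := hg2.2 hgZ
      have hfin : f ∈ F5.cut (half G X f g) (hb G X f G.es) Z := hf1.2 (by simp [hgZ, hfZ])
      have hfn : f ∉ F5.cut G G.es Z := fun hh => hfZ (hf2.1 hh)
      rw [← Finset.card_erase_add_one hgin, ← Finset.card_erase_add_one hfin]
      congr 2
      ext e
      simp only [Finset.mem_erase]
      by_cases hef : e = f
      · subst hef; simp [hfn]
      · by_cases heg : e = g
        · subst heg; simp [hg1]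
        · simp [hef, heg, hcut e hef heg]
    · congr 1
      ext e
      by_cases hef : e = f
      · subst hef
        rw [hf1, hf2]
        simp [hgZ]
      · by_cases heg : e = g
        · subst heg
          rw [hg2]
          exact ⟨fun hh => absurd hh hg1, fun hh => absurd hh hgZ⟩
        · exact hcut e hef heg
  by_cases hboth : xe G X f ∈ Z ∧ xe G X g ∈ Z
  · have h1 := main (X \ Z) Finset.sdiff_subset (by
      rintro ⟨h1, _⟩
      exact (Finset.mem_sdiff.1 h1).2 hboth.1)
    have h2 : F5.cut (half G X f g) (hb G X f G.es) (X \ Z) =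
        F5.cut (half G X f g) (hb G X f G.es) Z := by
      ext e
      simp only [mem_cut]
      apply and_congr_right
      intro he
      by_cases hef : e = f
      · subst hef
        rw [cr_half_f, cr_half_f]
        simp [Finset.mem_sdiff, xe_mem h.fmem.2, xe_mem h.gmem.2, hboth.1, hboth.2]
      · rw [cr_half hef, cr_half hef]
        have h3 : G.a e ∈ X ∧ G.b e ∈ X := by
          rw [mem_hb] at he
          rcases he.2 with h4 | h4
          · exact h4
          · exact absurd h4 hef
        simp only [Cr, Finset.mem_sdiff, h3.1, h3.2, true_and]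
        tauto
    rw [← h2, h1]
    exact h.ok.br _ (Finset.sdiff_subset.trans h.sub)
  · rw [main Z hZ hboth]
    exact h.ok.br _ (hZ.trans h.sub)

theorem half_ok (h : Cut2 G X f g) : Ok (half G X f g) where
  ha := by
    intro e he
    change e ∈ hb G X f G.es at he
    rw [mem_hb] at he
    simp only [half]
    by_cases hef : e = f
    · rw [if_pos hef]; exact xe_mem h.fmem.2
    · rw [if_neg hef]
      rcases he.2 with h1 | h1
      · exact h1.1
      · exact absurd h1 hef
  hb := by
    intro e he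
    change e ∈ F5.hb G X f G.es at he
    rw [mem_hb] at he
    simp only [half]
    by_cases hef : e = f
    · rw [if_pos hef]; exact xe_mem h.gmem.2
    · rw [if_neg hef]
      rcases he.2 with h1 | h1
      · exact h1.2
      · exact absurd h1 hef
  ne := by
    intro e he
    change e ∈ F5.hb G X f G.es at he
    rw [mem_hb] at he
    simp only [half]
    by_cases hef : e = f
    · rw [if_pos hef, if_pos hef]; exact h.xne
    · rw [if_neg hef, if_neg hef]; exact h.ok.ne e he.1
  deg := by
    intro v hv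
    change (star (half G X f g) (F5.hb G X f G.es) v).card = 3
    rw [h.star_card (le_refl _) ⟨fun _ => h.gmem.1, fun _ => h.fmem.1⟩ hv]
    exact h.ok.deg v (h.sub hv)
  br := fun Z hZ => h.half_br hZ

theorem F_iff (h : Cut2 G X f g) {F : Finset E} (hF : Ev G F) : f ∈ F ↔ g ∈ F := by
  have h1 := cutF_even h.ok hF h.sub
  have hsub : F5.cut G F X ⊆ {f, g} := by
    rw [← h.cut]; exact cut_mono hF.sub X
  constructor
  · intro hf
    by_contra hg
    have : F5.cut G F X = {f} := by
      ext e
      simp only [mem_cut, Finset.mem_singleton]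
      constructor
      · intro he
        have := hsub (mem_cut.2 he)
        simp only [Finset.mem_insert, Finset.mem_singleton] at this
        rcases this with h2 | h2
        · exact h2
        · exact absurd (h2 ▸ he.1) hg
      · rintro rfl; exact ⟨hf, h.fmem.2⟩
    rw [this] at h1
    simp at h1
  · intro hg
    by_contra hf
    have : F5.cut G F X = {g} := by
      ext e
      simp only [mem_cut, Finset.mem_singleton]
      constructor
      · intro he
        have := hsub (mem_cut.2 he)
        simp only [Finset.mem_insert, Finset.mem_singleton] at this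
        rcases this with h2 | h2
        · exact absurd (h2 ▸ he.1) hf
        · exact h2
      · rintro rfl; exact ⟨hg, h.gmem.2⟩
    rw [this] at h1
    simp at h1

theorem half_ev (h : Cut2 G X f g) {F : Finset E} (hF : Ev G F) :
    Ev (half G X f g) (hb G X f F) where
  sub := Finset.filter_subset_filter _ hF.sub
  deg := by
    intro v hv
    rw [h.star_card hF.sub (h.F_iff hF) hv]
    exact hF.deg v (h.sub hv)

theorem half_TN (h : Cut2 G X f g) {F : Finset E} (hF : Ev G F) {k : ℕ} (hT : TN G F k) :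
    TN (half G X f g) (hb G X f F) k := by
  obtain ⟨R, hR, hk, hcl⟩ := hT
  have hYeven : Even (G.vs \ X).card := by
    have h1 := cut_parity h.ok h.sub
    rw [h.cut, Finset.card_pair h.ne] at h1
    have h2 := Finset.card_sdiff_add_card_eq_card h.sub
    have h3 := vs_even h.ok
    rw [Nat.even_iff] at *
    omega
  -- a closed set not containing the end of f is closed in G
  have hA : ∀ Z ⊆ X, (∀ e ∈ hb G X f F, ¬ Cr (half G X f g) Z e) →
      (f ∈ F → xe G X f ∉ Z) → ∀ e ∈ F, ¬ Cr G Z e := by
    intro Z hZ hc hx e he hcr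
    by_cases hef : e = f
    · subst hef
      rw [cr_xe h.fmem.2 hZ] at hcr
      exact hx he hcr
    · by_cases heg : e = g
      · subst heg
        rw [cr_xe h.gmem.2 hZ] at hcr
        have hfF := (h.F_iff hF).2 he
        apply hc f (mem_hb.2 ⟨hfF, Or.inr rfl⟩)
        rw [cr_half_f]
        simp [hx hfF, hcr]
      · have hnc : ¬ Cr G X e := fun hc => (h.fg (hF.sub he) hc).elim hef heg
        have hboth : G.a e ∈ X ∧ G.b e ∈ X := by
          unfold Cr at hnc hcr
          push Not at hnc
          by_cases h3 : G.a e ∈ Z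
          · exact ⟨hZ h3, hnc.1 (hZ h3)⟩
          · have h4 : G.b e ∈ Z := by
              by_contra h5
              exact hcr (by simp [h3, h5])
            exact ⟨hnc.2 (hZ h4), hZ h4⟩
        exact hc e (mem_hb.2 ⟨he, Or.inl hboth⟩) ((cr_half hef).2 hcr)
  by_cases hcase : f ∈ F ∧ (R \ X).Nonempty
  · refine ⟨insert (xe G X f) (R ∩ X), ?_, ?_, ?_⟩
    · intro v hv
      rcases Finset.mem_insert.1 hv with rfl | hv
      · exact xe_mem h.fmem.2
      · exact (Finset.mem_inter.1 hv).2
    · have h1 := Finset.card_insert_le (xe G X f) (R ∩ X)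
      have h2 := Finset.card_sdiff_add_card_inter R X
      have h4 := Finset.card_pos.2 hcase.2
      omega
    · intro Z hZ hc hdis
      have hxZ : xe G X f ∉ Z := fun hh =>
        (Finset.disjoint_left.1 hdis hh) (Finset.mem_insert_self _ _)
      apply hcl Z (Finset.Subset.trans hZ h.sub) (hA Z hZ hc (fun _ => hxZ))
      rw [Finset.disjoint_left]
      intro v hv hvR
      exact (Finset.disjoint_left.1 hdis hv)
        (Finset.mem_insert_of_mem (Finset.mem_inter.2 ⟨hvR, hZ hv⟩))
  · refine ⟨R ∩ X, Finset.inter_subset_right, ?_, ?_⟩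
    · exact (Finset.card_le_card Finset.inter_subset_left).trans hk
    · intro Z hZ hc hdis
      by_cases hx : f ∈ F → xe G X f ∉ Z
      · apply hcl Z (Finset.Subset.trans hZ h.sub) (hA Z hZ hc hx)
        rw [Finset.disjoint_left]
        intro v hv hvR
        exact (Finset.disjoint_left.1 hdis hv) (Finset.mem_inter.2 ⟨hvR, hZ hv⟩)
      · push Not at hx
        obtain ⟨hfF, hxZ⟩ := hx
        have hRX : R ⊆ X := by
          by_contra hcon
          apply hcase
          refine ⟨hfF, ?_⟩
          rw [Finset.sdiff_nonempty]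
          exact hcon
        have hgZ : xe G X g ∈ Z := by
          by_contra hcon
          apply hc f (mem_hb.2 ⟨hfF, Or.inr rfl⟩)
          rw [cr_half_f]
          simp [hxZ, hcon]
        have hdj : Disjoint Z (G.vs \ X) := by
          rw [Finset.disjoint_left]
          intro v hv hv2
          exact (Finset.mem_sdiff.1 hv2).2 (hZ hv)
        have h5 := hcl (Z ∪ (G.vs \ X)) (Finset.union_subset (Finset.Subset.trans hZ h.sub) Finset.sdiff_subset)
          (by
            intro e he hcr
            have hes := hF.sub he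
            have hav := h.ok.ha e hes
            have hbv := h.ok.hb e hes
            unfold Cr at hcr
            simp only [Finset.mem_union, Finset.mem_sdiff, hav, hbv, true_and] at hcr
            by_cases hcX : Cr G X e
            · have hends : ∀ v, (G.a e = v ∨ G.b e = v) → v ∈ X → v ∈ Z := by
                intro v hv hvX
                rcases h.fg hes hcX with rfl | rfl
                · rw [xe_iff h.fmem.2 hvX] at hv
                  exact hv ▸ hxZ
                · rw [xe_iff h.gmem.2 hvX] at hv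
                  exact hv ▸ hgZ
              apply hcr
              constructor
              · intro _
                by_cases h6 : G.b e ∈ X
                · exact Or.inl (hends _ (Or.inr rfl) h6)
                · exact Or.inr h6
              · intro _
                by_cases h6 : G.a e ∈ X
                · exact Or.inl (hends _ (Or.inl rfl) h6)
                · exact Or.inr h6
            · have hef : e ≠ f := fun hh => hcX (hh ▸ h.fmem.2)
              unfold Cr at hcX
              push Not at hcX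
              by_cases h6 : G.a e ∈ X
              · have h7 := hcX.1 h6
                have h8 := hc e (mem_hb.2 ⟨he, Or.inl ⟨h6, h7⟩⟩)
                rw [cr_half hef] at h8
                unfold Cr at h8
                push Not at h8
                apply hcr
                simp [h6, h7, h8]
              · have h7 : G.b e ∉ X := fun hh => h6 (hcX.2 hh)
                apply hcr
                simp [h6, h7])
          (by
            rw [Finset.disjoint_left]
            intro v hv hvR
            rcases Finset.mem_union.1 hv with h6 | h6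
            · exact (Finset.disjoint_left.1 hdis h6) (Finset.mem_inter.2 ⟨hvR, hRX hvR⟩)
            · exact (Finset.mem_sdiff.1 h6).2 (hRX hvR))
        rw [Finset.card_union_of_disjoint hdj] at h5
        rw [Nat.even_iff] at *
        omega

/-- evenness on one side -/
theorem half_even (h : Cut2 G X f g) {F N : Finset E} (hF : Ev G F)
    (hN1 : PM (half G X f g) (hb G X f N)) (hg1 : Good (half G X f g) (hb G X f F) (hb G X f N))
    {W : Finset V} (hcr : ∀ e ∈ G.es, Cr G W e → e ∈ N ∧ e ∉ F) :
    Even (W ∩ X).card := by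
  have hG1 := h.half_ok
  have hF1 := h.half_ev hF
  have hsub : W ∩ X ⊆ (half G X f g).vs := Finset.inter_subset_right
  have hother : ∀ e ∈ (half G X f g).es, Cr (half G X f g) (W ∩ X) e → e ≠ f →
      e ∈ hb G X f N ∧ e ∉ hb G X f F := by
    intro e he hc hef
    change e ∈ hb G X f G.es at he
    rw [mem_hb] at he
    have hboth : G.a e ∈ X ∧ G.b e ∈ X := by
      rcases he.2 with h1 | h1
      · exact h1
      · exact absurd h1 hef
    rw [cr_half hef] at hc
    have hW : Cr G W e := by
      intro hiff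
      apply hc
      simp only [Finset.mem_inter, hboth.1, hboth.2, and_true]
      exact hiff
    have h2 := hcr e he.1 hW
    exact ⟨mem_hb.2 ⟨h2.1, Or.inl hboth⟩, fun h3 => h2.2 (mem_hb.1 h3).1⟩
  by_cases hfN : f ∈ N
  · exact side_even hG1 hF1 hN1 hg1 hsub f (mem_hb.2 ⟨hfN, Or.inr rfl⟩) hother
  · have hfN1 : f ∉ hb G X f N := fun hh => hfN (mem_hb.1 hh).1
    have hfes : f ∈ (half G X f g).es := by
      change f ∈ hb G X f G.es
      exact mem_hb.2 ⟨h.fmem.1, Or.inr rfl⟩
    have hncf : ¬ Cr (half G X f g) (W ∩ X) f := by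
      intro hc
      exact hfN1 (all_in_N hG1 hN1 hsub f (fun e he hc hef => (hother e he hc hef).1) f hfes hc)
    apply hg1 _ hsub
    intro e he hc
    apply hother e he hc
    rintro rfl
    exact hncf hc

end Cut2

open Cut2 in
/-- gluing over a 2-cut -/
theorem glue2_aux {G : Gr V E} {X : Finset V} {f g : E} (h : Cut2 G X f g) {F : Finset E}
    (hF : Ev G F) {N1 N2 : Finset E}
    (hN1 : PM (half G X f g) N1) (hg1 : Good (half G X f g) (hb G X f F) N1)
    (hN2 : PM (half G (G.vs \ X) f g) N2)
    (hg2 : Good (half G (G.vs \ X) f g) (hb G (G.vs \ X) f F) N2)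
    (hff : f ∈ N1 ↔ f ∈ N2) :
    ∃ N, PM G N ∧ Good G F N ∧ N1 ⊆ N ∧ N2 ⊆ N ∧ (f ∈ N1 → g ∈ N) := by
  set N := N1 ∪ N2 ∪ (if f ∈ N1 then {g} else ∅) with hNdef
  have hmemN : ∀ e, e ∈ N ↔ e ∈ N1 ∨ e ∈ N2 ∨ (e = g ∧ f ∈ N1) := by
    intro e
    rw [hNdef]
    by_cases hf : f ∈ N1
    · simp only [hf, if_true, Finset.mem_union, Finset.mem_singleton, and_true]
      tauto
    · simp [hf]
  have hs1 : ∀ e ∈ N1, e ∈ G.es ∧ ((G.a e ∈ X ∧ G.b e ∈ X) ∨ e = f) := fun e he =>
    mem_hb.1 (hN1.sub he)
  have hs2 : ∀ e ∈ N2, e ∈ G.es ∧ ((G.a e ∈ G.vs \ X ∧ G.b e ∈ G.vs \ X) ∨ e = f) :=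
    fun e he => mem_hb.1 (hN2.sub he)
  have hgX : ¬ (G.a g ∈ X ∧ G.b g ∈ X) := by
    rintro ⟨h1, h2⟩; exact h.gmem.2 (by simp [h1, h2])
  have hgY : ¬ (G.a g ∈ G.vs \ X ∧ G.b g ∈ G.vs \ X) := by
    rintro ⟨h1, h2⟩
    exact h.symm_side.gmem.2 (by simp only [h1, h2])
  have hb1 : hb G X f N = N1 := by
    ext e
    rw [mem_hb, hmemN]
    constructor
    · rintro ⟨h1 | h1 | h1, h2⟩
      · exact h1
      · rcases h2 with h2 | rfl
        · rcases (hs2 e h1).2 with h3 | rfl
          · exact absurd h2.1 (Finset.mem_sdiff.1 h3.1).2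
          · exact hff.2 h1
        · exact hff.2 h1
      · rcases h2 with h2 | h2
        · exact absurd (h1.1 ▸ h2) hgX
        · exact absurd (h2.symm.trans h1.1) h.ne
    · intro h1
      exact ⟨Or.inl h1, (hs1 e h1).2⟩
  have hb2 : hb G (G.vs \ X) f N = N2 := by
    ext e
    rw [mem_hb, hmemN]
    constructor
    · rintro ⟨h1 | h1 | h1, h2⟩
      · rcases h2 with h2 | rfl
        · rcases (hs1 e h1).2 with h3 | rfl
          · exact absurd h3.1 (Finset.mem_sdiff.1 h2.1).2
          · exact hff.1 h1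
        · exact hff.1 h1
      · exact h1
      · rcases h2 with h2 | h2
        · exact absurd (h1.1 ▸ h2) hgY
        · exact absurd (h2.symm.trans h1.1) h.ne
    · intro h1
      exact ⟨Or.inr (Or.inl h1), (hs2 e h1).2⟩
  have hNes : N ⊆ G.es := by
    intro e he
    rcases (hmemN e).1 he with h1 | h1 | h1
    · exact (hs1 e h1).1
    · exact (hs2 e h1).1
    · exact h1.1 ▸ h.gmem.1
  have hfg : f ∈ N ↔ g ∈ N := by
    rw [hmemN, hmemN]
    have h1 : g ∉ N1 := by
      rw [← hb1]; exact h.g_not_hb _
    have h2 : g ∉ N2 := by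
      rw [← hb2]; exact h.symm_side.g_not_hb _
    have h3 : f ≠ g := h.ne
    constructor
    · rintro (h4 | h4 | h4)
      · exact Or.inr (Or.inr ⟨rfl, h4⟩)
      · exact Or.inr (Or.inr ⟨rfl, hff.2 h4⟩)
      · exact absurd h4.1 h3
    · rintro (h4 | h4 | h4)
      · exact absurd h4 h1
      · exact absurd h4 h2
      · exact Or.inl h4.2
  refine ⟨N, ⟨hNes, ?_⟩, ?_, ?_, ?_, ?_⟩
  · intro v hv
    by_cases hvX : v ∈ X
    · rw [← h.star_card hNes hfg hvX, hb1]
      exact hN1.deg v hvX
    · have hvY : v ∈ G.vs \ X := Finset.mem_sdiff.2 ⟨hv, hvX⟩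
      rw [← h.symm_side.star_card hNes hfg hvY, hb2]
      exact hN2.deg v hvY
  · intro W hW hcr
    have h1 := half_even h hF (N := N) (by rw [hb1]; exact hN1) (by rw [hb1]; exact hg1)
      (W := W) hcr
    have h2 := half_even h.symm_side hF (N := N) (by rw [hb2]; exact hN2)
      (by rw [hb2]; exact hg2) (W := W) hcr
    have h3 : W ∩ (G.vs \ X) = W \ X := by
      ext v
      simp only [Finset.mem_inter, Finset.mem_sdiff]
      constructor
      · rintro ⟨h4, _, h5⟩; exact ⟨h4, h5⟩
      · rintro ⟨h4, h5⟩; exact ⟨h4, hW h4, h5⟩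
    rw [h3] at h2
    rw [← Finset.card_sdiff_add_card_inter W X]
    exact h2.add h1
  · intro e he; exact (hmemN e).2 (Or.inl he)
  · intro e he; exact (hmemN e).2 (Or.inr (Or.inl he))
  · intro hf; exact (hmemN g).2 (Or.inr (Or.inr ⟨rfl, hf⟩))

open Cut2 in
theorem other_edge {G : Gr V E} {X : Finset V} {f g : E} (h : Cut2 G X f g) {F : Finset E}
    (h1 : Root (half G X f g) F) :
    ∃ N, PM (half G X f g) N ∧ Good (half G X f g) F N ∧ f ∉ N := by
  have hv : xe G X f ∈ (half G X f g).vs := xe_mem h.fmem.2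
  have hdeg := h.half_ok.deg _ hv
  have hfs : f ∈ star (half G X f g) (half G X f g).es (xe G X f) := by
    rw [mem_star]
    refine ⟨mem_hb.2 ⟨h.fmem.1, Or.inr rfl⟩, Or.inl ?_⟩
    simp [half]
  obtain ⟨e, he, hef⟩ := Finset.exists_mem_ne (s := star (half G X f g) (half G X f g).es
    (xe G X f)) (by omega) f
  obtain ⟨N, hN, heN, hg⟩ := h1 e (mem_star.1 he).1
  refine ⟨N, hN, hg, fun hfN => ?_⟩
  have hd := hN.deg _ hv
  obtain ⟨c, hc⟩ := Finset.card_eq_one.1 hd
  have h2 : e ∈ star (half G X f g) N (xe G X f) := mem_star.2 ⟨heN, (mem_star.1 he).2⟩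
  have h3 : f ∈ star (half G X f g) N (xe G X f) := mem_star.2 ⟨hfN, (mem_star.1 hfs).2⟩
  rw [hc, Finset.mem_singleton] at h2 h3
  exact hef (h2.trans h3.symm)

open Cut2 in
theorem glue2_side {G : Gr V E} {X : Finset V} {f g : E} (h : Cut2 G X f g) {F : Finset E}
    (hF : Ev G F) (h1 : Root (half G X f g) (hb G X f F))
    (h2 : Root (half G (G.vs \ X) f g) (hb G (G.vs \ X) f F))
    {e : E} (he : e ∈ hb G X f G.es) : ∃ N, PM G N ∧ e ∈ N ∧ Good G F N := by
  obtain ⟨N1, hN1, he1, hg1⟩ := h1 e he
  by_cases hf : f ∈ N1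
  · obtain ⟨N2, hN2, hf2, hg2⟩ := h2 f (mem_hb.2 ⟨h.fmem.1, Or.inr rfl⟩)
    obtain ⟨N, hN, hg, hs1, -, -⟩ := glue2_aux h hF hN1 hg1 hN2 hg2 (by simp [hf, hf2])
    exact ⟨N, hN, hs1 he1, hg⟩
  · obtain ⟨N2, hN2, hg2, hf2⟩ := other_edge h.symm_side h2
    obtain ⟨N, hN, hg, hs1, -, -⟩ := glue2_aux h hF hN1 hg1 hN2 hg2 (by simp [hf, hf2])
    exact ⟨N, hN, hs1 he1, hg⟩

open Cut2 in
theorem glue2 {G : Gr V E} {X : Finset V} {f g : E} (h : Cut2 G X f g) {F : Finset E}
    (hF : Ev G F) (h1 : Root (half G X f g) (hb G X f F))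
    (h2 : Root (half G (G.vs \ X) f g) (hb G (G.vs \ X) f F)) : Root G F := by
  intro e he
  by_cases hcr : Cr G X e
  · rcases h.fg he hcr with rfl | rfl
    · exact glue2_side h hF h1 h2 (mem_hb.2 ⟨he, Or.inr rfl⟩)
    · obtain ⟨N1, hN1, he1, hg1⟩ := h1 f (mem_hb.2 ⟨h.fmem.1, Or.inr rfl⟩)
      obtain ⟨N2, hN2, hf2, hg2⟩ := h2 f (mem_hb.2 ⟨h.fmem.1, Or.inr rfl⟩)
      obtain ⟨N, hN, hg, -, -, hs⟩ := glue2_aux h hF hN1 hg1 hN2 hg2 (by simp [he1, hf2])
      exact ⟨N, hN, hs he1, hg⟩
  · unfold Cr at hcr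
    push Not at hcr
    by_cases ha : G.a e ∈ X
    · exact glue2_side h hF h1 h2 (mem_hb.2 ⟨he, Or.inl ⟨ha, hcr.1 ha⟩⟩)
    · have hYY : G.vs \ (G.vs \ X) = X := Finset.sdiff_sdiff_eq_self h.sub
      have hb : G.b e ∉ X := fun hh => ha (hcr.2 hh)
      refine glue2_side h.symm_side hF h2 (by rw [hYY]; exact h1)
        (mem_hb.2 ⟨he, Or.inl ⟨Finset.mem_sdiff.2 ⟨h.ok.ha e he, ha⟩,
          Finset.mem_sdiff.2 ⟨h.ok.hb e he, hb⟩⟩⟩)

end Pool.Agent.H43.F5
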