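/-
helper43: disconnected graphs.
-/
import Pool.Agent.H43.F5.Two

set_option autoImplicit false
set_option linter.unusedSectionVars false

namespace Pool.Agent.H43.F5

variable {V E : Type} [DecidableEq V] [DecidableEq E]

/-- edges of `A` inside `X` -/
def ins (G : Gr V E) (X : Finset V) (A : Finset E) : Finset E :=
  A.filter (fun e => G.a e ∈ X ∧ G.b e ∈ X)

/-- a union of components -/
def ind (G : Gr V E) (X : Finset V) : Gr V E where
  vs := X
  es := ins G X G.es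
  a := G.a
  b := G.b

theorem mem_ins {G : Gr V E} {X : Finset V} {A : Finset E} {e : E} :
    e ∈ ins G X A ↔ e ∈ A ∧ (G.a e ∈ X ∧ G.b e ∈ X) := by
  simp [ins]

/-- no crossing edges -/
structure Cut0 (G : Gr V E) (X : Finset V) : Prop where
  ok : Ok G
  sub : X ⊆ G.vs
  nc : ∀ e ∈ G.es, ¬ Cr G X e

namespace Cut0

variable {G : Gr V E} {X : Finset V}

theorem symm_side (h : Cut0 G X) : Cut0 G (G.vs \ X) where
  ok := h.ok
  sub := Finset.sdiff_subset
  nc := fun e he hc => h.nc e he ((Cr_compl h.ok he).1 hc)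

theorem star_eq (h : Cut0 G X) {A : Finset E} (hA : A ⊆ G.es) {v : V} (hv : v ∈ X) :
    star (ind G X) (ins G X A) v = star G A v := by
  ext e
  simp only [mem_star, mem_ins, ind]
  constructor
  · rintro ⟨⟨h1, _⟩, h2⟩; exact ⟨h1, h2⟩
  · rintro ⟨h1, h2⟩
    have h3 := h.nc e (hA h1)
    unfold Cr at h3
    push Not at h3
    refine ⟨⟨h1, ?_⟩, h2⟩
    rcases h2 with rfl | rfl
    · exact ⟨hv, h3.1 hv⟩
    · exact ⟨h3.2 hv, hv⟩

theorem inside (h : Cut0 G X) {Z : Finset V} (hZ : Z ⊆ X) {e : E} (he : e ∈ G.es)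
    (hc : Cr G Z e) : G.a e ∈ X ∧ G.b e ∈ X := by
  have h3 := h.nc e he
  unfold Cr at h3 hc
  push Not at h3
  by_cases h4 : G.a e ∈ Z
  · exact ⟨hZ h4, h3.1 (hZ h4)⟩
  · have h5 : G.b e ∈ Z := by
      by_contra h6
      exact hc (by simp [h4, h6])
    exact ⟨h3.2 (hZ h5), hZ h5⟩

theorem cut_eq (h : Cut0 G X) {Z : Finset V} (hZ : Z ⊆ X) :
    F5.cut (ind G X) (ins G X G.es) Z = F5.cut G G.es Z := by
  ext e
  simp only [mem_cut, mem_ins]
  constructor
  · rintro ⟨⟨h1, _⟩, h2⟩; exact ⟨h1, h2⟩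
  · rintro ⟨h1, h2⟩; exact ⟨⟨h1, h.inside hZ h1 h2⟩, h2⟩

theorem ind_ok (h : Cut0 G X) : Ok (ind G X) where
  ha := fun e he => (mem_ins.1 he).2.1
  hb := fun e he => (mem_ins.1 he).2.2
  ne := fun e he => h.ok.ne e (mem_ins.1 he).1
  deg := by
    intro v hv
    change (star (ind G X) (ins G X G.es) v).card = 3
    rw [h.star_eq (le_refl _) hv]
    exact h.ok.deg v (h.sub hv)
  br := by
    intro Z hZ
    change (F5.cut (ind G X) (ins G X G.es) Z).card ≠ 1
    rw [h.cut_eq hZ]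
    exact h.ok.br Z (Finset.Subset.trans hZ h.sub)

theorem ind_ev (h : Cut0 G X) {F : Finset E} (hF : Ev G F) : Ev (ind G X) (ins G X F) where
  sub := Finset.filter_subset_filter _ hF.sub
  deg := by
    intro v hv
    rw [h.star_eq hF.sub hv]
    exact hF.deg v (h.sub hv)

theorem ind_TN (h : Cut0 G X) {F : Finset E} (hF : Ev G F) {k : ℕ} (hT : TN G F k) :
    TN (ind G X) (ins G X F) k := by
  obtain ⟨R, _, hk, hcl⟩ := hT
  refine ⟨R ∩ X, Finset.inter_subset_right,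
    (Finset.card_le_card Finset.inter_subset_left).trans hk, ?_⟩
  intro Z hZ hc hdis
  apply hcl Z (Finset.Subset.trans hZ h.sub)
  · intro e he hcr
    exact hc e (mem_ins.2 ⟨he, h.inside hZ (hF.sub he) hcr⟩) hcr
  · rw [Finset.disjoint_left]
    intro v hv hvR
    exact (Finset.disjoint_left.1 hdis hv) (Finset.mem_inter.2 ⟨hvR, hZ hv⟩)

end Cut0

theorem glue0_side {G : Gr V E} {X : Finset V} (h : Cut0 G X) {F : Finset E}
    (hne : (G.vs \ X).Nonempty) (h1 : Root (ind G X) (ins G X F))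
    (h2 : Root (ind G (G.vs \ X)) (ins G (G.vs \ X) F))
    {e : E} (he : e ∈ ins G X G.es) : ∃ N, PM G N ∧ e ∈ N ∧ Good G F N := by
  obtain ⟨N1, hN1, he1, hg1⟩ := h1 e he
  obtain ⟨v, hv⟩ := hne
  have hdeg := h.symm_side.ind_ok.deg v hv
  obtain ⟨e2, he2⟩ : (star (ind G (G.vs \ X)) (ind G (G.vs \ X)).es v).Nonempty := by
    rw [← Finset.card_pos]; omega
  obtain ⟨N2, hN2, -, hg2⟩ := h2 e2 (mem_star.1 he2).1
  have hs1 : ∀ e ∈ N1, e ∈ G.es ∧ (G.a e ∈ X ∧ G.b e ∈ X) := fun e he => mem_ins.1 (hN1.sub he)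
  have hs2 : ∀ e ∈ N2, e ∈ G.es ∧ (G.a e ∈ G.vs \ X ∧ G.b e ∈ G.vs \ X) :=
    fun e he => mem_ins.1 (hN2.sub he)
  have hi1 : ins G X (N1 ∪ N2) = N1 := by
    ext e
    rw [mem_ins, Finset.mem_union]
    constructor
    · rintro ⟨h1 | h1, h2⟩
      · exact h1
      · exact absurd h2.1 (Finset.mem_sdiff.1 (hs2 e h1).2.1).2
    · intro h1; exact ⟨Or.inl h1, (hs1 e h1).2⟩
  have hi2 : ins G (G.vs \ X) (N1 ∪ N2) = N2 := by
    ext e
    rw [mem_ins, Finset.mem_union]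
    constructor
    · rintro ⟨h1 | h1, h2⟩
      · exact absurd (hs1 e h1).2.1 (Finset.mem_sdiff.1 h2.1).2
      · exact h1
    · intro h1; exact ⟨Or.inr h1, (hs2 e h1).2⟩
  have hNes : N1 ∪ N2 ⊆ G.es := by
    intro x hx
    rcases Finset.mem_union.1 hx with h1 | h1
    · exact (hs1 x h1).1
    · exact (hs2 x h1).1
  have hev : ∀ (Y : Finset V) (N' : Finset E), Cut0 G Y →
      Good (ind G Y) (ins G Y F) N' → ins G Y (N1 ∪ N2) = N' →
      ∀ W : Finset V, (∀ e ∈ G.es, Cr G W e → e ∈ N1 ∪ N2 ∧ e ∉ F) → Even (W ∩ Y).card := by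
    intro Y N' _ hg hN' W hcr
    apply hg (W ∩ Y) Finset.inter_subset_right
    intro x hx hc
    have hx' := mem_ins.1 hx
    have hxW : Cr G W x := by
      intro hiff
      apply hc
      simp only [ind, Finset.mem_inter, hx'.2.1, hx'.2.2, and_true]
      exact hiff
    have h3 := hcr x hx'.1 hxW
    refine ⟨?_, fun h4 => h3.2 (mem_ins.1 h4).1⟩
    rw [← hN']
    exact mem_ins.2 ⟨h3.1, hx'.2⟩
  refine ⟨N1 ∪ N2, ⟨hNes, ?_⟩, Finset.mem_union_left _ he1, ?_⟩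
  · intro v hv
    by_cases hvX : v ∈ X
    · rw [← h.star_eq hNes hvX, hi1]
      exact hN1.deg v hvX
    · have hvY : v ∈ G.vs \ X := Finset.mem_sdiff.2 ⟨hv, hvX⟩
      rw [← h.symm_side.star_eq hNes hvY, hi2]
      exact hN2.deg v hvY
  · intro W hW hcr
    have h3 := hev X N1 h hg1 hi1 W hcr
    have h4 := hev (G.vs \ X) N2 h.symm_side hg2 hi2 W hcr
    have h5 : W ∩ (G.vs \ X) = W \ X := by
      ext v
      simp only [Finset.mem_inter, Finset.mem_sdiff]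
      constructor
      · rintro ⟨h4, _, h5⟩; exact ⟨h4, h5⟩
      · rintro ⟨h4, h5⟩; exact ⟨h4, hW h4, h5⟩
    rw [h5] at h4
    rw [← Finset.card_sdiff_add_card_inter W X]
    exact h4.add h3

theorem glue0 {G : Gr V E} {X : Finset V} (h : Cut0 G X) {F : Finset E}
    (hX : X.Nonempty) (hne : (G.vs \ X).Nonempty) (h1 : Root (ind G X) (ins G X F))
    (h2 : Root (ind G (G.vs \ X)) (ins G (G.vs \ X) F)) : Root G F := by
  intro e he
  have hcr := h.nc e he
  unfold Cr at hcr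
  push Not at hcr
  by_cases ha : G.a e ∈ X
  · exact glue0_side h hne h1 h2 (mem_ins.2 ⟨he, ha, hcr.1 ha⟩)
  · have hYY : G.vs \ (G.vs \ X) = X := Finset.sdiff_sdiff_eq_self h.sub
    have hb : G.b e ∉ X := fun hh => ha (hcr.2 hh)
    refine glue0_side h.symm_side (by rw [hYY]; exact hX) h2 (by rw [hYY]; exact h1)
      (mem_ins.2 ⟨he, Finset.mem_sdiff.2 ⟨h.ok.ha e he, ha⟩,
        Finset.mem_sdiff.2 ⟨h.ok.hb e he, hb⟩⟩)

end Pool.Agent.H43.F5
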