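/-
helper43: the induction.
-/
import Pool.Agent.H43.F5.ThreeGlue
import Pool.Agent.H43.F5.Two
import Pool.Agent.H43.F5.Zero
import Pool.Agent.H43.F5.Red

set_option autoImplicit false
set_option linter.unusedSectionVars false

namespace Pool.Agent.H43.F5

variable {V E : Type} [DecidableEq V] [DecidableEq E]

/-- no small cuts -/
structure C4 (G : Gr V E) : Prop where
  ok : Ok G
  c0 : ∀ X ⊆ G.vs, X.Nonempty → (G.vs \ X).Nonempty → 3 ≤ (cut G G.es X).card
  c3 : ∀ X ⊆ G.vs, (cut G G.es X).card = 3 → X.card ≤ 1 ∨ (G.vs \ X).card ≤ 1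
  big : 6 ≤ G.vs.card

theorem exists_Jn {G : Gr V E} {e : E} {v : V} (h : G.a e = v ∨ G.b e = v) :
    ∃ w, Jn G e v w := by
  rcases h with h | h
  · exact ⟨G.b e, Or.inl ⟨h, rfl⟩⟩
  · exact ⟨G.a e, Or.inr ⟨rfl, h⟩⟩

theorem Jn_symm {G : Gr V E} {e : E} {u v : V} (h : Jn G e u v) : Jn G e v u := Or.symm h

theorem Jn_unique {G : Gr V E} {e : E} {u v w : V} (h : Jn G e u v) (h' : Jn G e u w) :
    v = w := by
  rcases h with ⟨h1, h2⟩ | ⟨h1, h2⟩ <;> rcases h' with ⟨h3, h4⟩ | ⟨h3, h4⟩
  · exact h2.symm.trans h4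
  · rw [← h2, h4, ← h1, h3]
  · rw [← h1, h3, ← h2, h4]
  · exact h1.symm.trans h3

theorem Jn_of_end {G : Gr V E} {e : E} {u v z : V} (h : Jn G e u v)
    (hz : G.a e = z ∨ G.b e = z) (hne : z ≠ u) : z = v := by
  rcases h with ⟨h1, h2⟩ | ⟨h1, h2⟩ <;> rcases hz with h3 | h3
  · exact absurd (h3.symm.trans h1) hne
  · exact h3.symm.trans h2
  · exact h3.symm.trans h1
  · exact absurd (h3.symm.trans h2) hne

theorem Jn_left {G : Gr V E} {e : E} {u v : V} (h : Jn G e u v) : G.a e = u ∨ G.b e = u := by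
  rcases h with ⟨h1, _⟩ | ⟨_, h2⟩
  · exact Or.inl h1
  · exact Or.inr h2

theorem Jn_right {G : Gr V E} {e : E} {u v : V} (h : Jn G e u v) : G.a e = v ∨ G.b e = v :=
  Jn_left (Jn_symm h)

theorem Jn_ne {G : Gr V E} (hG : Ok G) {e : E} (he : e ∈ G.es) {u v : V} (h : Jn G e u v) :
    u ≠ v := by
  have := hG.ne e he
  rcases h with ⟨h1, h2⟩ | ⟨h1, h2⟩
  · rw [h1, h2] at this; exact this
  · rw [h1, h2] at this; exact this.symm

theorem end_vs {G : Gr V E} (hG : Ok G) {e : E} (he : e ∈ G.es) {v : V}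
    (h : G.a e = v ∨ G.b e = v) : v ∈ G.vs := by
  rcases h with h | h
  · rw [← h]; exact hG.ha e he
  · rw [← h]; exact hG.hb e he

theorem star_sdiff {G : Gr V E} (hG : Ok G) {v : V} {e f : E} (he : e ∈ G.es)
    (hf : f ∈ G.es) (hne : e ≠ f) (hev : G.a e = v ∨ G.b e = v) (hfv : G.a f = v ∨ G.b f = v) :
    (star G G.es v \ {e, f}).card = 1 := by
  have hsub : ({e, f} : Finset E) ⊆ star G G.es v := by
    intro g hg
    simp only [Finset.mem_insert, Finset.mem_singleton] at hg
    rcases hg with rfl | rfl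
    · exact mem_star.2 ⟨he, hev⟩
    · exact mem_star.2 ⟨hf, hfv⟩
  rw [Finset.card_sdiff_of_subset hsub, hG.deg v (end_vs hG he hev), Finset.card_pair hne]

theorem cr_mem {G : Gr V E} {X : Finset V} {e : E} (h : Cr G X e) :
    ∃ v ∈ X, (G.a e = v ∨ G.b e = v) := by
  unfold Cr at h
  by_cases h1 : G.a e ∈ X
  · exact ⟨_, h1, Or.inl rfl⟩
  · by_cases h2 : G.b e ∈ X
    · exact ⟨_, h2, Or.inr rfl⟩
    · exact absurd (by simp [h1, h2]) h

theorem nocr {G : Gr V E} {X : Finset V} {e : E} {u v : V} (h : Jn G e u v) (hu : u ∈ X)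
    (hv : v ∈ X) : ¬ Cr G X e := by
  rw [SC.Jn_cr h]
  simp [hu, hv]

namespace C4

variable {G : Gr V E}

theorem nopar (h : C4 G) {e f : E} {u v : V} (he : e ∈ G.es) (hf : f ∈ G.es) (hne : e ≠ f)
    (je : Jn G e u v) (jf : Jn G f u v) : False := by
  have huv : u ≠ v := Jn_ne h.ok he je
  have hu := end_vs h.ok he (Jn_left je)
  have hv := end_vs h.ok he (Jn_right je)
  have hX : ({u, v} : Finset V) ⊆ G.vs := by
    intro z hz
    simp only [Finset.mem_insert, Finset.mem_singleton] at hz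
    rcases hz with rfl | rfl
    · exact hu
    · exact hv
  have hcard : ({u, v} : Finset V).card = 2 := Finset.card_pair huv
  have h1 := h.c0 {u, v} hX ⟨u, by simp⟩ (by
    rw [← Finset.card_pos, Finset.card_sdiff_of_subset hX, hcard]
    have := h.big
    omega)
  have h2 : cut G G.es {u, v} ⊆ (star G G.es u \ {e, f}) ∪ (star G G.es v \ {e, f}) := by
    intro g hg
    rw [mem_cut] at hg
    have hge : g ∉ ({e, f} : Finset E) := by
      simp only [Finset.mem_insert, Finset.mem_singleton, not_or]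
      constructor
      · rintro rfl; exact nocr je (by simp) (by simp) hg.2
      · rintro rfl; exact nocr jf (by simp) (by simp) hg.2
    obtain ⟨z, hz, hz2⟩ := cr_mem hg.2
    simp only [Finset.mem_insert, Finset.mem_singleton] at hz
    rw [Finset.mem_union]
    rcases hz with rfl | rfl
    · exact Or.inl (Finset.mem_sdiff.2 ⟨mem_star.2 ⟨hg.1, hz2⟩, hge⟩)
    · exact Or.inr (Finset.mem_sdiff.2 ⟨mem_star.2 ⟨hg.1, hz2⟩, hge⟩)
  have h3 := Finset.card_le_card h2
  have h4 := Finset.card_union_le (star G G.es u \ {e, f}) (star G G.es v \ {e, f})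
  rw [star_sdiff h.ok he hf hne (Jn_left je) (Jn_left jf),
    star_sdiff h.ok he hf hne (Jn_right je) (Jn_right jf)] at h4
  omega

theorem notri (h : C4 G) {e f g : E} {u v w : V} (he : e ∈ G.es) (hf : f ∈ G.es)
    (hg : g ∈ G.es) (je : Jn G e u v) (jf : Jn G f v w) (jg : Jn G g u w) : False := by
  have huv : u ≠ v := Jn_ne h.ok he je
  have hvw : v ≠ w := Jn_ne h.ok hf jf
  have huw : u ≠ w := Jn_ne h.ok hg jg
  have hu := end_vs h.ok he (Jn_left je)
  have hv := end_vs h.ok he (Jn_right je)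
  have hw := end_vs h.ok hf (Jn_right jf)
  have hef : e ≠ f := by
    rintro rfl
    have := Jn_unique (Jn_symm je) jf
    exact huw this
  have heg : e ≠ g := by
    rintro rfl
    exact hvw (Jn_unique je jg)
  have hfg : f ≠ g := by
    rintro rfl
    exact huv (Jn_unique (Jn_symm jg) (Jn_symm jf))
  have hX : ({u, v, w} : Finset V) ⊆ G.vs := by
    intro z hz
    simp only [Finset.mem_insert, Finset.mem_singleton] at hz
    rcases hz with rfl | rfl | rfl
    · exact hu
    · exact hv
    · exact hw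
  have hcard : ({u, v, w} : Finset V).card = 3 := by
    rw [Finset.card_insert_of_notMem (by simp [huv, huw]), Finset.card_pair hvw]
  have hcc : (G.vs \ {u, v, w}).card = G.vs.card - 3 := by
    rw [Finset.card_sdiff_of_subset hX, hcard]
  have hbig := h.big
  have h1 := h.c0 {u, v, w} hX ⟨u, by simp⟩ (by
    rw [← Finset.card_pos, hcc]
    omega)
  have h2 : cut G G.es {u, v, w} ⊆ (star G G.es u \ {e, g}) ∪ (star G G.es v \ {e, f}) ∪
      (star G G.es w \ {f, g}) := by
    intro d hd
    rw [mem_cut] at hd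
    have hde : d ≠ e ∧ d ≠ f ∧ d ≠ g := by
      refine ⟨?_, ?_, ?_⟩
      · rintro rfl; exact nocr je (by simp) (by simp) hd.2
      · rintro rfl; exact nocr jf (by simp) (by simp) hd.2
      · rintro rfl; exact nocr jg (by simp) (by simp) hd.2
    obtain ⟨z, hz, hz2⟩ := cr_mem hd.2
    simp only [Finset.mem_insert, Finset.mem_singleton] at hz
    rw [Finset.mem_union, Finset.mem_union]
    rcases hz with rfl | rfl | rfl
    · exact Or.inl (Or.inl (Finset.mem_sdiff.2 ⟨mem_star.2 ⟨hd.1, hz2⟩, by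
        simp [hde.1, hde.2.2]⟩))
    · exact Or.inl (Or.inr (Finset.mem_sdiff.2 ⟨mem_star.2 ⟨hd.1, hz2⟩, by
        simp [hde.1, hde.2.1]⟩))
    · exact Or.inr (Finset.mem_sdiff.2 ⟨mem_star.2 ⟨hd.1, hz2⟩, by
        simp [hde.2.1, hde.2.2]⟩)
  have h3 := Finset.card_le_card h2
  have h4 := Finset.card_union_le ((star G G.es u \ {e, g}) ∪ (star G G.es v \ {e, f}))
    (star G G.es w \ {f, g})
  have h5 := Finset.card_union_le (star G G.es u \ {e, g}) (star G G.es v \ {e, f})
  rw [star_sdiff h.ok he hg heg (Jn_left je) (Jn_left jg),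
    star_sdiff h.ok he hf hef (Jn_right je) (Jn_left jf)] at h5
  rw [star_sdiff h.ok hf hg hfg (Jn_right jf) (Jn_right jg)] at h4
  have h6 := h.c3 {u, v, w} hX (by omega)
  rw [hcard, hcc] at h6
  omega

/-- an element of the F-star forces degree two -/
theorem _root_.Pool.Agent.H43.F5.Ev.two {F : Finset E} (hF : Ev G F) {v : V} (hv : v ∈ G.vs)
    {e : E} (he : e ∈ F) (hev : G.a e = v ∨ G.b e = v) : (star G F v).card = 2 := by
  rcases hF.deg v hv with h | h
  · rw [Finset.card_eq_zero] at h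
    have := mem_star.2 ⟨he, hev⟩
    rw [h] at this
    simp at this
  · exact h

/-- the third edge -/
theorem third (h : C4 G) {F : Finset E} (hF : Ev G F) {x : V} {k k2 : E} (hk : k ∈ F)
    (hk2 : k2 ∈ F) (hne : k ≠ k2) (hkx : G.a k = x ∨ G.b k = x)
    (hk2x : G.a k2 = x ∨ G.b k2 = x) : ∃ k1 ∈ G.es, k1 ∉ F ∧ (G.a k1 = x ∨ G.b k1 = x) ∧
      k1 ≠ k ∧ k1 ≠ k2 := by
  have h1 := star_sdiff h.ok (hF.sub hk) (hF.sub hk2) hne hkx hk2x
  rw [Finset.card_eq_one] at h1
  obtain ⟨k1, hk1⟩ := h1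
  have h2 : k1 ∈ star G G.es x \ {k, k2} := by rw [hk1]; simp
  simp only [Finset.mem_sdiff, mem_star, Finset.mem_insert, Finset.mem_singleton, not_or] at h2
  refine ⟨k1, h2.1.1, ?_, h2.1.2, h2.2.1, h2.2.2⟩
  intro hk1F
  have hx := end_vs h.ok (hF.sub hk) hkx
  have h3 := hF.two hx hk hkx
  have h4 : ({k, k2, k1} : Finset E) ⊆ star G F x := by
    intro e he
    simp only [Finset.mem_insert, Finset.mem_singleton] at he
    rcases he with rfl | rfl | rfl
    · exact mem_star.2 ⟨hk, hkx⟩
    · exact mem_star.2 ⟨hk2, hk2x⟩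
    · exact mem_star.2 ⟨hk1F, h2.1.2⟩
  have h5 := Finset.card_le_card h4
  rw [h3, Finset.card_insert_of_notMem (by simp [hne, Ne.symm h2.2.1]),
    Finset.card_pair (Ne.symm h2.2.2)] at h5
  omega

/-- there is a configuration at any two F-edges with a common end -/
theorem config (h : C4 G) {F : Finset E} (hF : Ev G F) {x : V} {k k2 : E} (hk : k ∈ F)
    (hk2 : k2 ∈ F) (hne : k ≠ k2) (hkx : G.a k = x ∨ G.b k = x)
    (hk2x : G.a k2 = x ∨ G.b k2 = x) :
    ∃ (y x1 y1 x2 y2 : V) (k1 l1 l2 : E), SC G F x y x1 y1 x2 y2 k k1 k2 l1 l2 := by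
  obtain ⟨k1, hk1, hk1F, hk1x, n1, n2⟩ := h.third hF hk hk2 hne hkx hk2x
  obtain ⟨y, jk⟩ := exists_Jn hkx
  have hkes := hF.sub hk
  have hyv : y ∈ G.vs := end_vs h.ok hkes (Jn_right jk)
  have hy2 := hF.two hyv hk (Jn_right jk)
  obtain ⟨l2, hl2, hl2k⟩ := Finset.exists_mem_ne (s := star G F y) (by omega) k
  rw [mem_star] at hl2
  obtain ⟨l1, hl1, hl1F, hl1y, m1, m2⟩ :=
    h.third hF hk hl2.1 hl2k.symm (Jn_right jk) hl2.2
  obtain ⟨x1, jk1⟩ := exists_Jn hk1x
  obtain ⟨x2, jk2⟩ := exists_Jn hk2x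
  obtain ⟨y1, jl1⟩ := exists_Jn hl1y
  obtain ⟨y2, jl2⟩ := exists_Jn hl2.2
  have hk2es := hF.sub hk2
  have hl2es := hF.sub hl2.1
  have xy : x ≠ y := Jn_ne h.ok hkes jk
  have par : ∀ e ∈ G.es, e ≠ k → (G.a e = x ∨ G.b e = x) → ¬ (G.a e = y ∨ G.b e = y) := by
    intro e he hek hex hey
    obtain ⟨w, jw⟩ := exists_Jn hex
    have hwy : y = w := Jn_of_end jw hey xy.symm
    subst hwy
    exact h.nopar he hkes hek jw jk
  have k1l1 : k1 ≠ l1 := by
    rintro rfl; exact par _ hk1 n1 hk1x hl1y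
  have k1l2 : k1 ≠ l2 := by
    rintro rfl; exact par _ hk1 n1 hk1x hl2.2
  have k2l1 : k2 ≠ l1 := by
    rintro rfl; exact par _ hk2es hne.symm hk2x hl1y
  have k2l2 : k2 ≠ l2 := by
    rintro rfl; exact par _ hk2es hne.symm hk2x hl2.2
  refine ⟨y, x1, y1, x2, y2, k1, l1, l2, ?_⟩
  exact
    { ok := h.ok
      ev := hF
      hk := hk
      hk1 := hk1
      hk1' := hk1F
      hk2 := hk2
      hl1 := hl1
      hl1' := hl1F
      hl2 := hl2.1
      jk := jk
      jk1 := jk1
      jk2 := jk2
      jl1 := jl1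
      jl2 := jl2
      card5 := by
        rw [Finset.card_insert_of_notMem, Finset.card_insert_of_notMem,
          Finset.card_insert_of_notMem, Finset.card_pair m2]
        · simp [k2l1, k2l2]
        · simp [n2, k1l1, k1l2]
        · simp [n1.symm, hne, m1.symm, hl2k.symm]
      x1x := (Jn_ne h.ok hk1 jk1).symm
      x1y := by
        rintro rfl; exact par _ hk1 n1 hk1x (Jn_right jk1)
      x2x := (Jn_ne h.ok hk2es jk2).symm
      x2y := by
        rintro rfl; exact par _ hk2es hne.symm hk2x (Jn_right jk2)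
      y1x := by
        rintro rfl; exact par _ hl1 m1 (Jn_right jl1) hl1y
      y1y := (Jn_ne h.ok hl1 jl1).symm
      y2x := by
        rintro rfl; exact par _ hl2es hl2k (Jn_right jl2) hl2.2
      y2y := (Jn_ne h.ok hl2es jl2).symm
      xy := xy
      x1y1 := by
        rintro rfl
        exact h.notri hkes hl1 hk1 jk jl1 jk1
      x2y2 := by
        rintro rfl
        exact h.notri hkes hl2es hk2es jk jl2 jk2
      c4 := h.c3 }

/-- using a configuration next to the root -/
theorem use_config (h : C4 G) {F : Finset E} {x y x1 y1 x2 y2 : V} {k k1 k2 l1 l2 : E}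
    (hs : SC G F x y x1 y1 x2 y2 k k1 k2 l1 l2)
    (hr : Root (red G x y x1 y1 x2 y2 k k1 k2 l1 l2) (F \ {k, l1, l2})) {e g : E} {z : V}
    (he : e ∈ G.es) (hez : G.a e = z ∨ G.b e = z)
    (hz : (z = x1 ∧ g = k1) ∨ (z = x2 ∧ g = k2)) (heg : e ≠ g) :
    ∃ N, PM G N ∧ e ∈ N ∧ Good G F N := by
  have hgx : Jn G g x z := by
    rcases hz with ⟨rfl, rfl⟩ | ⟨rfl, rfl⟩
    · exact hs.jk1
    · exact hs.jk2
  have hges : g ∈ G.es := by
    rcases hz with ⟨_, rfl⟩ | ⟨_, rfl⟩
    · exact hs.hk1
    · exact hs.k2es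
  have hzx : z ≠ x := (Jn_ne h.ok hges hgx).symm
  have hzy : z ≠ y := by
    rcases hz with ⟨rfl, _⟩ | ⟨rfl, _⟩
    · exact hs.x1y
    · exact hs.x2y
  have hnx : ¬ (G.a e = x ∨ G.b e = x) := by
    intro hex
    obtain ⟨w, jw⟩ := exists_Jn hex
    have hwz : z = w := Jn_of_end jw hez hzx
    subst hwz
    exact h.nopar he hges heg jw hgx
  have hny : ¬ (G.a e = y ∨ G.b e = y) := by
    intro hey
    obtain ⟨w, jw⟩ := exists_Jn hey
    have hwz : z = w := Jn_of_end jw hez hzy
    subst hwz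
    exact h.notri hs.kes he hges hs.jk jw hgx
  have ne0 : e ≠ k := by rintro rfl; exact hnx (Jn_left hs.jk)
  have ne1 : e ≠ k1 := by rintro rfl; exact hnx (Jn_left hs.jk1)
  have ne2 : e ≠ k2 := by rintro rfl; exact hnx (Jn_left hs.jk2)
  have ne3 : e ≠ l1 := by rintro rfl; exact hny (Jn_left hs.jl1)
  have ne4 : e ≠ l2 := by rintro rfl; exact hny (Jn_left hs.jl2)
  obtain ⟨M, hM, heM, hg⟩ := hr e (by
    change e ∈ G.es \ {k, l1, l2}
    simp [he, ne0, ne3, ne4])
  have hzv : z ∈ (red G x y x1 y1 x2 y2 k k1 k2 l1 l2).vs := by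
    change z ∈ G.vs \ {x, y}
    simp [end_vs h.ok he hez, hzx, hzy]
  have hnb : ¬ (k1 ∈ M ∧ k2 ∈ M) := by
    rintro ⟨hm1, hm2⟩
    have h1 := hM.deg z hzv
    have hgM : g ∈ M := by
      rcases hz with ⟨_, rfl⟩ | ⟨_, rfl⟩
      · exact hm1
      · exact hm2
    have hgz : (red G x y x1 y1 x2 y2 k k1 k2 l1 l2).a g = z ∨
        (red G x y x1 y1 x2 y2 k k1 k2 l1 l2).b g = z := by
      left
      rcases hz with ⟨hz1, hz2⟩ | ⟨hz1, hz2⟩
      · simp [red, hz1, hz2]
      · have := (SC.dist hs.card5).2.2.2.2.1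
        simp [red, hz1, hz2, this.symm]
    have hez' : (red G x y x1 y1 x2 y2 k k1 k2 l1 l2).a e = z ∨
        (red G x y x1 y1 x2 y2 k k1 k2 l1 l2).b e = z := by
      rw [SC.red_inc_other ne1 ne2]
      exact hez
    have h2 : ({e, g} : Finset E) ⊆ star (red G x y x1 y1 x2 y2 k k1 k2 l1 l2) M z := by
      intro d hd
      simp only [Finset.mem_insert, Finset.mem_singleton] at hd
      rcases hd with rfl | rfl
      · exact mem_star.2 ⟨heM, hez'⟩
      · exact mem_star.2 ⟨hgM, hgz⟩
    have h3 := Finset.card_le_card h2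
    rw [Finset.card_pair heg, h1] at h3
    omega
  obtain ⟨N, hN, hgN, hMN⟩ := hs.lift_exists hM hg hnb
  exact ⟨N, hN, hMN heM, hgN⟩

/-- a vertex off F lies in every set of representatives -/
theorem _root_.Pool.Agent.H43.F5.off_mem {F : Finset E} {R : Finset V}
    (hcl : ∀ X ⊆ G.vs, (∀ e ∈ F, ¬ Cr G X e) → Disjoint X R → Even X.card) {v : V}
    (hv : v ∈ G.vs) (h0 : (star G F v).card = 0) (hR : R ⊆ G.vs) : v ∈ R := by
  by_contra hvR
  have h1 := hcl {v} (by simpa using hv) (by
    intro e he hc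
    obtain ⟨w, hw, hw2⟩ := cr_mem hc
    rw [Finset.mem_singleton] at hw
    subst hw
    rw [Finset.card_eq_zero] at h0
    have := mem_star.2 ⟨he, hw2⟩
    rw [h0] at this
    simp at this) (by simpa using hvR)
  simp at h1

/-- the three edges at an end of e -/
theorem star3 (h : C4 G) {e : E} {u : V} (he : e ∈ G.es) (heu : G.a e = u ∨ G.b e = u) :
    ∃ g1 ∈ G.es, ∃ g2 ∈ G.es, ∃ u1 u2, g1 ≠ e ∧ g2 ≠ e ∧ g1 ≠ g2 ∧ Jn G g1 u u1 ∧
      Jn G g2 u u2 := by
  have hu := end_vs h.ok he heu
  have h1 : (star G G.es u \ {e}).card = 2 := by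
    rw [Finset.card_sdiff_of_subset (by simpa using mem_star.2 ⟨he, heu⟩), h.ok.deg u hu]
    simp
  rw [Finset.card_eq_two] at h1
  obtain ⟨g1, g2, hne, hg⟩ := h1
  have m1 : g1 ∈ star G G.es u \ {e} := by rw [hg]; simp
  have m2 : g2 ∈ star G G.es u \ {e} := by rw [hg]; simp
  simp only [Finset.mem_sdiff, mem_star, Finset.mem_singleton] at m1 m2
  obtain ⟨u1, j1⟩ := exists_Jn m1.1.2
  obtain ⟨u2, j2⟩ := exists_Jn m2.1.2
  exact ⟨g1, m1.1.1, g2, m2.1.1, u1, u2, m1.2, m2.2, hne, j1, j2⟩

/-- one step at an end of the root edge -/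
theorem step (h : C4 G) {F : Finset E} (hF : Ev G F) {e g : E} {z x : V} (he : e ∈ G.es)
    (hg : g ∈ G.es) (hge : g ≠ e) (hez : G.a e = z ∨ G.b e = z) (jg : Jn G g z x)
    (hx2 : (star G F x).card ≠ 0)
    (ih : ∀ (x y x1 y1 x2 y2 : V) (k k1 k2 l1 l2 : E),
      SC G F x y x1 y1 x2 y2 k k1 k2 l1 l2 →
      Root (red G x y x1 y1 x2 y2 k k1 k2 l1 l2) (F \ {k, l1, l2})) :
    ∃ N, PM G N ∧ e ∈ N ∧ Good G F N := by
  have hxv := end_vs h.ok hg (Jn_right jg)
  have hx2' : (star G F x).card = 2 := by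
    rcases hF.deg x hxv with h1 | h1
    · exact absurd h1 hx2
    · exact h1
  by_cases hgF : g ∈ F
  · obtain ⟨k, hk, hkg⟩ := Finset.exists_mem_ne (s := star G F x) (by omega) g
    rw [mem_star] at hk
    obtain ⟨y, x1, y1, x2, y2, k1, l1, l2, hs⟩ :=
      h.config hF hk.1 hgF hkg hk.2 (Jn_right jg)
    have hz : z = x2 := Jn_unique (Jn_symm jg) hs.jk2
    exact h.use_config hs (ih _ _ _ _ _ _ _ _ _ _ _ hs) he hez (Or.inr ⟨hz, rfl⟩) hge.symm
  · rw [Finset.card_eq_two] at hx2'
    obtain ⟨k, k2, hne, hst⟩ := hx2'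
    have hk : k ∈ star G F x := by rw [hst]; simp
    have hk2 : k2 ∈ star G F x := by rw [hst]; simp
    rw [mem_star] at hk hk2
    obtain ⟨y, x1, y1, x2, y2, k1, l1, l2, hs⟩ :=
      h.config hF hk.1 hk2.1 hne hk.2 hk2.2
    have hgk1 : g = k1 := by
      have h1 : g ∈ star G G.es x := mem_star.2 ⟨hg, Jn_right jg⟩
      rw [hs.starx] at h1
      simp only [Finset.mem_insert, Finset.mem_singleton] at h1
      rcases h1 with h1 | h1 | h1
      · rw [h1] at hgF; exact absurd hk.1 hgF
      · exact h1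
      · rw [h1] at hgF; exact absurd hk2.1 hgF
    subst hgk1
    have hz : z = x1 := Jn_unique (Jn_symm jg) hs.jk1
    exact h.use_config hs (ih _ _ _ _ _ _ _ _ _ _ _ hs) he hez (Or.inl ⟨hz, rfl⟩) hge.symm

/-- the case without small cuts -/
theorem root (h : C4 G) {F : Finset E} (hF : Ev G F) (hT : TN G F 5)
    (ih : ∀ (x y x1 y1 x2 y2 : V) (k k1 k2 l1 l2 : E),
      SC G F x y x1 y1 x2 y2 k k1 k2 l1 l2 →
      Root (red G x y x1 y1 x2 y2 k k1 k2 l1 l2) (F \ {k, l1, l2})) : Root G F := by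
  intro e he
  obtain ⟨u, w, je⟩ : ∃ u w, Jn G e u w := ⟨G.a e, G.b e, Or.inl ⟨rfl, rfl⟩⟩
  obtain ⟨g1, hg1, g2, hg2, u1, u2, ng1, ng2, ng12, jg1, jg2⟩ := h.star3 he (Jn_left je)
  obtain ⟨f1, hf1, f2, hf2, w1, w2, nf1, nf2, nf12, jf1, jf2⟩ := h.star3 he (Jn_right je)
  by_cases c1 : (star G F u1).card = 0
  swap
  · exact h.step hF he hg1 ng1 (Jn_left je) jg1 c1 ih
  by_cases c2 : (star G F u2).card = 0
  swap
  · exact h.step hF he hg2 ng2 (Jn_left je) jg2 c2 ih
  by_cases c3 : (star G F w1).card = 0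
  swap
  · exact h.step hF he hf1 nf1 (Jn_right je) jf1 c3 ih
  by_cases c4 : (star G F w2).card = 0
  swap
  · exact h.step hF he hf2 nf2 (Jn_right je) jf2 c4 ih
  exfalso
  obtain ⟨R, hR, hk, hcl⟩ := hT
  -- u and w are off F
  have noF : ∀ {g : E} {p q : V}, Jn G g p q → (star G F q).card = 0 → g ∉ F := by
    intro g p q jg h0 hgF
    rw [Finset.card_eq_zero] at h0
    have := mem_star.2 ⟨hgF, Jn_right jg⟩
    rw [h0] at this
    simp at this
  have off : ∀ {p p1 p2 : V} {d1 d2 : E}, (G.a e = p ∨ G.b e = p) → d1 ∈ G.es → d2 ∈ G.es →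
      d1 ≠ e → d2 ≠ e → d1 ≠ d2 → Jn G d1 p p1 → Jn G d2 p p2 → (star G F p1).card = 0 →
      (star G F p2).card = 0 → (star G F p).card = 0 := by
    intro p p1 p2 d1 d2 hep hd1 hd2 n1 n2 n12 j1 j2 z1 z2
    have hpv := end_vs h.ok he hep
    rcases hF.deg p hpv with h1 | h1
    · exact h1
    · exfalso
      have hs : star G F p ⊆ (star G G.es p).erase d1 \ {d2} := by
        intro d hd
        rw [mem_star] at hd
        simp only [Finset.mem_sdiff, Finset.mem_erase, Finset.mem_singleton, mem_star]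
        refine ⟨⟨?_, hF.sub hd.1, hd.2⟩, ?_⟩
        · rintro rfl; exact noF j1 z1 hd.1
        · rintro rfl; exact noF j2 z2 hd.1
      have h2 := Finset.card_le_card hs
      have h3 : ((star G G.es p).erase d1 \ {d2}).card = 1 := by
        rw [Finset.card_sdiff_of_subset, Finset.card_erase_of_mem, h.ok.deg p hpv]
        · simp
        · exact mem_star.2 ⟨hd1, Jn_left j1⟩
        · rw [Finset.singleton_subset_iff]
          exact Finset.mem_erase.2 ⟨n12.symm, mem_star.2 ⟨hd2, Jn_left j2⟩⟩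
      omega
  have cu := off (Jn_left je) hg1 hg2 ng1 ng2 ng12 jg1 jg2 c1 c2
  have cw := off (Jn_right je) hf1 hf2 nf1 nf2 nf12 jf1 jf2 c3 c4
  have vu := end_vs h.ok he (Jn_left je)
  have vw := end_vs h.ok he (Jn_right je)
  have vu1 := end_vs h.ok hg1 (Jn_right jg1)
  have vu2 := end_vs h.ok hg2 (Jn_right jg2)
  have vw1 := end_vs h.ok hf1 (Jn_right jf1)
  have vw2 := end_vs h.ok hf2 (Jn_right jf2)
  have hsub : ({u, w, u1, u2, w1, w2} : Finset V) ⊆ R := by
    intro v hv
    simp only [Finset.mem_insert, Finset.mem_singleton] at hv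
    rcases hv with rfl | rfl | rfl | rfl | rfl | rfl
    · exact off_mem hcl vu cu hR
    · exact off_mem hcl vw cw hR
    · exact off_mem hcl vu1 c1 hR
    · exact off_mem hcl vu2 c2 hR
    · exact off_mem hcl vw1 c3 hR
    · exact off_mem hcl vw2 c4 hR
  have huw : u ≠ w := Jn_ne h.ok he je
  have huu1 : u ≠ u1 := Jn_ne h.ok hg1 jg1
  have huu2 : u ≠ u2 := Jn_ne h.ok hg2 jg2
  have hww1 : w ≠ w1 := Jn_ne h.ok hf1 jf1
  have hww2 : w ≠ w2 := Jn_ne h.ok hf2 jf2
  have huw1 : u ≠ w1 := by
    rintro rfl; exact h.nopar he hf1 nf1.symm je (Jn_symm jf1)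
  have huw2 : u ≠ w2 := by
    rintro rfl; exact h.nopar he hf2 nf2.symm je (Jn_symm jf2)
  have hwu1 : w ≠ u1 := by
    rintro rfl; exact h.nopar he hg1 ng1.symm je jg1
  have hwu2 : w ≠ u2 := by
    rintro rfl; exact h.nopar he hg2 ng2.symm je jg2
  have hu12 : u1 ≠ u2 := by
    rintro rfl; exact h.nopar hg1 hg2 ng12 jg1 jg2
  have hw12 : w1 ≠ w2 := by
    rintro rfl; exact h.nopar hf1 hf2 nf12 jf1 jf2
  have h11 : u1 ≠ w1 := by
    rintro rfl; exact h.notri he hf1 hg1 je jf1 jg1
  have h12 : u1 ≠ w2 := by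
    rintro rfl; exact h.notri he hf2 hg1 je jf2 jg1
  have h21 : u2 ≠ w1 := by
    rintro rfl; exact h.notri he hf1 hg2 je jf1 jg2
  have h22 : u2 ≠ w2 := by
    rintro rfl; exact h.notri he hf2 hg2 je jf2 jg2
  have h6 : ({u, w, u1, u2, w1, w2} : Finset V).card = 6 := by
    rw [Finset.card_insert_of_notMem, Finset.card_insert_of_notMem,
      Finset.card_insert_of_notMem, Finset.card_insert_of_notMem, Finset.card_pair hw12]
    · simp [h21, h22]
    · simp [hu12, h11, h12]
    · simp [hwu1, hwu2, hww1, hww2]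
    · simp [huw, huu1, huu2, huw1, huw2]
  have := Finset.card_le_card hsub
  omega

end C4

/-- at most four vertices: every perfect matching is good -/
theorem good_small {G : Gr V E} (hG : Ok G) {F N : Finset E} (hN : PM G N)
    (h4 : G.vs.card ≤ 4) : Good G F N := by
  have hone : ∀ X ⊆ G.vs, X.card = 1 → (∀ e ∈ G.es, Cr G X e → e ∈ N) → False := by
    intro X hX h1 hcr
    rw [Finset.card_eq_one] at h1
    obtain ⟨v, rfl⟩ := h1
    have hv : v ∈ G.vs := by simpa using hX
    have h2 : star G G.es v ⊆ star G N v := by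
      intro e he
      rw [mem_star] at he
      refine mem_star.2 ⟨hcr e he.1 ?_, he.2⟩
      unfold Cr
      simp only [Finset.mem_singleton]
      have := hG.ne e he.1
      rcases he.2 with h3 | h3
      · intro h4
        exact this (h3.trans (h4.1 h3).symm)
      · intro h4
        exact this ((h4.2 h3).trans h3.symm)
    have h3 := Finset.card_le_card h2
    rw [hG.deg v hv, hN.deg v hv] at h3
    omega
  intro X hX hcr
  by_contra hodd
  rw [Nat.not_even_iff] at hodd
  have h1 := vs_even hG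
  rw [Nat.even_iff] at h1
  have h2 := Finset.card_sdiff_add_card_eq_card hX
  by_cases hX1 : X.card = 1
  · exact hone X hX hX1 (fun e he hc => (hcr e he hc).1)
  · apply hone (G.vs \ X) Finset.sdiff_subset (by omega)
    intro e he hc
    exact (hcr e he ((Cr_compl hG he).1 hc)).1

theorem root_small {G : Gr V E} (hG : Ok G) {F : Finset E}
    (h4 : G.vs.card ≤ 4) : Root G F := by
  intro e he
  obtain ⟨u, w, je⟩ : ∃ u w, Jn G e u w := ⟨G.a e, G.b e, Or.inl ⟨rfl, rfl⟩⟩
  have hu := end_vs hG he (Jn_left je)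
  have hw := end_vs hG he (Jn_right je)
  have huw := Jn_ne hG he je
  have hev := vs_even hG
  rw [Nat.even_iff] at hev
  have hsub : ({u, w} : Finset V) ⊆ G.vs := by
    intro z hz
    simp only [Finset.mem_insert, Finset.mem_singleton] at hz
    rcases hz with rfl | rfl
    · exact hu
    · exact hw
  have hc : (G.vs \ {u, w}).card = G.vs.card - 2 := by
    rw [Finset.card_sdiff_of_subset hsub, Finset.card_pair huw]
  have hle := Finset.card_le_card hsub
  rw [Finset.card_pair huw] at hle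
  suffices hN : ∃ N, PM G N ∧ e ∈ N by
    obtain ⟨N, hN, heN⟩ := hN
    exact ⟨N, hN, heN, good_small hG hN h4⟩
  by_cases h2 : G.vs.card = 2
  · refine ⟨{e}, ⟨by simpa using he, ?_⟩, by simp⟩
    intro v hv
    have hv2 : v ∈ ({u, w} : Finset V) := by
      by_contra hn
      have : v ∈ G.vs \ {u, w} := Finset.mem_sdiff.2 ⟨hv, hn⟩
      have h5 := Finset.card_pos.2 ⟨v, this⟩
      omega
    have : star G {e} v = {e} := by
      ext d
      rw [mem_star, Finset.mem_singleton]
      constructor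
      · rintro ⟨h1, _⟩; exact h1
      · rintro rfl
        refine ⟨rfl, ?_⟩
        simp only [Finset.mem_insert, Finset.mem_singleton] at hv2
        rcases hv2 with rfl | rfl
        · exact Jn_left je
        · exact Jn_right je
    rw [this, Finset.card_singleton]
  · have h5 : (G.vs \ {u, w}).card = 2 := by omega
    rw [Finset.card_eq_two] at h5
    obtain ⟨p, q, hpq, hset⟩ := h5
    have hp : p ∈ G.vs \ {u, w} := by rw [hset]; simp
    have hq : q ∈ G.vs \ {u, w} := by rw [hset]; simp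
    rw [Finset.mem_sdiff] at hp hq
    have hall : ∀ v ∈ G.vs, v = u ∨ v = w ∨ v = p ∨ v = q := by
      intro v hv
      by_cases hn : v ∈ ({u, w} : Finset V)
      · simp only [Finset.mem_insert, Finset.mem_singleton] at hn
        tauto
      · have : v ∈ G.vs \ {u, w} := Finset.mem_sdiff.2 ⟨hv, hn⟩
        rw [hset] at this
        simp only [Finset.mem_insert, Finset.mem_singleton] at this
        tauto
    have hf : ∃ f ∈ G.es, Jn G f p q := by
      by_contra hno
      push Not at hno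
      have hdis : Disjoint (star G G.es p) (star G G.es q) := by
        rw [Finset.disjoint_left]
        intro d hd1 hd2
        rw [mem_star] at hd1 hd2
        obtain ⟨r, jr⟩ := exists_Jn hd1.2
        have : q = r := Jn_of_end jr hd2.2 hpq.symm
        subst this
        exact hno d hd1.1 jr
      have hcard : (star G G.es p ∪ star G G.es q).card = 6 := by
        rw [Finset.card_union_of_disjoint hdis, hG.deg p hp.1, hG.deg q hq.1]
      have hsub2 : star G G.es p ∪ star G G.es q ⊆ (star G G.es u).erase e ∪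
          (star G G.es w).erase e := by
        intro d hd
        have hde : d ≠ e := by
          rintro rfl
          rw [Finset.mem_union, mem_star, mem_star] at hd
          rcases hd with hd | hd
          · by_cases hpu : p = u
            · exact hp.2 (by simp [hpu])
            · have := Jn_of_end je hd.2 hpu
              exact hp.2 (by simp [this])
          · by_cases hqu : q = u
            · exact hq.2 (by simp [hqu])
            · have := Jn_of_end je hd.2 hqu
              exact hq.2 (by simp [this])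
        have main : ∀ s t : V, s ∈ G.vs → (s = p ∧ t = q ∨ s = q ∧ t = p) → d ∈ G.es →
            (G.a d = s ∨ G.b d = s) → (G.a d = u ∨ G.b d = u) ∨ (G.a d = w ∨ G.b d = w) := by
          intro s t _ hst hd1 hd2
          obtain ⟨r, jr⟩ := exists_Jn hd2
          have hr := hall r (end_vs hG hd1 (Jn_right jr))
          have hsr := Jn_ne hG hd1 jr
          rcases hr with rfl | rfl | rfl | rfl
          · exact Or.inl (Jn_right jr)
          · exact Or.inr (Jn_right jr)
          · rcases hst with ⟨rfl, rfl⟩ | ⟨rfl, rfl⟩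
            · exact absurd rfl hsr
            · exact absurd (Jn_symm jr) (hno d hd1)
          · rcases hst with ⟨rfl, rfl⟩ | ⟨rfl, rfl⟩
            · exact absurd jr (hno d hd1)
            · exact absurd rfl hsr
        rw [Finset.mem_union, mem_star, mem_star] at hd
        rw [Finset.mem_union, Finset.mem_erase, Finset.mem_erase, mem_star, mem_star]
        rcases hd with hd | hd
        · rcases main p q hp.1 (Or.inl ⟨rfl, rfl⟩) hd.1 hd.2 with h7 | h7
          · exact Or.inl ⟨hde, hd.1, h7⟩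
          · exact Or.inr ⟨hde, hd.1, h7⟩
        · rcases main q p hq.1 (Or.inr ⟨rfl, rfl⟩) hd.1 hd.2 with h7 | h7
          · exact Or.inl ⟨hde, hd.1, h7⟩
          · exact Or.inr ⟨hde, hd.1, h7⟩
      have h8 := Finset.card_le_card hsub2
      have h9 := Finset.card_union_le ((star G G.es u).erase e) ((star G G.es w).erase e)
      rw [Finset.card_erase_of_mem (mem_star.2 ⟨he, Jn_left je⟩),
        Finset.card_erase_of_mem (mem_star.2 ⟨he, Jn_right je⟩), hG.deg u hu, hG.deg w hw] at h9
      omega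
    obtain ⟨f, hf, jf⟩ := hf
    have hpu : p ≠ u := fun h => hp.2 (by simp [h])
    have hpw : p ≠ w := fun h => hp.2 (by simp [h])
    have hqu : q ≠ u := fun h => hq.2 (by simp [h])
    have hqw : q ≠ w := fun h => hq.2 (by simp [h])
    refine ⟨{e, f}, ⟨?_, ?_⟩, by simp⟩
    · intro d hd
      simp only [Finset.mem_insert, Finset.mem_singleton] at hd
      rcases hd with rfl | rfl
      · exact he
      · exact hf
    · intro v hv
      have hcase : (∃ d, star G {e, f} v = {d}) := by
        rcases hall v hv with rfl | rfl | rfl | rfl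
        · refine ⟨e, ?_⟩
          ext d
          simp only [mem_star, Finset.mem_insert, Finset.mem_singleton]
          constructor
          · rintro ⟨rfl | rfl, h2⟩
            · rfl
            · exact absurd (Jn_of_end jf h2 hpu.symm) hqu.symm
          · rintro rfl; exact ⟨Or.inl rfl, Jn_left je⟩
        · refine ⟨e, ?_⟩
          ext d
          simp only [mem_star, Finset.mem_insert, Finset.mem_singleton]
          constructor
          · rintro ⟨rfl | rfl, h2⟩
            · rfl
            · exact absurd (Jn_of_end jf h2 hpw.symm) hqw.symm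
          · rintro rfl; exact ⟨Or.inl rfl, Jn_right je⟩
        · refine ⟨f, ?_⟩
          ext d
          simp only [mem_star, Finset.mem_insert, Finset.mem_singleton]
          constructor
          · rintro ⟨rfl | rfl, h2⟩
            · exact absurd (Jn_of_end je h2 hpu) hpw
            · rfl
          · rintro rfl; exact ⟨Or.inr rfl, Jn_left jf⟩
        · refine ⟨f, ?_⟩
          ext d
          simp only [mem_star, Finset.mem_insert, Finset.mem_singleton]
          constructor
          · rintro ⟨rfl | rfl, h2⟩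
            · exact absurd (Jn_of_end je h2 hqu) hqw
            · rfl
          · rintro rfl; exact ⟨Or.inr rfl, Jn_right jf⟩
      obtain ⟨d, hd⟩ := hcase
      rw [hd, Finset.card_singleton]

/-- the rooted theorem -/
theorem root_all (n : ℕ) : ∀ (G : Gr V E) (F : Finset E), G.vs.card = n → Ok G → Ev G F →
    TN G F 5 → Root G F := by
  induction n using Nat.strong_induction_on with
  | _ n ih =>
    intro G F hn hG hF hT
    by_cases h4 : G.vs.card ≤ 4
    · exact root_small hG h4
    push Not at h4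
    have h6 : 6 ≤ G.vs.card := by
      have := vs_even hG
      rw [Nat.even_iff] at this
      omega
    -- small cuts
    by_cases hc0 : ∀ X ⊆ G.vs, X.Nonempty → (G.vs \ X).Nonempty → 3 ≤ (cut G G.es X).card
    swap
    · push Not at hc0
      obtain ⟨X, hX, hXne, hYne, hlt⟩ := hc0
      have hbr := hG.br X hX
      have hsz := Finset.card_sdiff_add_card_eq_card hX
      have hp1 := Finset.card_pos.2 hXne
      have hp2 := Finset.card_pos.2 hYne
      have hcases : (cut G G.es X).card = 0 ∨ (cut G G.es X).card = 2 := by omega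
      rcases hcases with h0 | h2
      · have h : Cut0 G X := ⟨hG, hX, by
          intro e he hc
          rw [Finset.card_eq_zero] at h0
          have := mem_cut.2 ⟨he, hc⟩
          rw [h0] at this
          simp at this⟩
        apply glue0 h hXne hYne
        · exact ih X.card (by omega) _ _ rfl h.ind_ok (h.ind_ev hF) (h.ind_TN hF hT)
        · exact ih (G.vs \ X).card (by omega) _ _ rfl h.symm_side.ind_ok
            (h.symm_side.ind_ev hF) (h.symm_side.ind_TN hF hT)
      · rw [Finset.card_eq_two] at h2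
        obtain ⟨f, g, hfg, hcut⟩ := h2
        have h : Cut2 G X f g := ⟨hG, hX, hcut, hfg⟩
        apply glue2 h hF
        · exact ih X.card (by omega) _ _ rfl h.half_ok (h.half_ev hF) (h.half_TN hF hT)
        · exact ih (G.vs \ X).card (by omega) _ _ rfl h.symm_side.half_ok
            (h.symm_side.half_ev hF) (h.symm_side.half_TN hF hT)
    by_cases hc3 : ∀ X ⊆ G.vs, (cut G G.es X).card = 3 → X.card ≤ 1 ∨ (G.vs \ X).card ≤ 1
    swap
    · push Not at hc3
      obtain ⟨X, hX, hcut, hX2, hY2⟩ := hc3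
      have hsz := Finset.card_sdiff_add_card_eq_card hX
      obtain ⟨z, hz⟩ := Finset.card_pos.1 (show 0 < (G.vs \ X).card by omega)
      obtain ⟨z', hz'⟩ := Finset.card_pos.1 (show 0 < X.card by omega)
      rw [Finset.mem_sdiff] at hz
      have hcut' : (cut G G.es (G.vs \ X)).card = 3 := by
        rw [cut_compl hG (le_refl _)]; exact hcut
      have hz'' : z' ∉ G.vs \ X := by simp [hz']
      have hYs : G.vs \ X ⊆ G.vs := Finset.sdiff_subset
      apply glue3 hG hF hX hz.2 hz'' hcut
      · refine ih (X.card + 1) (by omega) _ _ ?_ (con_ok hG hX hz.2 hcut)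
          (con_ev hG hF hX hz.2 hcut) (con_TN hG hF hT hX hz.2 hz.1 hcut)
        exact Finset.card_insert_of_notMem hz.2
      · refine ih ((G.vs \ X).card + 1) (by omega) _ _ ?_ (con_ok hG hYs hz'' hcut')
          (con_ev hG hF hYs hz'' hcut') (con_TN hG hF hT hYs hz'' (hX hz') hcut')
        exact Finset.card_insert_of_notMem hz''
    have h : C4 G := ⟨hG, hc0, hc3, h6⟩
    apply h.root hF hT
    intro x y x1 y1 x2 y2 k k1 k2 l1 l2 hs
    obtain ⟨vx, vy, -⟩ := hs.ne_edges
    refine ih (G.vs \ {x, y}).card ?_ _ _ rfl hs.red_ok hs.red_ev (hs.red_TN hT)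
    have hsub : ({x, y} : Finset V) ⊆ G.vs := by
      intro v hv
      simp only [Finset.mem_insert, Finset.mem_singleton] at hv
      rcases hv with rfl | rfl
      · exact vx
      · exact vy
    rw [Finset.card_sdiff_of_subset hsub, Finset.card_pair hs.xy]
    omega

end Pool.Agent.H43.F5
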